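import Pool.Agent.Lib.RM67.Basic
import Pool.Agent.Lib.BK2.MERT

/-! Project rm67: smooth sums and estimates for primes. -/

namespace Pool.Agent.Lib.RM67

open Finset Real Pool.Agent.Lib.BK2

noncomputable section

/-- The sign of a bit. -/
def sg (b : Bool) : ℝ := if b then 1 else -1

/-- A prime, or zero. -/
def d (n : ℕ) : ℕ := if n.Prime then n else 0

/-- The reciprocal of a prime, or zero. -/
def r (n : ℕ) : ℝ := 1 / (d n : ℝ)

/-- The sum over squarefree numbers with small prime factors, by recursion on the bits. -/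
def Psi : List Bool → ℕ → ℝ
  | [], z => if 1 ≤ z then 1 else 0
  | b :: l, z => Psi l z + sg b * Psi l (z / d l.length)

/-- One term. -/
def tm (c : ℕ → ℝ) (n m : ℕ) : ℝ :=
  if Squarefree m ∧ ∀ p ∈ m.primeFactors, p < n then ∏ p ∈ m.primeFactors, c p else 0

/-- The same sum in closed form. -/
def T (c : ℕ → ℝ) (n z : ℕ) : ℝ := ∑ m ∈ Ioc 0 z, tm c n m

@[simp] theorem sg_true : sg true = 1 := rfl
@[simp] theorem sg_false : sg false = -1 := rfl
theorem abs_sg (b : Bool) : |sg b| = 1 := by cases b <;> simp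

theorem r_prime {p : ℕ} (h : p.Prime) : r p = 1 / p := by simp [r, d, h]
theorem r_not {p : ℕ} (h : ¬ p.Prime) : r p = 0 := by simp [r, d, h]
theorem r_nonneg (n : ℕ) : 0 ≤ r n := by unfold r; positivity
theorem r_le (n : ℕ) : r n ≤ 1 / 2 := by
  by_cases h : n.Prime
  · rw [r_prime h]
    exact one_div_le_one_div_of_le two_pos (by exact_mod_cast h.two_le)
  · rw [r_not h]; norm_num

@[simp] theorem Psi_zero : ∀ l, Psi l 0 = 0
  | [] => by simp [Psi]
  | _ :: l => by simp [Psi, Psi_zero l]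

theorem T_zero (c : ℕ → ℝ) (z : ℕ) : T c 0 z = if 1 ≤ z then 1 else 0 := by
  have : ∀ m, tm c 0 m = if m = 1 then 1 else 0 := by
    intro m
    unfold tm
    by_cases h : m = 1
    · simp [h]
    · rw [if_neg h, if_neg]
      rintro ⟨h1, h2⟩
      obtain ⟨p, hp, hd⟩ := Nat.exists_prime_and_dvd h
      exact absurd (h2 p (Nat.mem_primeFactors.2 ⟨hp, hd, h1.ne_zero⟩)) (by omega)
  simp only [T, this, sum_ite_eq', mem_Ioc]
  simp

theorem tm_succ (c : ℕ → ℝ) (n m : ℕ) (hm : 0 < m) :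
    tm c (n + 1) m = tm c n m + if d n ∣ m then c n * tm c n (m / d n) else 0 := by
  by_cases h : d n ∣ m
  · have hp : n.Prime := by
      by_contra hp
      simp only [d, hp, if_false, zero_dvd_iff] at h
      omega
    have hd : d n = n := by simp [d, hp]
    rw [hd] at h ⊢
    obtain ⟨k, rfl⟩ := h
    have hk : k ≠ 0 := by rintro rfl; simp at hm
    have e : (n * k).primeFactors = insert n k.primeFactors := by
      rw [Nat.primeFactors_mul hp.ne_zero hk, hp.primeFactors]; rfl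
    rw [if_pos (dvd_mul_right _ _), Nat.mul_div_cancel_left _ hp.pos]
    have h0 : tm c n (n * k) = 0 := if_neg fun h => by simpa [e] using h.2 n
    rw [h0, zero_add]
    unfold tm
    by_cases hc : Squarefree k ∧ ∀ p ∈ k.primeFactors, p < n
    · have hn : n ∉ k.primeFactors := fun h => by simpa using hc.2 n h
      have hnd : ¬ n ∣ k := fun h => hn (Nat.mem_primeFactors.2 ⟨hp, h, hk⟩)
      rw [if_pos hc, if_pos, e, prod_insert hn]
      refine ⟨Nat.squarefree_mul_iff.2 ⟨(hp.coprime_iff_not_dvd).2 hnd, hp.squarefree, hc.1⟩, ?_⟩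
      rw [e]
      intro p hp
      rcases mem_insert.1 hp with rfl | hp
      exacts [by omega, by have := hc.2 p hp; omega]
    · rw [if_neg hc, if_neg, mul_zero]
      rintro ⟨h1, h2⟩
      obtain ⟨h3, -, h4⟩ := Nat.squarefree_mul_iff.1 h1
      refine hc ⟨h4, fun p hq => ?_⟩
      have h5 := h2 p (by rw [e]; exact mem_insert_of_mem hq)
      have h6 : p ≠ n := by
        rintro rfl
        exact (hp.coprime_iff_not_dvd).1 h3 (Nat.dvd_of_mem_primeFactors hq)
      omega
  · rw [if_neg h, add_zero]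
    unfold tm
    refine if_congr (and_congr_right fun _ => forall₂_congr fun p hp => ?_) rfl rfl
    have : p ≠ n := by
      rintro rfl
      exact h (by simpa [d, Nat.prime_of_mem_primeFactors hp] using Nat.dvd_of_mem_primeFactors hp)
    omega

theorem sum_dvd (g : ℕ → ℝ) (p z : ℕ) :
    ∑ m ∈ Ioc 0 z, (if p ∣ m then g (m / p) else 0) = ∑ m ∈ Ioc 0 (z / p), g m := by
  rw [← sum_filter]
  rcases p.eq_zero_or_pos with rfl | hp
  · rw [filter_false_of_mem (by simp; omega)]; simp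
  refine sum_bij' (fun m _ => m / p) (fun m _ => p * m) ?_ ?_ ?_ ?_ fun _ _ => rfl
  · intro m hm
    simp only [mem_filter, mem_Ioc] at hm ⊢
    exact ⟨Nat.div_pos (Nat.le_of_dvd hm.1.1 hm.2) hp, Nat.div_le_div_right hm.1.2⟩
  · intro m hm
    simp only [mem_filter, mem_Ioc] at hm ⊢
    exact ⟨⟨Nat.mul_pos hp hm.1, by rw [mul_comm]; exact (Nat.le_div_iff_mul_le hp).1 hm.2⟩,
      dvd_mul_right _ _⟩
  · intro m hm
    exact Nat.mul_div_cancel' (mem_filter.1 hm).2
  · intro m _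
    exact Nat.mul_div_cancel_left _ hp

theorem T_succ (c : ℕ → ℝ) (n z : ℕ) : T c (n + 1) z = T c n z + c n * T c n (z / d n) := by
  unfold T
  rw [mul_sum, ← sum_dvd (fun m => c n * tm c n m), ← sum_add_distrib]
  exact sum_congr rfl fun m hm => tm_succ c n m (mem_Ioc.1 hm).1

theorem Psi_L (s : ℕ → Bool) (n : ℕ) : ∀ z, Psi (L s n) z = T (fun p => sg (s p)) n z := by
  induction n with
  | zero => intro z; rw [T_zero]; rfl
  | succ n ih => intro z; simp only [L, Psi, L_len, T_succ, ih]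

theorem cast_div_d (z n : ℕ) : ((z / d n : ℕ) : ℝ) ≤ z * r n := by
  rw [r, mul_one_div]; exact Nat.cast_div_le

/-- Rankin. -/
theorem rankin {c σ : ℝ} (hc : 0 ≤ c) (hσ : 0 < σ) (n : ℕ) : ∀ z : ℕ,
    T (fun _ => c) n z ≤ (z : ℝ) ^ σ * exp (c * ∑ m ∈ range n, r m ^ σ) := by
  induction n with
  | zero =>
    intro z
    rw [T_zero]
    split_ifs with h
    · simpa using one_le_rpow (by exact_mod_cast h) hσ.le
    · positivity
  | succ n ih =>
    intro z
    rw [T_succ, sum_range_succ, mul_add, exp_add]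
    have h1 : ((z / d n : ℕ) : ℝ) ^ σ ≤ (z : ℝ) ^ σ * r n ^ σ := by
      rw [← mul_rpow (by positivity) (r_nonneg n)]
      exact rpow_le_rpow (by positivity) (cast_div_d z n) hσ.le
    have h2 := add_one_le_exp (c * r n ^ σ)
    have h3 := (ih (z / d n)).trans (mul_le_mul_of_nonneg_right h1 (exp_pos _).le)
    have h4 := mul_le_mul_of_nonneg_left h2
      (show 0 ≤ (z : ℝ) ^ σ * exp (c * ∑ m ∈ range n, r m ^ σ) by positivity)
    nlinarith [ih z, mul_le_mul_of_nonneg_left h3 hc]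

theorem sum_r (S : Finset ℕ) (g : ℕ → ℝ) :
    ∑ m ∈ S, r m * g m = ∑ p ∈ S.filter Nat.Prime, g p / p := by
  rw [sum_filter]
  refine sum_congr rfl fun m _ => ?_
  split_ifs with h
  · rw [r_prime h]; ring
  · rw [r_not h, zero_mul]

theorem sum_r1 (S : Finset ℕ) : ∑ m ∈ S, r m = ∑ p ∈ S.filter Nat.Prime, (1 : ℝ) / p := by
  simpa using sum_r S fun _ => 1

theorem log_ratio {a b : ℕ} : log ((2 : ℝ) ^ b) / log ((2 : ℝ) ^ a) = b / a := by
  rw [log_pow, log_pow, mul_div_mul_right _ _ (log_pos one_lt_two).ne']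

theorem two_le_pow {a : ℕ} (ha : 1 ≤ a) : (2 : ℝ) ≤ 2 ^ a := le_self_pow₀ one_le_two (by omega)

theorem sr_Ico {a b : ℕ} (ha : 2 ≤ a) (hb : a ≤ b) :
    ∑ m ∈ Ico (2 ^ a) (2 ^ b), r m ≤ log (b / a) + 32 / a := by
  have h := (mert_two_le (two_le_pow (a := a) (by omega)) (pow_le_pow_right₀ one_le_two hb)
    ((Ico (2 ^ a) (2 ^ b)).filter Nat.Prime) fun l hl => by
      simp only [mem_filter, mem_Ico] at hl
      refine ⟨hl.2, ?_, by exact_mod_cast hl.1.2.le⟩
      have : 2 ^ a ≠ l := by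
        rintro rfl
        have := hl.2.eq_one_of_pow
        omega
      exact_mod_cast lt_of_le_of_ne hl.1.1 this).1
  rw [log_ratio] at h
  rw [sum_r1]
  refine h.trans (add_le_add le_rfl ?_)
  have ha' : (0 : ℝ) < a := by positivity
  rw [log_pow, div_le_div_iff₀ (mul_pos ha' (log_pos one_lt_two)) ha']
  nlinarith [log_two_gt_d9]

theorem sr_le {a : ℕ} (ha : 2 ≤ a) : ∑ m ∈ range (2 ^ a), r m ≤ log a + 18 := by
  have h := sr_Ico le_rfl ha
  have h4 : 2 ^ 2 ≤ 2 ^ a := Nat.pow_le_pow_right two_pos ha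
  have h2 : ∑ m ∈ range (2 ^ 2), r m ≤ 2 := by
    refine (sum_le_card_nsmul _ _ _ fun m _ => r_le m).trans (by norm_num)
  have ha' : (0 : ℝ) < a := by positivity
  have h3 : log ((a : ℝ) / (2 : ℕ)) ≤ log a := log_le_log (by positivity) (by push_cast; linarith)
  rw [range_eq_Ico, ← sum_Ico_consecutive _ (Nat.zero_le _) h4, ← range_eq_Ico]
  push_cast at h h3 ⊢
  norm_num at h h2 ⊢
  linarith

theorem sr_ge {a b : ℕ} (ha : 1 ≤ a) (hb : a ≤ b) :
    log (b / a) - 32 ≤ ∑ m ∈ Ioc (2 ^ a) (2 ^ b), r m := by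
  have h := (abs_le.1 (mert_two (two_le_pow ha) (pow_le_pow_right₀ one_le_two hb))).1
  have h2 := (mert_two_le (two_le_pow ha) le_rfl ∅ (by simp)).2
  have e : ∀ a : ℕ, ⌊(2 : ℝ) ^ a⌋₊ = 2 ^ a := fun a => by exact_mod_cast Nat.floor_natCast (2 ^ a)
  rw [log_ratio, e, e] at h
  rw [sum_r1]
  linarith

theorem log_le_of_lt {a m : ℕ} (h : m < 2 ^ a) : log m ≤ a := by
  rcases m.eq_zero_or_pos with rfl | hm
  · simp
  have : log (m : ℝ) ≤ log ((2 : ℝ) ^ a) := log_le_log (by positivity) (by exact_mod_cast h.le)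
  rw [log_pow] at this
  nlinarith [log_two_lt_d9, (Nat.cast_nonneg a : (0 : ℝ) ≤ a)]

theorem srl_le (a : ℕ) : ∑ m ∈ range (2 ^ a), r m * log m ≤ a + 2 := by
  rw [sum_r]
  refine (mert_one_le (x := 2 ^ a) (one_le_pow₀ one_le_two) _ fun l hl => ?_).trans ?_
  · simp only [mem_filter, mem_range] at hl
    exact ⟨hl.2, by exact_mod_cast hl.1.le⟩
  · rw [log_pow]
    nlinarith [log_two_lt_d9, (Nat.cast_nonneg a : (0 : ℝ) ≤ a)]

end

end Pool.Agent.Lib.RM67
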