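import Pool.Agent.Lib.RM67.B_MASS3

/-! Project rm67, block MASS. -/

namespace Pool.Agent.Lib.RM67

open Finset Real MeasureTheory Filter Topology

namespace T96

theorem NN_nil : NN [] = 1 := by simp [NN, R, int_dens]

theorem pr_N (n : ℕ) {c : ℝ} (hc : 0 < c) :
    pr n (fun s => ¬ Al (fun t => 0 ≤ t.length → NN t ≤ c) s) ≤ 1 / c := by
  have := doob 0 n NN hc NN_nonneg fun l _ _ => (NN_step l).le
  rwa [zero_add, av, NN_nil] at this

theorem pr_X (n k : ℕ) {c : ℝ} (hc : 0 < c) :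
    pr n (fun s => ¬ Al (fun t => 0 ≤ t.length → XX (1 / (72 * (2 ^ k : ℕ))) t ≤ c) s) ≤ 2 / c := by
  have h1 : (1 : ℝ) ≤ (2 ^ k : ℕ) := by exact_mod_cast Nat.one_le_two_pow
  have := doob 0 n (XX (1 / (72 * (2 ^ k : ℕ)))) hc (XX_nonneg _) fun l _ _ => XX_step (by
    rw [abs_of_pos (by positivity)]
    exact one_div_le_one_div_of_le (by norm_num) (by linarith)) l
  rwa [zero_add, av, XX_nil] at this

theorem bar_of {l J : ℕ} (hl : 1 ≤ l) {s : List Bool} (h1 : NN s ≤ (l : ℝ) ^ 2)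
    (h2 : ∀ k ≤ J, XX (1 / (72 * (2 ^ k : ℕ))) s ≤ exp (3 * l)) : bar J (8000 * (l : ℝ) ^ 3) s := by
  intro k hk hs t
  have l1 : (1 : ℝ) ≤ l := by exact_mod_cast hl
  refine (R_bound (a := 2 ^ k) Nat.one_le_two_pow hs (M := 3 * l) (by positivity) t).trans ?_
  have e : exp (-(3 * l : ℝ)) * exp (3 * l) = 1 := by rw [← exp_add]; simp
  have h3 : (1 + 72 * (3 * l : ℝ)) * NN s + 144 * exp (-(3 * l : ℝ)) *
      XX (1 / (72 * (2 ^ k : ℕ))) s ≤ 400 * (l : ℝ) ^ 3 := by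
    calc _ ≤ (1 + 72 * (3 * l : ℝ)) * l ^ 2 + 144 * exp (-(3 * l : ℝ)) * exp (3 * l) := by
          gcongr; exact h2 k hk
      _ ≤ _ := by
          rw [mul_assoc, e]
          nlinarith [one_le_pow₀ (n := 3) l1, pow_le_pow_right₀ l1 (show 2 ≤ 3 by norm_num)]
  calc _ ≤ 20 * (1 + t ^ 2) * (2 ^ k : ℕ) * (400 * (l : ℝ) ^ 3) := by gcongr
    _ = _ := by push_cast; ring

end T96

open T96

theorem st_MASS : St_MASS := by
  intro Ω _ μ _ Y hY ε hε
  obtain ⟨C, C0, hC⟩ := mass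
  have b1 := hY.bc1 (fun l => 2 ^ 2 ^ 4 ^ (l + 2))
    (fun l s => ¬ Al (fun t => 0 ≤ t.length → NN t ≤ (l : ℝ) ^ 2) s) (summable_sq 1) (by
      filter_upwards [eventually_ge_atTop 1] with l hl
      exact pr_N _ (by positivity))
  have b2 := hY.bc (fun l => range (4 ^ l + 1)) (fun l _ => 2 ^ 2 ^ 4 ^ (l + 2))
    (fun l k s => ¬ Al (fun t => 0 ≤ t.length → XX (1 / (72 * (2 ^ k : ℕ))) t ≤ exp (3 * l)) s)
    (summable_geometric_two.mul_left 4) (Eventually.of_forall fun l => by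
      refine (sum_le_sum fun k _ => pr_X _ k (exp_pos _)).trans ?_
      have h1 : (8 : ℝ) ^ l ≤ exp (3 * l) := by
        rw [mul_comm, exp_nat_mul]
        refine pow_le_pow_left₀ (by norm_num) ?_ l
        rw [show (3 : ℝ) = (3 : ℕ) * 1 by norm_num, exp_nat_mul]
        exact le_trans (by norm_num) (pow_le_pow_left₀ zero_le_two
          (by linarith [add_one_le_exp (1 : ℝ)]) 3)
      have h2 : (1 : ℝ) ≤ 4 ^ l := one_le_pow₀ (by norm_num)
      have h3 : ((1 : ℝ) / 2) ^ l * 8 ^ l = 4 ^ l := by rw [← mul_pow]; norm_num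
      rw [sum_const, card_range, nsmul_eq_mul, ← mul_div_assoc, div_le_iff₀ (exp_pos _)]
      push_cast
      calc _ ≤ 4 * (((1 : ℝ) / 2) ^ l * 8 ^ l) := by rw [h3]; linarith
        _ ≤ 4 * (((1 : ℝ) / 2) ^ l * exp (3 * l)) := by gcongr
        _ = _ := by ring)
  have b3 := hY.bc1 (fun l => 2 ^ 2 ^ 4 ^ (l + 2))
    (fun l s => ¬ Al (fun t => 2 ^ 2 ^ 4 ^ l ≤ t.length →
      ind (Al (bar (4 ^ l) (8000 * (l : ℝ) ^ 3)) t) * NN t ≤ (l : ℝ) ^ (1 + ε) / 2 ^ l) s)
    ((summable_nat_rpow.2 (show -(1 + ε / 2) < -1 by linarith)).mul_left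
      (12 * log 8000 + C + 72 / ε)) (by
      filter_upwards [eventually_ge_atTop 5] with l hl
      have l1 : (1 : ℝ) ≤ l := by exact_mod_cast (by omega : 1 ≤ l)
      have l0 : (0 : ℝ) < l := by linarith
      obtain ⟨k, hk⟩ := Nat.exists_eq_add_of_le (show 2 ^ 2 ^ 4 ^ l ≤ 2 ^ 2 ^ 4 ^ (l + 2) from
        Nat.pow_le_pow_right two_pos (Nat.pow_le_pow_right two_pos
          (Nat.pow_le_pow_right four_pos (by omega))))
      rw [hk]
      refine (doob _ k _ (by positivity) (fun s => mul_nonneg (ind_nonneg _) (NN_nonneg s))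
        fun s _ _ => kill fun _ => ⟨(NN_step s).le, fun b => NN_nonneg _⟩).trans ?_
      have h1 := hC l (8000 * (l : ℝ) ^ 3) hl (by linarith [one_le_pow₀ (n := 3) l1])
      have h2 := log_le_rpow_div l0.le (half_pos hε)
      have h3 : 1 ≤ (l : ℝ) ^ (ε / 2) := one_le_rpow l1 (half_pos hε).le
      have h4 : 0 ≤ log 8000 := log_nonneg (by norm_num)
      have h5 : (l : ℝ) ^ (-(1 + ε / 2)) * l ^ (1 + ε) = l ^ (ε / 2) := by
        rw [← rpow_add l0]; congr 1; ring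
      rw [log_mul (by norm_num) (by positivity), log_pow] at h1
      rw [div_le_iff₀ (by positivity), ← mul_div_assoc, mul_assoc, h5]
      refine h1.trans (div_le_div_of_nonneg_right ?_ (by positivity))
      have h6 : (l : ℝ) ^ (ε / 2) / (ε / 2) = 2 / ε * l ^ (ε / 2) := by field_simp
      have h7 : 72 / ε = 36 * (2 / ε) := by ring
      push_cast
      rw [h6] at h2
      rw [h7]
      nlinarith [mul_le_mul_of_nonneg_left h3 (show 0 ≤ 12 * log 8000 + C by positivity)])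
  filter_upwards [b1, b2, b3] with ω h1 h2 h3
  filter_upwards [h1, h2, h3, eventually_ge_atTop 1] with l h1 h2 h3 hl n hn1 hn2
  simp only [not_not, al_L, L_len] at h1 h2 h3
  have := h3 n hn2 hn1
  rwa [ind_pos fun m hm => bar_of hl (h1 m (le_trans hm hn2) (Nat.zero_le _)) fun k hk =>
    h2 k (mem_range.2 (by omega)) m (le_trans hm hn2) (Nat.zero_le _), one_mul] at this

end Pool.Agent.Lib.RM67
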