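import Pool.Agent.Lib.RM67.Blue

/-! Project rm67, block MASS, part 1: the barrier. -/

namespace Pool.Agent.Lib.RM67.T96

open Finset Real MeasureTheory Filter Topology

noncomputable section

/-- The derivative of one Euler factor. -/
def bd (n : ℕ) (t : ℝ) : ℝ := -(be n * log n * sin (log n * t))

/-- The logarithmic derivative. -/
def LL : List Bool → ℝ → ℝ
  | [], _ => 0
  | b :: l, t => LL l t + sg b * bd l.length t / (1 + sg b * bb l.length t)

/-- The compensator of one step. -/
def qq (n : ℕ) : ℝ := 4 * r n * log n ^ 2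

/-- The tilted product. -/
def UU (θ : ℝ) (l : List Bool) (t : ℝ) : ℝ :=
  R l t * exp (θ * LL l t - θ ^ 2 * ∑ m ∈ range l.length, qq m)

/-- Its mass. -/
def XX (θ : ℝ) (l : List Bool) : ℝ := ∫ t, (UU θ l t + UU (-θ) l t) * dens t

theorem fac_ge (b : Bool) (n : ℕ) (t : ℝ) : 1 / 18 ≤ 1 + sg b * bb n t := by
  linarith [(abs_le.1 (abs_sb b n t)).1]

theorem abs_b (n : ℕ) (t : ℝ) : |bb n t| ≤ 17 / 18 := by simpa using abs_sb true n t

theorem r_le_inv (n : ℕ) : r n ≤ 1 / n := by
  by_cases h : n.Prime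
  · rw [r_prime h]
  · rw [r_not h]; positivity

theorem qq_nonneg (n : ℕ) : 0 ≤ qq n := by have := r_nonneg n; unfold qq; positivity

theorem qq_le (n : ℕ) : qq n ≤ 16 := by
  rcases n.eq_zero_or_pos with rfl | hn
  · simp [qq]
  have h0 : (0 : ℝ) < n := by exact_mod_cast hn
  have h1 : log (√n) ≤ √n - 1 := log_le_sub_one_of_pos (sqrt_pos.2 h0)
  rw [log_sqrt h0.le] at h1
  have h2 : 0 ≤ log (n : ℝ) := log_natCast_nonneg n
  have h3 : log (n : ℝ) ^ 2 ≤ (2 * √n) ^ 2 := pow_le_pow_left₀ h2 (by linarith) 2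
  rw [mul_pow, sq_sqrt h0.le] at h3
  calc qq n ≤ 4 * (1 / n) * (2 ^ 2 * n) := by
        unfold qq; gcongr; exact r_le_inv n
    _ = 16 := by field_simp; norm_num

theorem bd_sq (n : ℕ) (t : ℝ) : bd n t ^ 2 ≤ qq n * (1 - bb n t ^ 2) := by
  obtain ⟨h1, h2, -⟩ := be_sq_le n
  have h3 : sin (log n * t) ^ 2 ≤ 1 - bb n t ^ 2 := by
    rw [bb, mul_pow, sin_sq]
    nlinarith [sq_nonneg (cos (log n * t))]
  calc bd n t ^ 2 = be n ^ 2 * log n ^ 2 * sin (log n * t) ^ 2 := by unfold bd; ring
    _ ≤ 4 * r n * log n ^ 2 * (1 - bb n t ^ 2) := by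
        have := r_nonneg n
        gcongr

theorem abs_bd (n : ℕ) (t : ℝ) : |bd n t| ≤ 4 := by
  refine (abs_le_of_sq_le_sq' ?_ (by norm_num)).2
  have := bd_sq n t
  rw [sq_abs]
  nlinarith [qq_le n, qq_nonneg n, sq_nonneg (bb n t), mul_nonneg (qq_nonneg n) (sq_nonneg (bb n t))]

theorem bb_deriv (n : ℕ) (t : ℝ) : HasDerivAt (bb n) (bd n t) t := by
  have : HasDerivAt (fun t => be n * cos (log n * t)) _ t :=
    (((hasDerivAt_id' t).const_mul (log n)).cos).const_mul (be n)
  exact this.congr_deriv (by unfold bd; ring)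

theorem R_deriv (t : ℝ) : ∀ l, HasDerivAt (R l) (R l t * LL l t) t
  | [] => (hasDerivAt_const t (1 : ℝ)).congr_deriv (by simp [LL])
  | b :: l => by
    have := (R_deriv t l).mul (((bb_deriv l.length t).const_mul (sg b)).const_add 1)
    refine HasDerivAt.congr_deriv this ?_
    have h := fac_ge b l.length t
    simp only [R, LL]
    field_simp

theorem bb_cont (n : ℕ) : Continuous (bb n) := by unfold bb; fun_prop

theorem LL_cont : ∀ l, Continuous (LL l)
  | [] => continuous_const
  | b :: l => by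
    have h1 := LL_cont l
    have h2 := bb_cont l.length
    have h3 : Continuous (bd l.length) := by unfold bd; fun_prop
    change Continuous fun t => LL l t + sg b * bd l.length t / (1 + sg b * bb l.length t)
    exact h1.add ((continuous_const.mul h3).div (by fun_prop)
      fun t => by linarith [fac_ge b l.length t])

theorem abs_LL (t : ℝ) : ∀ l, |LL l t| ≤ 72 * l.length
  | [] => by simp [LL]
  | b :: l => by
    have h := fac_ge b l.length t
    have h1 : |sg b * bd l.length t / (1 + sg b * bb l.length t)| ≤ 72 := by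
      rw [abs_div, abs_mul, abs_sg, abs_of_pos (a := 1 + _) (by linarith), div_le_iff₀ (by linarith)]
      linarith [abs_bd l.length t]
    rw [LL, List.length_cons]
    push_cast
    linarith [abs_add_le (LL l t) (sg b * bd l.length t / (1 + sg b * bb l.length t)), abs_LL t l]

theorem tp_one {x c : ℝ} (hx : 1 / 18 ≤ x) (hc : |c| ≤ 1 / 18) :
    x * exp (c / x) ≤ x + c + c ^ 2 / x := by
  have h0 : 0 < x := by linarith
  have h1 : |c / x| ≤ 1 := by
    rw [abs_div, abs_of_pos h0, div_le_one h0]; linarith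
  have h2 := (abs_le.1 (Real.abs_exp_sub_one_sub_id_le h1)).2
  calc x * exp (c / x) ≤ x * (1 + c / x + (c / x) ^ 2) := by gcongr; linarith
    _ = _ := by field_simp

theorem UU_pos (θ : ℝ) (l : List Bool) (t : ℝ) : 0 < UU θ l t := mul_pos (R_pos t l) (exp_pos _)

theorem UU_step {θ : ℝ} (hθ : |θ| ≤ 1 / 72) (l : List Bool) (t : ℝ) :
    (UU θ (true :: l) t + UU θ (false :: l) t) / 2 ≤ UU θ l t := by
  have e : ∀ b, UU θ (b :: l) t = UU θ l t * exp (-(θ ^ 2 * qq l.length)) *
      ((1 + sg b * bb l.length t) * exp (sg b * (θ * bd l.length t) / (1 + sg b * bb l.length t))) := by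
    intro b
    simp only [UU, R, LL, List.length_cons, sum_range_succ]
    rw [show θ * (LL l t + sg b * bd l.length t / (1 + sg b * bb l.length t)) -
      θ ^ 2 * (∑ m ∈ range l.length, qq m + qq l.length) =
      (θ * LL l t - θ ^ 2 * ∑ m ∈ range l.length, qq m) + -(θ ^ 2 * qq l.length) +
        sg b * (θ * bd l.length t) / (1 + sg b * bb l.length t) by ring, exp_add, exp_add]
    ring
  set c := θ * bd l.length t with hc
  have hc1 : ∀ b, |sg b * c| ≤ 1 / 18 := fun b => by
    rw [abs_mul, abs_sg, one_mul, hc, abs_mul]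
    calc _ ≤ 1 / 72 * 4 := mul_le_mul hθ (abs_bd _ _) (abs_nonneg _) (by norm_num)
      _ = _ := by norm_num
  have h1 := tp_one (fac_ge true l.length t) (hc1 true)
  have h2 := tp_one (fac_ge false l.length t) (hc1 false)
  have f1 := fac_ge true l.length t
  have f2 := fac_ge false l.length t
  rw [e, e]
  simp only [sg_true, sg_false, one_mul, neg_mul] at h1 h2 f1 f2 ⊢
  set b := bb l.length t with hb
  have h3 : (c ^ 2 / (1 + b) + (-c) ^ 2 / (1 + -b)) / 2 ≤ θ ^ 2 * qq l.length := by
    have e2 : (c ^ 2 / (1 + b) + (-c) ^ 2 / (1 + -b)) / 2 = c ^ 2 / ((1 + b) * (1 + -b)) := by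
      field_simp; ring
    rw [e2, div_le_iff₀ (by positivity), hc, mul_pow, mul_assoc]
    exact mul_le_mul_of_nonneg_left ((bd_sq _ t).trans_eq (by ring)) (sq_nonneg _)
  have h4 := add_one_le_exp (θ ^ 2 * qq l.length)
  have h5 : exp (-(θ ^ 2 * qq l.length)) * exp (θ ^ 2 * qq l.length) = 1 := by
    rw [← exp_add]; simp
  calc _ = UU θ l t * exp (-(θ ^ 2 * qq l.length)) *
        (((1 + b) * exp (c / (1 + b)) + (1 + -b) * exp (-c / (1 + -b))) / 2) := by ring
    _ ≤ UU θ l t * exp (-(θ ^ 2 * qq l.length)) * exp (θ ^ 2 * qq l.length) := by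
        have := UU_pos θ l t
        gcongr; linarith
    _ = _ := by rw [mul_assoc, h5, mul_one]

theorem UU_cont (θ : ℝ) (l : List Bool) : Continuous (UU θ l) := by
  have h1 := R_cont l
  have h2 := LL_cont l
  unfold UU; fun_prop

theorem UU_int (θ : ℝ) (l : List Bool) : Integrable fun t => UU θ l t * dens t := by
  refine bd_int (UU_cont θ l) (C := 2 ^ l.length * exp (|θ| * (72 * l.length))) fun t => ?_
  rw [abs_of_pos (UU_pos θ l t), UU]
  refine mul_le_mul (R_le t l) (exp_le_exp.2 ?_) (exp_pos _).le (by positivity)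
  have h1 : θ * LL l t ≤ |θ| * (72 * l.length) :=
    (le_abs_self _).trans (by rw [abs_mul]; gcongr; exact abs_LL t l)
  have h2 : 0 ≤ θ ^ 2 * ∑ m ∈ range l.length, qq m :=
    mul_nonneg (sq_nonneg _) (sum_nonneg fun m _ => qq_nonneg m)
  linarith

theorem XX_int (θ : ℝ) (l : List Bool) :
    Integrable fun t => (UU θ l t + UU (-θ) l t) * dens t := by
  simp only [add_mul]
  exact (UU_int θ l).add (UU_int (-θ) l)

theorem XX_nonneg (θ : ℝ) (l : List Bool) : 0 ≤ XX θ l :=
  integral_nonneg fun t => mul_nonneg (add_pos (UU_pos _ _ _) (UU_pos _ _ _)).le (dens_pos t).le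

theorem XX_nil (θ : ℝ) : XX θ [] = 2 := by
  simp only [XX, UU, R, LL]
  simp [integral_const_mul, int_dens]
  norm_num

theorem XX_step {θ : ℝ} (hθ : |θ| ≤ 1 / 72) (l : List Bool) :
    (XX θ (true :: l) + XX θ (false :: l)) / 2 ≤ XX θ l := by
  unfold XX
  rw [← integral_add (XX_int θ _) (XX_int θ _), ← integral_div]
  refine integral_mono (((XX_int θ _).add (XX_int θ _)).div_const 2) (XX_int θ l) fun t => ?_
  have h1 := UU_step hθ l t
  have h2 := UU_step (θ := -θ) (by rwa [abs_neg]) l t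
  have h3 := dens_pos t
  simp only
  nlinarith

theorem sob {f f' g : ℝ → ℝ} (hf : ∀ t, HasDerivAt f (f' t) t) (hg : Continuous g)
    (h : ∀ t, |f' t| ≤ g t) (a : ℝ) {u : ℝ} (hu : 0 ≤ u) :
    f a * u ≤ ∫ t in a..a + u, (f t + u * g t) := by
  have hc : Continuous f := continuous_iff_continuousAt.2 fun t => (hf t).continuousAt
  have g0 : ∀ t, 0 ≤ g t := fun t => (abs_nonneg _).trans (h t)
  have k : ∀ s ∈ Set.Icc a (a + u), f a - ∫ t in a..a + u, g t ≤ f s := by
    intro s hs
    have h1 := intervalIntegral.sub_le_integral_of_hasDeriv_right_of_le (g := fun t => -f t)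
      (g' := fun t => -f' t) (φ := g) hs.1 hc.neg.continuousOn
      (fun x _ => (hf x).neg.hasDerivWithinAt) hg.integrableOn_Icc
      fun x _ => (neg_le_abs _).trans (h x)
    have h2 : ∫ t in a..s, g t ≤ ∫ t in a..a + u, g t :=
      intervalIntegral.integral_mono_interval le_rfl hs.1 hs.2 (ae_of_all _ g0)
        (hg.intervalIntegrable _ _)
    linarith
  have h3 := intervalIntegral.integral_mono_on (μ := volume) (by linarith : a ≤ a + u)
    (intervalIntegrable_const (c := f a - ∫ t in a..a + u, g t)) (hc.intervalIntegrable _ _) k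
  rw [intervalIntegral.integral_add (hc.intervalIntegrable _ _)
    ((hg.intervalIntegrable _ _).const_mul u), intervalIntegral.integral_const_mul]
  simp only [intervalIntegral.integral_const, add_sub_cancel_left, smul_eq_mul] at h3
  linarith

theorem window {g : ℝ → ℝ} (hg : Continuous g) (g0 : ∀ t, 0 ≤ g t)
    (hi : Integrable fun t => g t * dens t) (a : ℝ) {u : ℝ} (hu : 0 ≤ u) (hu1 : u ≤ 1) :
    ∫ t in a..a + u, g t ≤ 20 * (1 + a ^ 2) * ∫ t, g t * dens t := by
  have h1 : ∫ t in a..a + u, g t ≤ ∫ t in a..a + u, 20 * (1 + a ^ 2) * (g t * dens t) := by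
    refine intervalIntegral.integral_mono_on (by linarith) (hg.intervalIntegrable _ _)
      (hi.const_mul _).intervalIntegrable fun t ht => ?_
    have h2 : 1 ≤ 20 * (1 + a ^ 2) * dens t := by
      have h3 : t ^ 2 ≤ 2 * a ^ 2 + 2 := by
        nlinarith [sq_nonneg (a - (t - a)), mul_nonneg (sub_nonneg.2 ht.1) (sub_nonneg.2 ht.1),
          ht.1, ht.2]
      have h4 := pi_pos
      unfold dens ker
      rw [← mul_inv, ← div_eq_mul_inv, one_le_div (by positivity)]
      nlinarith [pi_lt_d2, sq_nonneg a, sq_nonneg t]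
    nlinarith [g0 t]
  refine h1.trans ?_
  rw [intervalIntegral.integral_const_mul, intervalIntegral.integral_of_le (by linarith)]
  refine mul_le_mul_of_nonneg_left (setIntegral_le_integral hi (ae_of_all _ fun t => ?_))
    (by positivity)
  exact mul_nonneg (g0 t) (dens_pos t).le

theorem sum_qq {a n : ℕ} (ha : 1 ≤ a) (hn : n ≤ 2 ^ a) : ∑ m ∈ range n, qq m ≤ 12 * (a : ℝ) ^ 2 := by
  have h1 : (1 : ℝ) ≤ a := by exact_mod_cast ha
  calc _ ≤ ∑ m ∈ range (2 ^ a), qq m :=
        sum_le_sum_of_subset_of_nonneg (range_mono hn) fun m _ _ => qq_nonneg m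
    _ ≤ ∑ m ∈ range (2 ^ a), 4 * a * (r m * log m) := sum_le_sum fun m hm => by
        have h2 := log_le_of_lt (mem_range.1 hm)
        have h3 := mul_nonneg (r_nonneg m) (log_natCast_nonneg m)
        unfold qq
        nlinarith
    _ ≤ 4 * a * (a + 2) := by rw [← mul_sum]; gcongr; exact srl_le a
    _ ≤ _ := by nlinarith

/-- The product is controlled by two masses. -/
theorem R_bound {a : ℕ} (ha : 1 ≤ a) {l : List Bool} (hl : l.length ≤ 2 ^ a) {M : ℝ} (hM : 0 ≤ M)
    (t : ℝ) : R l t ≤ 20 * (1 + t ^ 2) * a *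
      ((1 + 72 * M) * NN l + 144 * exp (-M) * XX (1 / (72 * a)) l) := by
  have h1 : (1 : ℝ) ≤ a := by exact_mod_cast ha
  set θ : ℝ := 1 / (72 * a) with hθ
  have hq : θ ^ 2 * ∑ m ∈ range l.length, qq m ≤ 1 / 2 := by
    calc _ ≤ θ ^ 2 * (12 * (a : ℝ) ^ 2) := by gcongr; exact sum_qq ha hl
      _ = 12 / 72 ^ 2 := by rw [hθ]; field_simp
      _ ≤ _ := by norm_num
  have hU : ∀ (η : ℝ) (s : ℝ), η ^ 2 = θ ^ 2 → R l s * exp (η * LL l s) ≤ 2 * UU η l s := by
    intro η s hη
    rw [UU, hη, sub_eq_add_neg, exp_add]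
    have := add_one_le_exp (-(θ ^ 2 * ∑ m ∈ range l.length, qq m))
    have h2 := mul_pos (R_pos s l) (exp_pos (η * LL l s))
    nlinarith
  set g : ℝ → ℝ := fun s => 72 * M * R l s + 144 * exp (-M) * (UU θ l s + UU (-θ) l s) with hg
  have gc : Continuous g := by
    have := R_cont l
    have := UU_cont θ l
    have := UU_cont (-θ) l
    rw [hg]; fun_prop
  have k : ∀ s, |R l s * LL l s| ≤ a * g s := by
    intro s
    have p := R_pos s l
    have y1 : |θ * LL l s| ≤ M + exp (-M) * (exp (θ * LL l s) + exp (-θ * LL l s)) := by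
      have y2 := add_one_le_exp (|θ * LL l s| + -M)
      rw [exp_add] at y2
      have y3 : exp |θ * LL l s| ≤ exp (θ * LL l s) + exp (-θ * LL l s) := by
        rcases abs_cases (θ * LL l s) with h | h <;> rw [h.1]
        · linarith [exp_pos (-θ * LL l s)]
        · rw [neg_mul]; linarith [exp_pos (θ * LL l s)]
      nlinarith [exp_pos (-M)]
    have y4 : |LL l s| = 72 * a * |θ * LL l s| := by
      rw [abs_mul, abs_of_pos (a := θ) (by positivity), hθ]; field_simp
    have u1 := hU θ s rfl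
    have u2 := hU (-θ) s (by ring)
    rw [abs_mul, abs_of_pos p, y4]
    calc _ = a * (72 * (R l s * |θ * LL l s|)) := by ring
      _ ≤ a * (72 * (R l s * (M + exp (-M) * (exp (θ * LL l s) + exp (-θ * LL l s))))) := by gcongr
      _ = a * (72 * M * R l s +
          72 * exp (-M) * (R l s * exp (θ * LL l s) + R l s * exp (-θ * LL l s))) := by ring
      _ ≤ a * (72 * M * R l s + 72 * exp (-M) * (2 * UU θ l s + 2 * UU (-θ) l s)) := by gcongr
      _ = _ := by rw [hg]; ring
  have s1 := sob (g := fun s => a * g s) (R_deriv · l) (continuous_const.mul gc) k t (u := 1 / a)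
    (by positivity)
  have e : ∀ s, R l s + 1 / (a : ℝ) * (a * g s) = R l s + g s := fun s => by field_simp
  simp only [e] at s1
  have e2 : ∀ s, (R l s + g s) * dens s = (1 + 72 * M) * (R l s * dens s) +
      144 * exp (-M) * ((UU θ l s + UU (-θ) l s) * dens s) := fun s => by rw [hg]; ring
  have s2 := window (g := fun s => R l s + g s) ((R_cont l).add gc) (fun s => by
      have := R_pos s l
      have := UU_pos θ l s
      have := UU_pos (-θ) l s
      simp only [hg]; positivity)
    (by simp only [e2]; exact ((R_int l).const_mul _).add ((XX_int θ l).const_mul _)) t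
    (u := 1 / a) (by positivity) ((div_le_one (by linarith)).2 h1)
  simp only [e2] at s2
  rw [integral_add ((R_int l).const_mul _) ((XX_int θ l).const_mul _), integral_const_mul,
    integral_const_mul] at s2
  have s3 := s1.trans s2
  rw [mul_one_div, div_le_iff₀ (by linarith)] at s3
  exact s3.trans_eq (by unfold NN XX; ring)

end

end Pool.Agent.Lib.RM67.T96
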