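import Pool.Agent.Lib.RM67.B_MASS1

/-! Project rm67, block MASS, part 2: the variance is large for most frequencies. -/

namespace Pool.Agent.Lib.RM67.T96

open Finset Real MeasureTheory Filter Topology

noncomputable section

/-- The oscillating part of the variance on one scale. -/
def DD (i : ℕ) (t : ℝ) : ℝ :=
  ∑ m ∈ Ioc (2 ^ 2 ^ i) (2 ^ 2 ^ (i + 1)), be m ^ 2 / 4 * cos (2 * log m * t)

/-- The total loss by oscillation. -/
def Ph (K : ℕ) (t : ℝ) : ℝ := ∑ i ∈ range K, |DD i t|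

/-- Half the variance. -/
def AA (n : ℕ) (t : ℝ) : ℝ := ∑ m ∈ range n, bb m t ^ 2 / 2

theorem Ph_nonneg (K : ℕ) (t : ℝ) : 0 ≤ Ph K t := sum_nonneg fun _ _ => abs_nonneg _

theorem AA_nonneg (n : ℕ) (t : ℝ) : 0 ≤ AA n t := sum_nonneg fun _ _ => by positivity

theorem sum_DD (k : ℕ) (t : ℝ) : ∑ i ∈ range k, DD i t =
    ∑ m ∈ Ioc (2 ^ 1) (2 ^ 2 ^ k), be m ^ 2 / 4 * cos (2 * log m * t) := by
  induction k with
  | zero => simp
  | succ k ih =>
    rw [sum_range_succ, ih, DD]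
    exact sum_Ioc_consecutive _ (Nat.pow_le_pow_right two_pos (Nat.one_le_two_pow))
      (Nat.pow_le_pow_right two_pos (Nat.pow_le_pow_right two_pos (Nat.le_succ k)))

theorem AA_ge {k K n : ℕ} (hk : k ≤ K) (hn : 2 ^ 2 ^ k < n) (t : ℝ) :
    k * log 2 - 33 - Ph K t ≤ AA n t := by
  have h1 : ∑ m ∈ Ioc (2 ^ 1) (2 ^ 2 ^ k), bb m t ^ 2 / 2 ≤ AA n t :=
    sum_le_sum_of_subset_of_nonneg (fun m hm => mem_range.2 ((mem_Ioc.1 hm).2.trans_lt hn))
      fun _ _ _ => by positivity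
  have h2 : ∑ m ∈ Ioc (2 ^ 1) (2 ^ 2 ^ k), (r m - 2 * ((m : ℝ) ^ 2)⁻¹ +
      be m ^ 2 / 4 * cos (2 * log m * t)) ≤ ∑ m ∈ Ioc (2 ^ 1) (2 ^ 2 ^ k), bb m t ^ 2 / 2 := by
    refine sum_le_sum fun m _ => ?_
    have h3 := (be_sq_le m).2.2
    have h4 : r m ^ 2 ≤ ((m : ℝ) ^ 2)⁻¹ := by
      rw [← inv_pow, ← one_div]
      exact pow_le_pow_left₀ (r_nonneg m) (r_le_inv m) 2
    rw [bb, mul_pow, cos_sq, mul_assoc 2]
    linarith
  rw [sum_add_distrib, sum_sub_distrib, ← mul_sum, ← sum_DD] at h2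
  have h5 := sr_ge (a := 1) (b := 2 ^ k) le_rfl Nat.one_le_two_pow
  have h6 : ∑ m ∈ Ioc (2 ^ 1) (2 ^ 2 ^ k), (((m : ℕ) : ℝ) ^ 2)⁻¹ ≤ _ :=
    sum_Ioc_inv_sq_le_sub (α := ℝ) (k := 2 ^ 1) (n := 2 ^ 2 ^ k) (by norm_num)
      (Nat.pow_le_pow_right two_pos (Nat.one_le_two_pow))
  have h7 : (0 : ℝ) ≤ ((2 ^ 2 ^ k : ℕ) : ℝ)⁻¹ := by positivity
  have h8 : -Ph K t ≤ ∑ i ∈ range k, DD i t := by
    calc -Ph K t ≤ -∑ i ∈ range k, |DD i t| := neg_le_neg
          (sum_le_sum_of_subset_of_nonneg (range_mono hk) fun _ _ _ => abs_nonneg _)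
      _ ≤ _ := by rw [← sum_neg_distrib]; exact sum_le_sum fun i _ => neg_abs_le _
  have h9 : ((2 ^ 1 : ℕ) : ℝ)⁻¹ = 1 / 2 := by norm_num
  rw [Nat.cast_one, div_one, Nat.cast_pow, log_pow, Nat.cast_ofNat] at h5
  rw [h9] at h6
  generalize ((2 ^ 2 ^ k : ℕ) : ℝ)⁻¹ = x at h6 h7
  linarith!

theorem cc_int (u v : ℝ) : Integrable fun t => cos (u * t) * cos (v * t) * dens t :=
  bd_int (by fun_prop) (C := 1) fun t => by
    rw [abs_mul]; exact mul_le_one₀ (abs_cos_le_one _) (abs_nonneg _) (abs_cos_le_one _)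

theorem int_cc {u v : ℝ} (hu : 0 ≤ u) (hv : 0 ≤ v) :
    ∫ t, cos (u * t) * cos (v * t) * dens t ≤ exp (-|u - v| / 2) := by
  have e : ∀ t, cos (u * t) * cos (v * t) * dens t =
      (cos ((u - v) * t) * dens t + cos ((u + v) * t) * dens t) / 2 := fun t => by
    rw [sub_mul, add_mul u, cos_sub, cos_add]; ring
  have i : ∀ w : ℝ, Integrable fun t => cos (w * t) * dens t := fun w =>
    bd_int (by fun_prop) fun t => abs_cos_le_one _
  simp only [e]
  rw [integral_div, integral_add (i _) (i _), int_cos, int_cos]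
  have : exp (-|u + v| / 2) ≤ exp (-|u - v| / 2) := by
    refine exp_le_exp.2 ?_
    have : |u - v| ≤ |u + v| := by
      rw [abs_of_nonneg (add_nonneg hu hv), abs_le]; constructor <;> linarith
    linarith
  linarith

theorem exp_ratio {m n : ℕ} (hm : 0 < m) (h : m ≤ n) :
    exp (-|2 * log n - 2 * log m| / 2) = m / n := by
  have h0 : (0 : ℝ) < m := by exact_mod_cast hm
  have h1 : (m : ℝ) ≤ n := by exact_mod_cast h
  have h2 := log_le_log h0 h1
  rw [abs_of_nonneg (by linarith), show -(2 * log n - 2 * log m) / 2 = log m - log n by ring,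
    exp_sub, exp_log h0, exp_log (h0.trans_le h1)]

theorem cnt {a : ℕ} (ha : 1 ≤ a) (S : Finset ℕ) (hS : ∀ m ∈ S, 2 ^ a < m) (n : ℕ) :
    ∑ m ∈ S, r m * (if m ≤ n then (m : ℝ) / n else 0) ≤ 2 / a := by
  have h1 : (1 : ℝ) ≤ a := by exact_mod_cast ha
  rcases n.eq_zero_or_pos with rfl | hn
  · simp; positivity
  have h0 : (0 : ℝ) < n := by exact_mod_cast hn
  have l2 := log_two_gt_d9
  have h2 := Chebyshev.theta_le_log4_mul_x h0.le
  rw [Chebyshev.theta, Nat.floor_natCast, show (4 : ℝ) = 2 ^ 2 by norm_num, log_pow] at h2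
  calc _ ≤ ∑ m ∈ S, (if m ≤ n ∧ m.Prime then log m else 0) / (a * log 2 * n) := by
        refine sum_le_sum fun m hm => ?_
        by_cases hp : m.Prime
        · by_cases hmn : m ≤ n
          · have h3 : (0 : ℝ) < m := by exact_mod_cast hp.pos
            have h4 : a * log 2 ≤ log m := by
              rw [← log_pow]
              exact log_le_log (by positivity) (by exact_mod_cast (hS m hm).le)
            simp only [hp, hmn, r_prime, if_true, and_self]
            rw [le_div_iff₀ (by positivity)]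
            exact le_trans (by field_simp; rfl) h4
          · simp [hmn]
        · simp [hp, r_not]
    _ ≤ (∑ m ∈ Ioc 0 n with m.Prime, log m) / (a * log 2 * n) := by
        rw [← sum_div, ← sum_filter]
        gcongr
        intro m hm
        simp only [mem_filter, mem_Ioc] at hm ⊢
        exact ⟨⟨hm.2.2.pos, hm.2.1⟩, hm.2.2⟩
    _ ≤ (2 : ℕ) * log 2 * n / (a * log 2 * n) := by gcongr
    _ = _ := by push_cast; field_simp

theorem sr_scale {a : ℕ} (ha : 1 ≤ a) : ∑ m ∈ Ioc (2 ^ a) (2 ^ (a * 2)), r m ≤ 8 := by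
  have h1 : (1 : ℝ) ≤ a := by exact_mod_cast ha
  have l2 := log_two_gt_d9
  have h2 := srl_le (a * 2 + 1)
  have h3 : (∑ m ∈ Ioc (2 ^ a) (2 ^ (a * 2)), r m) * (a * log 2) ≤
      ∑ m ∈ range (2 ^ (a * 2 + 1)), r m * log m := by
    rw [sum_mul]
    refine le_trans (sum_le_sum fun m hm => mul_le_mul_of_nonneg_left ?_ (r_nonneg m))
      (sum_le_sum_of_subset_of_nonneg (fun m hm => mem_range.2 ((mem_Ioc.1 hm).2.trans_lt
        (Nat.pow_lt_pow_right one_lt_two (by omega))))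
        fun m _ _ => mul_nonneg (r_nonneg m) (log_natCast_nonneg m))
    rw [← log_pow]
    exact log_le_log (by positivity) (by exact_mod_cast (mem_Ioc.1 hm).1.le)
  push_cast at h2
  refine le_of_mul_le_mul_right (h3.trans (h2.trans ?_)) (by positivity)
  nlinarith

theorem DD_sq (i : ℕ) : (Integrable fun t => DD i t ^ 2 * dens t) ∧
    ∫ t, DD i t ^ 2 * dens t ≤ 32 / 2 ^ i := by
  set S := Ioc (2 ^ 2 ^ i) (2 ^ 2 ^ (i + 1)) with hS
  have e : ∀ t, DD i t ^ 2 * dens t = ∑ m ∈ S, ∑ n ∈ S, be m ^ 2 / 4 * (be n ^ 2 / 4) *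
      (cos (2 * log m * t) * cos (2 * log n * t) * dens t) := fun t => by
    rw [DD, sq, sum_mul_sum, sum_mul]
    refine sum_congr rfl fun m _ => ?_
    rw [sum_mul]
    exact sum_congr rfl fun n _ => by ring
  simp only [e]
  have i1 : ∀ m : ℕ, Integrable fun t => ∑ n ∈ S, be m ^ 2 / 4 * (be n ^ 2 / 4) *
      (cos (2 * log m * t) * cos (2 * log n * t) * dens t) := fun m =>
    integrable_finsetSum _ fun n _ => (cc_int _ _).const_mul _
  refine ⟨integrable_finsetSum _ fun m _ => i1 m, ?_⟩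
  rw [integral_finsetSum _ fun m _ => i1 m]
  have hpos : ∀ m ∈ S, 2 ^ 2 ^ i < m := fun m hm => (mem_Ioc.1 hm).1
  have c := cnt (a := 2 ^ i) Nat.one_le_two_pow S hpos
  have s : ∑ m ∈ S, r m ≤ 8 := by
    rw [hS, pow_succ]; exact sr_scale Nat.one_le_two_pow
  have k : ∑ m ∈ S, ∑ n ∈ S, r m * (r n * if n ≤ m then (n : ℝ) / m else 0) ≤ 16 / 2 ^ i := by
    calc _ ≤ ∑ m ∈ S, r m * (2 / (2 ^ i : ℕ)) := sum_le_sum fun m _ => by
          rw [← mul_sum]; exact mul_le_mul_of_nonneg_left (c m) (r_nonneg m)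
      _ ≤ 8 * (2 / (2 ^ i : ℕ)) := by rw [← sum_mul]; gcongr
      _ = _ := by push_cast; ring
  calc _ ≤ ∑ m ∈ S, ∑ n ∈ S, (r m * (r n * if n ≤ m then (n : ℝ) / m else 0) +
        r n * (r m * if m ≤ n then (m : ℝ) / n else 0)) := by
        refine sum_le_sum fun m hm => ?_
        rw [integral_finsetSum _ fun n _ => (cc_int _ _).const_mul _]
        refine sum_le_sum fun n hn => ?_
        have a1 := (be_sq_le m).2.1
        have a2 := (be_sq_le n).2.1
        have a3 := r_nonneg m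
        have a4 := r_nonneg n
        have a5 : exp (-|2 * log m - 2 * log n| / 2) ≤ (if n ≤ m then (n : ℝ) / m else 0) +
            if m ≤ n then (m : ℝ) / n else 0 := by
          rcases le_total n m with h | h
          · rw [exp_ratio (Nat.zero_lt_of_lt (hpos n hn)) h, if_pos h]
            exact le_add_of_nonneg_right (by split_ifs <;> positivity)
          · rw [abs_sub_comm, exp_ratio (Nat.zero_lt_of_lt (hpos m hm)) h, if_pos h]
            exact le_add_of_nonneg_left (by split_ifs <;> positivity)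
        rw [integral_const_mul]
        calc _ ≤ be m ^ 2 / 4 * (be n ^ 2 / 4) * exp (-|2 * log m - 2 * log n| / 2) :=
              mul_le_mul_of_nonneg_left (int_cc (by positivity) (by positivity)) (by positivity)
          _ ≤ r m * r n * ((if n ≤ m then (n : ℝ) / m else 0) +
              if m ≤ n then (m : ℝ) / n else 0) := by gcongr <;> linarith
          _ = _ := by ring
    _ ≤ 16 / 2 ^ i + 16 / 2 ^ i := by
        simp only [sum_add_distrib]
        refine add_le_add k ?_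
        rw [sum_comm]; exact k
    _ = _ := by ring

theorem Ph_int (K : ℕ) : (Integrable fun t => Ph K t * dens t) ∧ ∫ t, Ph K t * dens t ≤ 100 := by
  have i1 : ∀ i, Integrable fun t => |DD i t| * dens t := fun i => by
    refine bd_int (by unfold DD; fun_prop)
      (C := ∑ m ∈ Ioc (2 ^ 2 ^ i) (2 ^ 2 ^ (i + 1)), be m ^ 2 / 4) fun t => ?_
    rw [abs_abs]
    refine (abs_sum_le_sum_abs _ _).trans (sum_le_sum fun m _ => ?_)
    rw [abs_mul, abs_of_nonneg (by positivity)]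
    exact mul_le_of_le_one_right (by positivity) (abs_cos_le_one _)
  simp only [Ph, sum_mul]
  refine ⟨integrable_finsetSum _ fun i _ => i1 i, ?_⟩
  rw [integral_finsetSum _ fun i _ => i1 i]
  have k : ∀ i, ∫ t, |DD i t| * dens t ≤ (3 / 4) ^ i + 32 * (2 / 3) ^ i := fun i => by
    obtain ⟨j1, j2⟩ := DD_sq i
    calc _ ≤ ∫ t, (3 / 4) ^ i * dens t + (4 / 3) ^ i * (DD i t ^ 2 * dens t) := by
          refine integral_mono (i1 i) ((dens_int.const_mul _).add (j1.const_mul _)) fun t => ?_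
          have e : ((3 : ℝ) / 4) ^ i * (4 / 3) ^ i = 1 := by rw [← mul_pow]; norm_num
          have p : (0 : ℝ) < (4 / 3) ^ i := by positivity
          have : |DD i t| ≤ (3 / 4) ^ i + (4 / 3) ^ i * DD i t ^ 2 := by
            refine le_of_mul_le_mul_right ?_ p
            rw [add_mul, e, ← sq_abs]
            nlinarith [sq_nonneg ((4 / 3) ^ i * |DD i t| - 1), sq_nonneg ((4 / 3) ^ i * |DD i t|)]
          simp only
          nlinarith [dens_pos t]
      _ ≤ (3 / 4) ^ i + (4 / 3) ^ i * (32 / 2 ^ i) := by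
          rw [integral_add (dens_int.const_mul _) (j1.const_mul _), integral_const_mul,
            integral_const_mul, int_dens, mul_one]
          gcongr
      _ = _ := by
          rw [show (2 : ℝ) / 3 = 4 / 3 / 2 by norm_num, div_pow (4 / 3 : ℝ)]; ring
  have g : ∀ K : ℕ, ∑ i ∈ range K, (((3 : ℝ) / 4) ^ i + 32 * (2 / 3) ^ i) =
      100 - 4 * (3 / 4) ^ K - 96 * (2 / 3) ^ K := fun K => by
    induction K with
    | zero => norm_num
    | succ K ih => rw [sum_range_succ, ih]; ring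
  refine (sum_le_sum fun i _ => k i).trans ?_
  rw [g]
  linarith [pow_pos (show (0 : ℝ) < 3 / 4 by norm_num) K, pow_pos (show (0 : ℝ) < 2 / 3 by norm_num) K]

theorem lg_int : Integrable fun t => log (1 + t ^ 2) * dens t := by
  have h := (integrable_rpow_neg_one_add_norm_sq (E := ℝ) (μ := volume) (r := 3 / 2)
    (by norm_num)).const_mul 4
  refine h.mono' ((Measurable.aestronglyMeasurable (by fun_prop)).mul dens_int.1)
    (ae_of_all _ fun t => ?_)
  have h0 : 0 < 1 + t ^ 2 := by positivity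
  have h1 := log_le_rpow_div h0.le (show (0 : ℝ) < 1 / 4 by norm_num)
  have h2 : dens t ≤ (1 + t ^ 2) ^ (-1 : ℝ) := by
    rw [rpow_neg_one, dens, ker, ← mul_inv]
    exact inv_anti₀ h0 (by nlinarith [pi_gt_three, sq_nonneg t])
  rw [norm_eq_abs, norm_eq_abs, sq_abs, abs_of_nonneg
    (mul_nonneg (log_nonneg (by nlinarith [sq_nonneg t])) (dens_pos t).le)]
  calc _ ≤ (1 + t ^ 2) ^ (1 / 4 : ℝ) / (1 / 4) * (1 + t ^ 2) ^ (-1 : ℝ) :=
        mul_le_mul h1 h2 (dens_pos t).le (by positivity)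
    _ = 4 * ((1 + t ^ 2) ^ (1 / 4 : ℝ) * (1 + t ^ 2) ^ (-1 : ℝ)) := by ring
    _ = _ := by rw [← rpow_add h0]; norm_num

end

end Pool.Agent.Lib.RM67.T96
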