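import Pool.Agent.Lib.RM67.B_MASS2

/-! Project rm67, block MASS, part 3: the ballot estimate under the tilt. -/

namespace Pool.Agent.Lib.RM67.T96

open Finset Real MeasureTheory Filter Topology

noncomputable section

/-- The centred walk. -/
def WW : List Bool → ℝ → ℝ
  | [], _ => 0
  | b :: l, t => WW l t + (sg b * bb l.length t - bb l.length t ^ 2)

/-- Its variance under the tilt. -/
def VV (n : ℕ) (t : ℝ) : ℝ := ∑ m ∈ range n, (bb m t ^ 2 - bb m t ^ 4)

/-- The ballot supermartingale. -/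
def QB (lam K t : ℝ) (l : List Bool) : ℝ :=
  R l t * (K - exp (lam * WW l t) / (1 + lam ^ 2 * VV l.length t / 4))

/-- The barrier. -/
def bar (J : ℕ) (Λ : ℝ) (l : List Bool) : Prop :=
  ∀ k ≤ J, l.length ≤ 2 ^ 2 ^ k → ∀ t, R l t ≤ Λ * 2 ^ k * (1 + t ^ 2)

theorem bb_sq_le (n : ℕ) (t : ℝ) : bb n t ^ 2 ≤ 8 / 9 := by
  rw [← sq_abs]
  exact (pow_le_pow_left₀ (abs_nonneg _) (abs_bb n t) 2).trans (be_sq_le n).1

theorem VV_ge (n : ℕ) (t : ℝ) : 2 / 9 * AA n t ≤ VV n t := by
  rw [AA, mul_sum]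
  refine sum_le_sum fun m _ => ?_
  nlinarith [bb_sq_le m t, sq_nonneg (bb m t)]

theorem VV_nonneg (n : ℕ) (t : ℝ) : 0 ≤ VV n t := by linarith [VV_ge n t, AA_nonneg n t]

theorem cub : ∃ C, 0 ≤ C ∧ ∀ n t, ∑ m ∈ range n, |bb m t| ^ 3 ≤ C := by
  have hs : Summable fun m : ℕ => 8 * (m : ℝ) ^ (-3 / 2 : ℝ) :=
    (summable_nat_rpow.2 (by norm_num)).mul_left 8
  refine ⟨_, tsum_nonneg fun m => ?_, fun n t => (sum_le_sum fun m _ => ?_).trans
    (hs.sum_le_tsum _ fun m _ => by positivity)⟩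
  · positivity
  have h0 : (0 : ℝ) ≤ m := m.cast_nonneg
  have h1 : |bb m t| ≤ 2 * (m : ℝ) ^ (-1 / 2 : ℝ) := by
    refine (abs_bb m t).trans (abs_le_of_sq_le_sq' ?_ (by positivity)).2
    rw [mul_pow, ← rpow_natCast (_ ^ (_ : ℝ)), ← rpow_mul h0,
      show (-1 / 2 : ℝ) * (2 : ℕ) = -1 by norm_num, rpow_neg_one, ← one_div]
    linarith [(be_sq_le m).2.1, r_le_inv m]
  refine (pow_le_pow_left₀ (abs_nonneg _) h1 3).trans_eq ?_
  rw [mul_pow, ← rpow_natCast (_ ^ (_ : ℝ)), ← rpow_mul h0]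
  norm_num

theorem log_ge {x : ℝ} (hx : |x| ≤ 17 / 18) : x - x ^ 2 / 2 - 18 * |x| ^ 3 ≤ log (1 + x) := by
  have h := (abs_le.1 (abs_log_sub_add_sum_range_le (x := -x) (by rw [abs_neg]; linarith) 2)).1
  have h2 : |x| ^ 3 / (1 - |x|) ≤ 18 * |x| ^ 3 := by
    rw [div_le_iff₀ (by linarith)]
    nlinarith [pow_nonneg (abs_nonneg x) 3]
  simp only [sum_range_succ, sum_range_zero, abs_neg, sub_neg_eq_add] at h
  norm_num at h
  linarith

theorem log_R (t : ℝ) : ∀ l, WW l t + AA l.length t - 18 * ∑ m ∈ range l.length, |bb m t| ^ 3 ≤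
    log (R l t)
  | [] => by simp [WW, AA, R]
  | b :: l => by
    have h1 := log_R t l
    have h2 := log_ge (abs_sb b l.length t)
    have h3 : (sg b * bb l.length t) ^ 2 = bb l.length t ^ 2 := by cases b <;> simp
    rw [h3, abs_mul, abs_sg, one_mul] at h2
    rw [R, log_mul (R_pos t l).ne' (by linarith [fac_ge b l.length t]), WW, List.length_cons, AA,
      sum_range_succ, sum_range_succ]
    unfold AA at h1
    linarith

theorem W_le {J : ℕ} {Λ C : ℝ} (hΛ : 0 < Λ) (hC : ∀ n t, ∑ m ∈ range n, |bb m t| ^ 3 ≤ C)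
    {l : List Bool} (h : bar J Λ l) (t : ℝ) : ∀ k ≤ J, l.length ≤ 2 ^ 2 ^ k →
      WW l t ≤ log Λ + log (1 + t ^ 2) + Ph J t + (34 + 18 * C) := by
  have key : ∀ k ≤ J, l.length ≤ 2 ^ 2 ^ k →
      WW l t + AA l.length t ≤ log Λ + k * log 2 + log (1 + t ^ 2) + 18 * C := fun k hk hl => by
    have h1 := log_le_log (R_pos t l) (h k hk hl t)
    rw [log_mul (by positivity) (by positivity), log_mul hΛ.ne' (by positivity), log_pow] at h1
    linarith [log_R t l, hC l.length t]
  intro k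
  induction k with
  | zero =>
    intro hk hl
    have := key 0 hk hl
    simp only [Nat.cast_zero, zero_mul] at this
    linarith [AA_nonneg l.length t, Ph_nonneg J t]
  | succ k ih =>
    intro hk hl
    by_cases h1 : l.length ≤ 2 ^ 2 ^ k
    · exact ih (by omega) h1
    · have h2 := key _ hk hl
      have h3 := AA_ge (K := J) (k := k) (by omega) (not_le.1 h1) t
      push_cast at h2
      linarith [log_two_lt_d9]

theorem exp_ge {y : ℝ} (h : |y| ≤ 1) : 1 + y + y ^ 2 / 4 ≤ exp y := by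
  have h1 := (abs_le.1 (exp_bound h (n := 3) (by norm_num))).1
  simp only [sum_range_succ, sum_range_zero, Nat.factorial] at h1
  have h2 : |y| ^ 3 ≤ y ^ 2 := by
    rw [← sq_abs]; exact pow_le_pow_of_le_one (abs_nonneg y) h (by norm_num)
  norm_num at h1
  linarith [sq_nonneg y]

theorem abs_xi (b : Bool) (n : ℕ) (t : ℝ) : |sg b * bb n t - bb n t ^ 2| ≤ 2 := by
  have h1 := abs_le.1 (abs_sb b n t)
  rw [abs_le]
  constructor <;> linarith [bb_sq_le n t, sq_nonneg (bb n t)]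

theorem QB_step {lam : ℝ} (h0 : 0 ≤ lam) (h1 : lam ≤ 1 / 2) (K t : ℝ) (l : List Bool) :
    (QB lam K t (true :: l) + QB lam K t (false :: l)) / 2 ≤ QB lam K t l := by
  have k : ∀ b, |lam * (sg b * bb l.length t - bb l.length t ^ 2)| ≤ 1 := fun b => by
    rw [abs_mul, abs_of_nonneg h0]
    nlinarith [abs_xi b l.length t, abs_nonneg (sg b * bb l.length t - bb l.length t ^ 2)]
  have e1 := mul_le_mul_of_nonneg_left (exp_ge (k true)) (by linarith [fac_ge true l.length t] :
    0 ≤ 1 + sg true * bb l.length t)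
  have e2 := mul_le_mul_of_nonneg_left (exp_ge (k false)) (by linarith [fac_ge false l.length t] :
    0 ≤ 1 + sg false * bb l.length t)
  have v0 := VV_nonneg l.length t
  have b0 := bb_sq_le l.length t
  simp only [QB, R, WW, List.length_cons, VV, sum_range_succ, mul_add lam, exp_add, sg_true,
    sg_false] at e1 e2 v0 ⊢
  have r0 := mul_pos (R_pos t l) (exp_pos (lam * WW l t))
  clear k
  generalize bb l.length t = b at *
  generalize ∑ m ∈ range l.length, (bb m t ^ 2 - bb m t ^ 4) = V at *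
  generalize exp (lam * WW l t) = E at *
  generalize exp (lam * (1 * b - b ^ 2)) = e at *
  generalize exp (lam * (-1 * b - b ^ 2)) = f at *
  have v1 : 0 ≤ b ^ 2 - b ^ 4 := by nlinarith [sq_nonneg b]
  have m : 1 + lam ^ 2 * (b ^ 2 - b ^ 4) / 4 ≤ ((1 + 1 * b) * e + (1 + -1 * b) * f) / 2 := by
    linarith
  have m2 : 1 / (1 + lam ^ 2 * V / 4) ≤
      ((1 + 1 * b) * e + (1 + -1 * b) * f) / 2 / (1 + lam ^ 2 * (V + (b ^ 2 - b ^ 4)) / 4) := by
    refine le_trans ?_ (div_le_div_of_nonneg_right m (by positivity))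
    rw [div_le_div_iff₀ (by positivity) (by positivity)]
    linarith [mul_nonneg (mul_nonneg (sq_nonneg lam) v1) (mul_nonneg (sq_nonneg lam) v0)]
  have m3 := mul_le_mul_of_nonneg_left m2 r0.le
  calc _ = R l t * K - R l t * E * (((1 + 1 * b) * e + (1 + -1 * b) * f) / 2 /
        (1 + lam ^ 2 * (V + (b ^ 2 - b ^ 4)) / 4)) := by ring
    _ ≤ R l t * K - R l t * E * (1 / (1 + lam ^ 2 * V / 4)) := by linarith
    _ = _ := by ring

theorem ballot (n : ℕ) (P : List Bool → Prop) (t : ℝ) {a lam : ℝ} (ha : 0 ≤ a) (h0 : 0 ≤ lam)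
    (h1 : lam ≤ 1 / 2) (hP : ∀ l, l.length ≤ n → P l → WW l t ≤ a) (hV : 18 ≤ lam ^ 2 * AA n t) :
    av n (fun l => ind (Al P l) * R l t) ≤ 2 * lam * (a + 2) := by
  set K := exp (lam * (a + 2)) with hK
  have K0 : 0 < K := exp_pos _
  have K1 : 1 ≤ K := one_le_exp (by positivity)
  have s1 := av_sup0 n (fun l => ind (Al P l) * QB lam K t l) fun l hl =>
    kill fun hp => ⟨QB_step h0 h1 K t l, fun b => by
      refine mul_nonneg (R_pos t _).le (sub_nonneg.2 ((div_le_self (exp_pos _).le ?_).trans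
        (exp_le_exp.2 (mul_le_mul_of_nonneg_left ?_ h0))))
      · have := VV_nonneg (b :: l).length t
        linarith [mul_nonneg (sq_nonneg lam) this]
      · rw [WW]
        linarith [hP l hl.le hp, (abs_le.1 (abs_xi b l.length t)).2]⟩
  have s2 : ind (Al P []) * QB lam K t [] ≤ K - 1 := by
    have : QB lam K t [] = K - 1 := by simp [QB, R, WW, VV]
    rw [this]
    exact mul_le_of_le_one_left (by linarith) (ind_le _)
  have s3 : av n (fun l => K / 2 * (ind (Al P l) * R l t)) ≤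
      av n fun l => ind (Al P l) * QB lam K t l := by
    refine av_mono fun l hl => ?_
    by_cases h : Al P l
    · rw [ind_pos h, one_mul, one_mul, QB, mul_comm, hl]
      refine mul_le_mul_of_nonneg_left ?_ (R_pos t l).le
      have h2 : exp (lam * WW l t) ≤ K :=
        exp_le_exp.2 (mul_le_mul_of_nonneg_left (by linarith [hP l hl.le h.self]) h0)
      have h3 : 2 ≤ 1 + lam ^ 2 * VV n t / 4 := by
        linarith [mul_le_mul_of_nonneg_left (VV_ge n t) (sq_nonneg lam)]
      have h4 : exp (lam * WW l t) / (1 + lam ^ 2 * VV n t / 4) ≤ K / 2 := by gcongr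
      linarith
    · simp [ind_neg h]
  rw [av_mul] at s3
  have s4 : K - 1 ≤ K * (lam * (a + 2)) := by
    have h2 := add_one_le_exp (-(lam * (a + 2)))
    have h3 : K * exp (-(lam * (a + 2))) = 1 := by rw [hK, ← exp_add]; simp
    nlinarith
  refine le_of_mul_le_mul_left ((s3.trans (s1.trans (s2.trans s4))).trans_eq (by ring))
    (half_pos K0)

theorem av_R (n : ℕ) (t : ℝ) : av n (fun l => R l t) ≤ 1 :=
  av_sup0 n (fun l => R l t) fun l _ => by simp only [R, sg_true, sg_false]; linarith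

/-- The mean mass on the barrier event. -/
theorem mass : ∃ C, 0 ≤ C ∧ ∀ (l : ℕ) (Λ : ℝ), 5 ≤ l → 1 ≤ Λ →
    av (2 ^ 2 ^ 4 ^ l) (fun s => ind (Al (bar (4 ^ l) Λ) s) * NN s) ≤ (12 * log Λ + C) / 2 ^ l := by
  obtain ⟨C, C0, hC⟩ := cub
  have g0 : 0 ≤ ∫ t, log (1 + t ^ 2) * dens t := integral_nonneg fun t =>
    mul_nonneg (log_nonneg (by nlinarith [sq_nonneg t])) (dens_pos t).le
  refine ⟨12 * ((∫ t, log (1 + t ^ 2) * dens t) + (36 + 18 * C)) + 2200, by positivity,
    fun l Λ hl hΛ => ?_⟩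
  have p2 : (32 : ℝ) ≤ 2 ^ l := le_trans (by norm_num) (pow_le_pow_right₀ one_le_two hl)
  have p4 : ((4 ^ l : ℕ) : ℝ) = 2 ^ l * 2 ^ l := by rw [← mul_pow]; norm_num
  have lΛ := log_nonneg hΛ
  have k : ∀ t, av (2 ^ 2 ^ 4 ^ l) (fun s => ind (Al (bar (4 ^ l) Λ) s) * R s t) ≤
      12 / 2 ^ l * (log Λ + (36 + 18 * C)) + 12 / 2 ^ l * log (1 + t ^ 2) +
        22 / 2 ^ l * Ph (4 ^ l) t := fun t => by
    have q0 := Ph_nonneg (4 ^ l) t
    have q1 : 0 ≤ log (1 + t ^ 2) := log_nonneg (by nlinarith [sq_nonneg t])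
    by_cases hp : Ph (4 ^ l) t ≤ 2 ^ l / 10
    · have hJ : 1 ≤ 4 ^ l := Nat.one_le_pow _ _ (by norm_num)
      have a1 := AA_ge (k := 4 ^ l - 1) (K := 4 ^ l) (n := 2 ^ 2 ^ 4 ^ l) (by omega)
        (Nat.pow_lt_pow_right one_lt_two (Nat.pow_lt_pow_right one_lt_two (by omega))) t
      rw [Nat.cast_sub hJ, p4, Nat.cast_one] at a1
      refine (ballot _ _ t (a := log Λ + log (1 + t ^ 2) + Ph (4 ^ l) t + (34 + 18 * C))
        (lam := 6 / 2 ^ l) (by positivity) (by positivity) ?_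
        (fun s hs h => W_le (by linarith) hC h t _ le_rfl hs) ?_).trans ?_
      · rw [div_le_iff₀ (by positivity)]; linarith
      · rw [div_pow, div_mul_eq_mul_div, le_div_iff₀ (by positivity)]
        nlinarith [log_two_gt_d9, mul_le_mul p2 p2 (by norm_num) (by positivity)]
      · have : 0 ≤ 10 / 2 ^ l * Ph (4 ^ l) t := by positivity
        refine le_trans (le_add_of_nonneg_right this) (le_of_eq (by ring))
    · have a1 : av (2 ^ 2 ^ 4 ^ l) (fun s => ind (Al (bar (4 ^ l) Λ) s) * R s t) ≤ 1 :=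
        (av_mono fun s _ => mul_le_of_le_one_left (R_pos t s).le (ind_le _)).trans (av_R _ t)
      have a2 : 1 ≤ 22 / 2 ^ l * Ph (4 ^ l) t := by
        rw [div_mul_eq_mul_div, le_div_iff₀ (by positivity)]; linarith
      exact a1.trans (a2.trans (le_add_of_nonneg_left (by positivity)))
  obtain ⟨i1, i2⟩ := av_int (n := 2 ^ 2 ^ 4 ^ l)
    (fun s t => ind (Al (bar (4 ^ l) Λ) s) * (R s t * dens t)) fun s => (R_int s).const_mul _
  obtain ⟨j1, j2⟩ := Ph_int (4 ^ l)
  simp only [integral_const_mul] at i2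
  calc _ = _ := i2
    _ ≤ ∫ t, (12 / 2 ^ l * (log Λ + (36 + 18 * C)) * dens t +
        12 / 2 ^ l * (log (1 + t ^ 2) * dens t) + 22 / 2 ^ l * (Ph (4 ^ l) t * dens t)) := by
        refine integral_mono i1 (((dens_int.const_mul _).add (lg_int.const_mul _)).add
          (j1.const_mul _)) fun t => ?_
        have e : (fun s => ind (Al (bar (4 ^ l) Λ) s) * (R s t * dens t)) =
            fun s => dens t * (ind (Al (bar (4 ^ l) Λ) s) * R s t) := by funext s; ring
        simp only [e, av_mul]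
        exact (mul_le_mul_of_nonneg_left (k t) (dens_pos t).le).trans_eq (by ring)
    _ ≤ 12 / 2 ^ l * (log Λ + (36 + 18 * C)) + 12 / 2 ^ l * (∫ t, log (1 + t ^ 2) * dens t) +
        22 / 2 ^ l * 100 := by
        have j3 : Integrable fun t => 12 / 2 ^ l * (log Λ + (36 + 18 * C)) * dens t +
            12 / 2 ^ l * (log (1 + t ^ 2) * dens t) :=
          (dens_int.const_mul _).add (lg_int.const_mul _)
        rw [integral_add j3 (j1.const_mul _), integral_add (dens_int.const_mul _)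
          (lg_int.const_mul _), integral_const_mul, integral_const_mul, integral_const_mul,
          int_dens, mul_one]
        gcongr
    _ = _ := by ring

end

end Pool.Agent.Lib.RM67.T96
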