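import Pool.Agent.Lib.RM67.Planch

/-! Project rm67: statements of two blocks. -/

namespace Pool.Agent.Lib.RM67

open Filter MeasureTheory

/-- The total mass is small on every block. -/
def St_MASS : Prop := ∀ (Ω : Type) [MeasurableSpace Ω] (μ : Measure Ω) [IsProbabilityMeasure μ]
  (Y : Ω → ℕ → Bool), Fair μ Y → ∀ ε : ℝ, 0 < ε → ∀ᵐ ω ∂μ, ∀ᶠ l : ℕ in atTop, ∀ n : ℕ,
    2 ^ 2 ^ 4 ^ l ≤ n → n ≤ 2 ^ 2 ^ 4 ^ (l + 2) → NN (L (Y ω) n) ≤ (l : ℝ) ^ (1 + ε) / 2 ^ l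

/-- The small scales do not matter. -/
def St_TAIL : Prop := ∀ (Ω : Type) [MeasurableSpace Ω] (μ : Measure Ω) [IsProbabilityMeasure μ]
  (Y : Ω → ℕ → Bool), Fair μ Y → ∀ᵐ ω ∂μ, ∀ᶠ j : ℕ in atTop, ∀ k : ℕ, 1 ≤ k →
    k + Nat.log 2 (Nat.log 2 j) + 7 ≤ j →
      nrm (2 ^ 2 ^ (j + 1)) (fun z => if 2 ^ 2 ^ (j - 1) ≤ z then
        Gm (2 ^ 2 ^ k) z (L (Y ω) (2 ^ 2 ^ (k + 1))) else 0) ≤ 2 ^ k / (j : ℝ) ^ 2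

end Pool.Agent.Lib.RM67
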