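import Pool.Agent.Lib.RM67.Events
import Pool.Agent.Lib.RM67.Blue

/-! Project rm67: the small scales. -/

namespace Pool.Agent.Lib.RM67

open Finset Real Filter MeasureTheory

noncomputable section

theorem av_sq (n : ℕ) : ∀ z, av n (fun l => Psi l z ^ 2) ≤ T (fun _ => 1) n z := by
  induction n with
  | zero =>
    intro z
    simp only [av, Psi, T_zero]
    split_ifs <;> norm_num
  | succ n ih =>
    intro z
    rw [T_succ, one_mul]
    refine le_trans (av_mono (n := n) (G := fun l => Psi l z ^ 2 + Psi l (z / d n) ^ 2)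
      fun l hl => le_of_eq ?_) ((av_add _ _ _).trans_le (add_le_add (ih _) (ih _)))
    simp only [Psi, hl, sg_true, sg_false]
    ring

theorem doob1 (n k z : ℕ) : av (n + k) (Gm n z) ≤ 4 * T (fun _ => 1) (n + k) z := by
  let u : List Bool → ℝ := fun t => 2 * Gm n z t - 4 * |Psi t z| * √(Gm n z t)
  have hs : ∀ t, √(Gm n z t) ^ 2 = Gm n z t := fun t => sq_sqrt (Gm_nonneg _ _ _)
  have h1 : av (n + k) u ≤ av n u := by
    refine av_sup n k u fun t hl _ => ?_
    have a : ∀ b, u (b :: t) ≤ 2 * Gm n z t - 4 * |Psi (b :: t) z| * √(Gm n z t) := by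
      intro b
      simp only [u, Gm, if_neg (not_lt.2 hl)]
      rcases le_total (Gm n z t) (Psi (b :: t) z ^ 2) with h | h
      · rw [max_eq_right h, sqrt_sq_eq_abs]
        nlinarith [sq_nonneg (|Psi (b :: t) z| - √(Gm n z t)), hs t, sq_abs (Psi (b :: t) z)]
      · rw [max_eq_left h]
    have c : 2 * |Psi t z| ≤ |Psi (true :: t) z| + |Psi (false :: t) z| := by
      refine le_trans (le_of_eq ?_) (abs_add_le _ _)
      simp only [Psi, sg_true, sg_false]
      rw [← abs_two, ← abs_mul]; congr 1; ring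
    have := mul_le_mul_of_nonneg_right c (sqrt_nonneg (Gm n z t))
    have a1 := a true
    have a2 := a false
    change _ ≤ 2 * Gm n z t - 4 * |Psi t z| * √(Gm n z t)
    linarith
  have h2 : av n u ≤ 0 := av_le fun l hl => by
    subst hl
    simp only [u, Gm_start, sqrt_sq_eq_abs]
    nlinarith [sq_abs (Psi l z), sq_nonneg (Psi l z)]
  have h4 : av (n + k) (Gm n z) ≤ av (n + k) fun t => 4 * Psi t z ^ 2 + u t :=
    av_mono fun t _ => by
      simp only [u]
      nlinarith [sq_nonneg (√(Gm n z t) - 2 * |Psi t z|), hs t, sq_abs (Psi t z)]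
  rw [av_add, av_mul] at h4
  linarith [av_sq (n + k) z]

theorem T_nonneg (n z : ℕ) : 0 ≤ T (fun _ => 1) n z :=
  sum_nonneg fun m _ => by unfold tm; split_ifs <;> simp

theorem nrm_T : ∃ C : ℝ, 0 ≤ C ∧ ∀ δ : ℝ, 0 ≤ δ → δ ≤ 1 / 2 → ∀ Z n,
    nrm Z (fun z => ((z : ℝ) + 1) ^ δ * T (fun _ => 1) n z) ≤
      C * exp (∑ m ∈ range n, r m * (m : ℝ) ^ δ) := by
  have hs : Summable fun z : ℕ => 1 / (z : ℝ) ^ (3 / 2 : ℝ) :=
    summable_one_div_nat_rpow.2 (by norm_num)
  refine ⟨∑' z : ℕ, 1 / (z : ℝ) ^ (3 / 2 : ℝ), tsum_nonneg fun z => by positivity,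
    fun δ h0 h1 Z n => ?_⟩
  induction n with
  | zero =>
    rw [sum_range_zero, exp_zero, mul_one]
    refine (sum_le_sum fun z _ => ?_).trans (hs.sum_le_tsum _ fun z _ => by positivity)
    beta_reduce
    rw [T_zero]
    split_ifs with hz
    · have hz' : (1 : ℝ) ≤ z := by exact_mod_cast hz
      have a : ((z : ℝ) + 1) ^ δ * (z : ℝ) ^ (1 / 2 : ℝ) ≤ z + 1 := by
        refine (mul_le_mul (rpow_le_rpow_of_exponent_le (by linarith) h1)
          (rpow_le_rpow (by linarith) (le_add_of_nonneg_right zero_le_one) (by norm_num))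
          (by positivity) (by positivity)).trans_eq ?_
        rw [← rpow_add (by linarith)]; norm_num
      rw [mul_one, w, show (3 / 2 : ℝ) = 1 + 1 / 2 by norm_num, rpow_add (by linarith), rpow_one,
        div_mul_eq_mul_div, div_le_div_iff₀ (by positivity) (by positivity)]
      nlinarith
    · rw [mul_zero, mul_zero]; positivity
  | succ n ih =>
    have h2 := nrm_div (g := fun z => ((z : ℝ) + 1) ^ δ * T (fun _ => 1) n z)
      (fun z => mul_nonneg (by positivity) (T_nonneg _ _)) (by simp [T]) Z n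
    have h3 : nrm Z (fun z => ((z : ℝ) + 1) ^ δ * T (fun _ => 1) (n + 1) z) ≤
        nrm Z (fun z => ((z : ℝ) + 1) ^ δ * T (fun _ => 1) n z) + (n : ℝ) ^ δ *
        nrm Z fun z => (((z / d n : ℕ) : ℝ) + 1) ^ δ * T (fun _ => 1) n (z / d n) := by
      simp only [nrm, T_succ, one_mul, mul_add, sum_add_distrib, mul_sum]
      refine add_le_add le_rfl (sum_le_sum fun z _ => ?_)
      rw [mul_left_comm ((n : ℝ) ^ δ), ← mul_assoc ((n : ℝ) ^ δ)]
      refine mul_le_mul_of_nonneg_left ?_ (w_nonneg z)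
      unfold d
      split_ifs with hp
      · rw [← mul_rpow (by positivity) (by positivity)]
        refine mul_le_mul_of_nonneg_right (rpow_le_rpow (by positivity) ?_ h0) (T_nonneg _ _)
        exact_mod_cast Nat.lt_mul_div_succ z hp.pos
      · simp [T]
    have h4 := add_one_le_exp (r n * (n : ℝ) ^ δ)
    have h5 : 0 ≤ nrm Z fun z => ((z : ℝ) + 1) ^ δ * T (fun _ => 1) n z :=
      sum_nonneg fun z _ => mul_nonneg (w_nonneg z) (mul_nonneg (by positivity) (T_nonneg _ _))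
    rw [sum_range_succ, exp_add, ← mul_assoc]
    have h6 := mul_le_mul_of_nonneg_left h2 (show 0 ≤ (n : ℝ) ^ δ by positivity)
    have h7 := mul_le_mul ih h4 (by have := r_nonneg n; positivity) (h5.trans ih)
    linarith

theorem exp_rd (k : ℕ) : exp (∑ m ∈ range (2 ^ 2 ^ (k + 1)),
    r m * (m : ℝ) ^ ((2 : ℝ) ^ (k + 1))⁻¹) ≤ exp 22 * 2 ^ (k + 1) := by
  have h2 : (2 : ℝ) ≤ 2 ^ (k + 1) := two_le_pow (by omega)
  have h1 := sr_le (a := 2 ^ (k + 1)) (le_self_pow₀ one_le_two (by omega))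
  have h3 := srl_le (2 ^ (k + 1))
  push_cast at h1 h3
  have h4 : ∑ m ∈ range (2 ^ 2 ^ (k + 1)), r m * (m : ℝ) ^ ((2 : ℝ) ^ (k + 1))⁻¹ ≤
      ∑ m ∈ range (2 ^ 2 ^ (k + 1)), (r m + 2 * (2 ^ (k + 1))⁻¹ * (r m * log m)) := by
    refine sum_le_sum fun m hm => ?_
    rcases m.eq_zero_or_pos with rfl | h0
    · simp [r, d]
    have a := log_le_of_lt (mem_range.1 hm)
    push_cast at a
    have b : 0 ≤ log m * ((2 : ℝ) ^ (k + 1))⁻¹ := mul_nonneg (log_natCast_nonneg m) (by positivity)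
    have c := (abs_le.1 (abs_exp_sub_one_le (x := log m * ((2 : ℝ) ^ (k + 1))⁻¹) (by
      rw [abs_of_nonneg b, ← div_eq_mul_inv]; exact (div_le_one (by positivity)).2 a))).2
    rw [abs_of_nonneg b] at c
    rw [rpow_def_of_pos (by positivity)]
    nlinarith [r_nonneg m]
  rw [sum_add_distrib, ← mul_sum] at h4
  have h5 : 2 * ((2 : ℝ) ^ (k + 1))⁻¹ * (2 ^ (k + 1) + 2) ≤ 4 := by
    rw [mul_right_comm, ← div_eq_mul_inv, div_le_iff₀ (by positivity)]; linarith
  have h6 := mul_le_mul_of_nonneg_left h3 (show 0 ≤ 2 * ((2 : ℝ) ^ (k + 1))⁻¹ by positivity)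
  rw [← exp_log (show (0 : ℝ) < 2 ^ (k + 1) by positivity), ← exp_add, exp_log (by positivity)]
  exact exp_le_exp.2 (by linarith)

theorem st_TAIL : St_TAIL := by
  intro Ω _ μ _ Y hY
  obtain ⟨C, hC, h⟩ := nrm_T
  have key := hY.bc (fun j => (range j).filter fun k => k + Nat.log 2 (Nat.log 2 j) + 7 ≤ j)
    (fun _ k => 2 ^ 2 ^ (k + 1))
    (fun j k l => 2 ^ k / (j : ℝ) ^ 2 < nrm (2 ^ 2 ^ (j + 1)) fun z =>
      if 2 ^ 2 ^ (j - 1) ≤ z then Gm (2 ^ 2 ^ k) z l else 0) (summable_sq (8 * C * exp 22)) ?_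
  · filter_upwards [key] with ω hω
    filter_upwards [hω] with j hj k _ hk
    exact not_lt.1 (hj k (mem_filter.2 ⟨mem_range.2 (by omega), hk⟩))
  filter_upwards [eventually_ge_atTop 1] with j hj
  have hj' : (1 : ℝ) ≤ j := by exact_mod_cast hj
  refine (sum_le_card_nsmul _ _ (8 * C * exp 22 / j ^ 3) fun k hk => ?_).trans ?_
  · have hk' := (mem_filter.1 hk).2
    refine (markov (by positivity) fun l => sum_nonneg fun z _ => mul_nonneg (w_nonneg z) ?_).trans ?_
    · split_ifs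
      exacts [Gm_nonneg _ _ _, le_rfl]
    have h2 : (2 : ℝ) ≤ 2 ^ (k + 1) := two_le_pow (by omega)
    have h3 := (h ((2 : ℝ) ^ (k + 1))⁻¹ (by positivity) (by rw [one_div]; gcongr)
      (2 ^ 2 ^ (j + 1)) _).trans (mul_le_mul_of_nonneg_left (exp_rd k) hC)
    have h4 : (j : ℝ) ^ 5 ≤ ((2 : ℝ) ^ 2 ^ (j - 1)) ^ ((2 : ℝ) ^ (k + 1))⁻¹ := by
      rw [show j - 1 = j - k - 2 + (k + 1) by omega, pow_add, pow_mul]
      have := pow_rpow_inv_natCast (x := 2 ^ 2 ^ (j - k - 2)) (by positivity) (n := 2 ^ (k + 1))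
        (by positivity)
      push_cast at this
      rw [this]
      refine (pow_le_pow_left₀ (by positivity) (lt_lg j) 5).trans ?_
      rw [← pow_mul]
      have a := Nat.lt_pow_succ_log_self one_lt_two (Nat.log 2 j)
      have b : 2 ^ (Nat.log 2 (Nat.log 2 j) + 1 + 3) ≤ 2 ^ (j - k - 2) :=
        Nat.pow_le_pow_right two_pos (by omega)
      rw [pow_add] at b
      exact pow_le_pow_right₀ one_le_two (by omega)
    have h5 : av (2 ^ 2 ^ (k + 1)) (fun l => nrm (2 ^ 2 ^ (j + 1)) fun z =>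
        if 2 ^ 2 ^ (j - 1) ≤ z then Gm (2 ^ 2 ^ k) z l else 0) ≤ 4 / j ^ 5 * nrm (2 ^ 2 ^ (j + 1))
        fun z => ((z : ℝ) + 1) ^ ((2 : ℝ) ^ (k + 1))⁻¹ * T (fun _ => 1) (2 ^ 2 ^ (k + 1)) z := by
      unfold nrm
      rw [av_sum, mul_sum]
      refine sum_le_sum fun z _ => ?_
      rw [av_mul, mul_left_comm]
      refine mul_le_mul_of_nonneg_left ?_ (w_nonneg z)
      have t0 := T_nonneg (2 ^ 2 ^ (k + 1)) z
      by_cases hz : 2 ^ 2 ^ (j - 1) ≤ z <;> simp only [hz, if_true, if_false]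
      · have a := doob1 (2 ^ 2 ^ k) (2 ^ 2 ^ (k + 1) - 2 ^ 2 ^ k) z
        rw [Nat.add_sub_cancel' (by gcongr <;> omega)] at a
        have b : (j : ℝ) ^ 5 ≤ ((z : ℝ) + 1) ^ ((2 : ℝ) ^ (k + 1))⁻¹ :=
          h4.trans (rpow_le_rpow (by positivity) (by exact_mod_cast hz.trans z.le_succ)
            (by positivity))
        refine a.trans ?_
        rw [← mul_assoc]
        refine mul_le_mul_of_nonneg_right ?_ t0
        rw [div_mul_eq_mul_div, le_div_iff₀ (by positivity)]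
        linarith
      · rw [av_const]; positivity
    rw [div_le_iff₀ (by positivity)]
    refine (h5.trans (mul_le_mul_of_nonneg_left h3 (by positivity))).trans_eq ?_
    field_simp; ring
  · have : (((range j).filter fun k => k + Nat.log 2 (Nat.log 2 j) + 7 ≤ j).card : ℝ) ≤ j := by
      exact_mod_cast (card_filter_le _ _).trans_eq (card_range j)
    rw [nsmul_eq_mul]
    refine (mul_le_mul_of_nonneg_right this (by positivity)).trans_eq ?_
    field_simp

end

end Pool.Agent.Lib.RM67
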