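import Mathlib

/-! Project rm67: the finite model of fair coin tossing. -/

namespace Pool.Agent.Lib.RM67

open Finset Filter Topology MeasureTheory ProbabilityTheory

noncomputable section

/-- The mean over all lists of `n` bits. -/
def av : ℕ → (List Bool → ℝ) → ℝ
  | 0, F => F []
  | n + 1, F => av n fun l => (F (true :: l) + F (false :: l)) / 2

/-- The indicator of a proposition. -/
def ind (P : Prop) : ℝ := open Classical in if P then 1 else 0

/-- The probability of an event at time `n`. -/
def pr (n : ℕ) (B : List Bool → Prop) : ℝ := av n fun l => ind (B l)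

/-- The property holds at all earlier times. -/
def Al (P : List Bool → Prop) : List Bool → Prop
  | [] => P []
  | b :: l => Al P l ∧ P (b :: l)

/-- The first `n` bits of a sequence, last bit first. -/
def L (s : ℕ → Bool) : ℕ → List Bool
  | 0 => []
  | n + 1 => s n :: L s n

theorem ind_pos {P : Prop} (h : P) : ind P = 1 := by simp [ind, h]
theorem ind_neg {P : Prop} (h : ¬ P) : ind P = 0 := by simp [ind, h]
theorem ind_nonneg (P : Prop) : 0 ≤ ind P := by unfold ind; split_ifs <;> norm_num
theorem ind_le (P : Prop) : ind P ≤ 1 := by unfold ind; split_ifs <;> norm_num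

theorem av_mono {n : ℕ} : ∀ {F G : List Bool → ℝ}, (∀ l, l.length = n → F l ≤ G l) →
    av n F ≤ av n G := by
  induction n with
  | zero => intro F G h; exact h [] rfl
  | succ n ih =>
    intro F G h
    refine ih fun l hl => ?_
    have h1 := h (true :: l) (by simp [hl])
    have h2 := h (false :: l) (by simp [hl])
    linarith

theorem av_add (n : ℕ) : ∀ F G : List Bool → ℝ, av n (fun l => F l + G l) = av n F + av n G := by
  induction n with
  | zero => intro F G; rfl
  | succ n ih =>
    intro F G
    simp only [av]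
    rw [← ih]
    congr 1; funext l; ring

theorem av_mul (n : ℕ) (c : ℝ) : ∀ F : List Bool → ℝ, av n (fun l => c * F l) = c * av n F := by
  induction n with
  | zero => intro F; rfl
  | succ n ih =>
    intro F
    simp only [av]
    rw [← ih]
    congr 1; funext l; ring

theorem av_div (n : ℕ) (c : ℝ) (F : List Bool → ℝ) : av n (fun l => F l / c) = av n F / c := by
  simp only [div_eq_inv_mul, av_mul]

theorem av_const (n : ℕ) (c : ℝ) : av n (fun _ => c) = c := by
  induction n with
  | zero => rfl
  | succ n ih => simpa [av] using ih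

theorem av_le {n : ℕ} {F : List Bool → ℝ} {c : ℝ} (h : ∀ l, l.length = n → F l ≤ c) :
    av n F ≤ c := (av_mono h).trans_eq (av_const n c)

theorem av_sum {ι : Type} (n : ℕ) (s : Finset ι) (F : ι → List Bool → ℝ) :
    av n (fun l => ∑ i ∈ s, F i l) = ∑ i ∈ s, av n (F i) := by
  classical
  induction s using Finset.induction_on with
  | empty => simp [av_const]
  | insert a s ha ih => simp only [sum_insert ha, av_add, ih]

theorem av_tower (n k : ℕ) : ∀ F : List Bool → ℝ,
    av (n + k) F = av n fun l => av k fun e => F (e ++ l) := by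
  induction k with
  | zero => intro F; rfl
  | succ k ih => intro F; exact ih _

theorem av_sup (n k : ℕ) (U : List Bool → ℝ) (h : ∀ l, n ≤ l.length → l.length < n + k →
    (U (true :: l) + U (false :: l)) / 2 ≤ U l) : av (n + k) U ≤ av n U := by
  induction k with
  | zero => rfl
  | succ k ih =>
    refine le_trans ?_ (ih fun l h1 h2 => h l h1 (by omega))
    exact av_mono (n := n + k) fun l hl => h l (by omega) (by omega)

theorem av_sup0 (k : ℕ) (U : List Bool → ℝ) (h : ∀ l, l.length < k →
    (U (true :: l) + U (false :: l)) / 2 ≤ U l) : av k U ≤ U [] := by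
  simpa [av] using av_sup 0 k U fun l _ h2 => h l (by omega)

theorem pr_le {n : ℕ} {B : List Bool → Prop} {F : List Bool → ℝ}
    (h : ∀ l, l.length = n → 0 ≤ F l ∧ (B l → 1 ≤ F l)) : pr n B ≤ av n F :=
  av_mono fun l hl => by
    by_cases hb : B l
    · rw [ind_pos hb]; exact (h l hl).2 hb
    · rw [ind_neg hb]; exact (h l hl).1

/-- Markov. -/
theorem markov {n : ℕ} {F : List Bool → ℝ} {c : ℝ} (hc : 0 < c) (h : ∀ l, 0 ≤ F l) :
    pr n (fun l => c < F l) ≤ av n F / c := by
  rw [← av_div]
  exact pr_le fun l _ => ⟨div_nonneg (h l) hc.le, fun hb => (one_le_div hc).2 hb.le⟩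

theorem Al.self {P : List Bool → Prop} : ∀ {l : List Bool}, Al P l → P l
  | [], h => h
  | _ :: _, h => h.2

theorem al_of {P : List Bool → Prop} : ∀ {l : List Bool},
    (∀ t, t.length ≤ l.length → P t) → Al P l
  | [], h => h [] le_rfl
  | _ :: _, h => ⟨al_of fun t ht => h t (by simp; omega), h _ le_rfl⟩

theorem Al.mono {P Q : List Bool → Prop} : ∀ {l : List Bool},
    (∀ t, t.length ≤ l.length → P t → Q t) → Al P l → Al Q l
  | [], h, a => h [] le_rfl a
  | _ :: _, h, a => ⟨Al.mono (fun t ht => h t (by simp; omega)) a.1, h _ le_rfl a.2⟩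

/-- The weak maximal inequality from time `n` on. -/
theorem doob (n k : ℕ) (Z : List Bool → ℝ) {c : ℝ} (hc : 0 < c) (h0 : ∀ l, 0 ≤ Z l)
    (h : ∀ l, n ≤ l.length → l.length < n + k → (Z (true :: l) + Z (false :: l)) / 2 ≤ Z l) :
    pr (n + k) (fun l => ¬ Al (fun t => n ≤ t.length → Z t ≤ c) l) ≤ av n Z / c := by
  classical
  set P : List Bool → Prop := fun t => n ≤ t.length → Z t ≤ c with hP
  set U : List Bool → ℝ := fun l => if Al P l then Z l / c else 1 with hU
  have k1 : ∀ l, (Al P l ∨ ¬ P l) → U l ≤ Z l / c := by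
    intro l hl
    simp only [hU]
    split_ifs with ha
    · exact le_rfl
    · have := hl.resolve_left ha
      simp only [hP, not_forall, not_le] at this
      exact (one_le_div hc).2 this.2.le
  have k2 : ∀ b l, Al P l → U (b :: l) ≤ Z (b :: l) / c := fun b l ha =>
    k1 _ ((em (P (b :: l))).imp_left fun hp => ⟨ha, hp⟩)
  rw [← av_div]
  refine (pr_le (F := U) fun l _ => ⟨?_, fun hb => by simp [hU, hb]⟩).trans
    ((av_sup n k U fun l h1 h2 => ?_).trans (av_mono fun l hl => ?_))
  · simp only [hU]
    split_ifs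
    · exact div_nonneg (h0 l) hc.le
    · norm_num
  · by_cases ha : Al P l
    · have e : U l = Z l / c := by simp [hU, ha]
      have := div_le_div_of_nonneg_right (h l h1 h2) hc.le
      have a := k2 true l ha
      have b := k2 false l ha
      rw [e]
      refine le_trans ?_ this
      rw [div_right_comm (Z (true :: l) + _), add_div (Z (true :: l))]
      linarith
    · simp [hU, Al, ha]
  · cases l with
    | nil => exact k1 _ (em _)
    | cons b l => exact k2 b l (al_of fun t ht hn => by simp at hl; omega)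

theorem kill {P : List Bool → Prop} {Q : List Bool → ℝ} {l : List Bool}
    (h : P l → (Q (true :: l) + Q (false :: l)) / 2 ≤ Q l ∧ ∀ b, 0 ≤ Q (b :: l)) :
    (ind (Al P (true :: l)) * Q (true :: l) + ind (Al P (false :: l)) * Q (false :: l)) / 2 ≤
      ind (Al P l) * Q l := by
  by_cases ha : Al P l
  · obtain ⟨h1, h2⟩ := h ha.self
    have a := mul_le_mul_of_nonneg_right (ind_le (Al P (true :: l))) (h2 true)
    have b := mul_le_mul_of_nonneg_right (ind_le (Al P (false :: l))) (h2 false)
    rw [ind_pos ha]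
    linarith
  · rw [ind_neg ha, ind_neg fun h : Al P (true :: l) => ha h.1,
      ind_neg fun h : Al P (false :: l) => ha h.1]
    simp

/-- Minkowski. -/
theorem mink {n q : ℕ} {F G : List Bool → ℝ} {a b : ℝ} (hF : ∀ l, 0 ≤ F l) (hG : ∀ l, 0 ≤ G l)
    (ha : 0 ≤ a) (hb : 0 ≤ b) (h1 : av n (fun l => F l ^ q) ≤ a ^ q)
    (h2 : av n (fun l => G l ^ q) ≤ b ^ q) : av n (fun l => (F l + G l) ^ q) ≤ (a + b) ^ q := by
  have key : ∀ a b : ℝ, 0 < a → 0 < b → av n (fun l => F l ^ q) ≤ a ^ q →
      av n (fun l => G l ^ q) ≤ b ^ q → av n (fun l => (F l + G l) ^ q) ≤ (a + b) ^ q := by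
    intro a b ha hb h1 h2
    have hs : 0 < a + b := by linarith
    have : av n (fun l => (F l + G l) ^ q) ≤ av n fun l => (a + b) ^ q *
        (a / (a + b) * (F l ^ q / a ^ q) + b / (a + b) * (G l ^ q / b ^ q)) := by
      refine av_mono fun l _ => ?_
      have := (convexOn_pow (𝕜 := ℝ) q).2 (div_nonneg (hF l) ha.le) (div_nonneg (hG l) hb.le)
        (show 0 ≤ a / (a + b) by positivity) (show 0 ≤ b / (a + b) by positivity) (by field_simp)
      simp only [smul_eq_mul, div_pow] at this
      have e : F l + G l = (a + b) * (a / (a + b) * (F l / a) + b / (a + b) * (G l / b)) := by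
        field_simp
      rw [e, mul_pow]
      exact mul_le_mul_of_nonneg_left this (by positivity)
    refine this.trans ?_
    rw [av_mul, av_add, av_mul, av_mul, av_div, av_div]
    have a1 := (div_le_one (pow_pos ha q)).2 h1
    have a2 := (div_le_one (pow_pos hb q)).2 h2
    have a3 : a / (a + b) * 1 + b / (a + b) * 1 = 1 := by field_simp
    refine mul_le_of_le_one_right (by positivity) (le_trans ?_ a3.le)
    gcongr
  have ht : Tendsto (fun δ : ℝ => (a + δ + (b + δ)) ^ q) (𝓝[>] 0) (𝓝 ((a + b) ^ q)) := by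
    have : Continuous fun δ : ℝ => (a + δ + (b + δ)) ^ q := by fun_prop
    simpa using (this.tendsto 0).mono_left nhdsWithin_le_nhds
  refine ge_of_tendsto ht ?_
  filter_upwards [self_mem_nhdsWithin] with δ hδ
  have hδ' : 0 < δ := hδ
  exact key _ _ (by linarith) (by linarith) (h1.trans (by gcongr; linarith))
    (h2.trans (by gcongr; linarith))

theorem mink_sum {ι : Type} {n q : ℕ} (s : Finset ι) {F : ι → List Bool → ℝ} {a : ι → ℝ}
    (hF : ∀ i l, 0 ≤ F i l) (ha : ∀ i, 0 ≤ a i) (h : ∀ i, av n (fun l => F i l ^ q) ≤ a i ^ q) :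
    av n (fun l => (∑ i ∈ s, F i l) ^ q) ≤ (∑ i ∈ s, a i) ^ q := by
  classical
  induction s using Finset.induction_on with
  | empty => simp [av_const]
  | insert i s hi ih =>
    simp only [sum_insert hi]
    exact mink (hF i) (fun l => sum_nonneg fun j _ => hF j l) (ha i)
      (sum_nonneg fun j _ => ha j) (h i) ih

theorem av_int {n : ℕ} : ∀ f : List Bool → ℝ → ℝ, (∀ l, Integrable (f l)) →
    Integrable (fun t => av n fun l => f l t) ∧
      av n (fun l => ∫ t, f l t) = ∫ t, av n fun l => f l t := by
  induction n with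
  | zero => intro f h; exact ⟨h [], rfl⟩
  | succ n ih =>
    intro f h
    have := ih (fun l t => (f (true :: l) t + f (false :: l) t) / 2)
      fun l => ((h _).add (h _)).div_const 2
    refine ⟨this.1, Eq.trans ?_ this.2⟩
    simp only [av, integral_div, integral_add (h _) (h _)]

@[simp] theorem L_len (s : ℕ → Bool) (n : ℕ) : (L s n).length = n := by
  induction n with
  | zero => rfl
  | succ n ih => simp [L, ih]

theorem L_drop (s : ℕ → Bool) (n k : ℕ) : (L s (n + k)).drop k = L s n := by
  induction k with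
  | zero => rfl
  | succ k ih => exact ih

theorem L_congr {s s' : ℕ → Bool} {n : ℕ} (h : ∀ i < n, s i = s' i) : L s n = L s' n := by
  induction n with
  | zero => rfl
  | succ n ih => simp only [L, h n (by omega), ih fun i hi => h i (by omega)]

theorem al_L {P : List Bool → Prop} {s : ℕ → Bool} {n : ℕ} :
    Al P (L s n) ↔ ∀ m ≤ n, P (L s m) := by
  induction n with
  | zero => simp [L, Al]
  | succ n ih =>
    simp only [L, Al, ih]
    refine ⟨fun h m hm => ?_, fun h => ⟨fun m hm => h m (by omega), h (n + 1) le_rfl⟩⟩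
    rcases hm.eq_or_lt with rfl | hm
    exacts [h.2, h.1 m (by omega)]

/-- A random sequence of bits that obeys the finite model. -/
def Fair {Ω : Type} [MeasurableSpace Ω] (μ : Measure Ω) (Y : Ω → ℕ → Bool) : Prop :=
  ∀ n B, μ.real {ω | B (L (Y ω) n)} ≤ pr n B

theorem fair_of {Ω : Type} [MeasurableSpace Ω] (μ : Measure Ω) [IsProbabilityMeasure μ]
    (Y : ℕ → Ω → Bool) (hm : ∀ n, Measurable (Y n)) (hi : iIndepFun Y μ)
    (h : ∀ n b, μ.real (Y n ⁻¹' {b}) ≤ 1 / 2) : Fair μ fun ω n => Y n ω := by
  intro n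
  induction n with
  | zero =>
    intro B
    by_cases hb : B []
    · simp [pr, av, L, hb, ind]
    · simp [pr, av, L, hb, ind]
  | succ n ih =>
    intro B
    have key : ∀ b, μ.real (Y n ⁻¹' {b} ∩ {ω | B (b :: L (fun i => Y i ω) n)}) ≤
        1 / 2 * pr n fun l => B (b :: l) := by
      intro b
      have h1 := (hi.indepFun_finset {n} (range n) (by simp) hm).measure_inter_preimage_eq_mul
        {v | v ⟨n, by simp⟩ = b}
        {v | B (b :: L (fun i => if h : i ∈ range n then v ⟨i, h⟩ else false) n)}
        (Set.toFinite _).measurableSet (Set.toFinite _).measurableSet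
      have h2 : (fun a (i : range n) => Y i a) ⁻¹'
          {v | B (b :: L (fun i => if h : i ∈ range n then v ⟨i, h⟩ else false) n)} =
          {ω | B (b :: L (fun i => Y i ω) n)} := by
        ext ω
        simp only [Set.mem_preimage, Set.mem_ofPred_eq]
        rw [L_congr (s' := fun i => Y i ω) fun i hi => by simp [hi]]
      rw [h2] at h1
      have h3 : μ.real (Y n ⁻¹' {b} ∩ {ω | B (b :: L (fun i => Y i ω) n)}) =
          μ.real (Y n ⁻¹' {b}) * μ.real {ω | B (b :: L (fun i => Y i ω) n)} := by
        rw [measureReal_def, measureReal_def, measureReal_def, ← ENNReal.toReal_mul]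
        exact congrArg _ h1
      rw [h3]
      exact mul_le_mul (h n b) (ih fun l => B (b :: l)) measureReal_nonneg (by norm_num)
    have e : pr (n + 1) B = 1 / 2 * (pr n fun l => B (true :: l)) +
        1 / 2 * pr n fun l => B (false :: l) := by
      simp only [pr, av, av_div, av_add]; ring
    rw [e]
    refine le_trans (measureReal_mono ?_) ((measureReal_union_le _ _).trans
      (add_le_add (key true) (key false)))
    intro ω hω
    simp only [Set.mem_ofPred_eq, L] at hω
    cases hb : Y n ω <;> simp [hb] <;> simpa [hb] using hω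

/-- Borel-Cantelli. -/
theorem Fair.bc {Ω : Type} [MeasurableSpace Ω] {μ : Measure Ω} [IsProbabilityMeasure μ]
    {Y : Ω → ℕ → Bool} (hY : Fair μ Y) (s : ℕ → Finset ℕ) (n : ℕ → ℕ → ℕ)
    (B : ℕ → ℕ → List Bool → Prop) {c : ℕ → ℝ} (hc : Summable c)
    (h : ∀ᶠ i in atTop, ∑ j ∈ s i, pr (n i j) (B i j) ≤ c i) :
    ∀ᵐ ω ∂μ, ∀ᶠ i in atTop, ∀ j ∈ s i, ¬ B i j (L (Y ω) (n i j)) := by
  have h1 : Summable fun i => μ.real (⋃ j ∈ s i, {ω | B i j (L (Y ω) (n i j))}) := by
    refine Summable.of_norm_bounded_eventually_nat hc ?_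
    filter_upwards [h] with i hi
    rw [Real.norm_of_nonneg measureReal_nonneg]
    exact (measureReal_biUnion_finset_le _ _).trans ((sum_le_sum fun j _ => hY _ _).trans hi)
  have h2 := ae_eventually_notMem (μ := μ)
    (s := fun i => ⋃ j ∈ s i, {ω | B i j (L (Y ω) (n i j))})
    (by simpa [measureReal_def] using h1.tsum_ofReal_ne_top)
  filter_upwards [h2] with ω hω
  filter_upwards [hω] with i hi
  simpa using hi

theorem Fair.bc1 {Ω : Type} [MeasurableSpace Ω] {μ : Measure Ω} [IsProbabilityMeasure μ]
    {Y : Ω → ℕ → Bool} (hY : Fair μ Y) (n : ℕ → ℕ) (B : ℕ → List Bool → Prop) {c : ℕ → ℝ}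
    (hc : Summable c) (h : ∀ᶠ i in atTop, pr (n i) (B i) ≤ c i) :
    ∀ᵐ ω ∂μ, ∀ᶠ i in atTop, ¬ B i (L (Y ω) (n i)) := by
  simpa using hY.bc (fun _ => {0}) (fun i _ => n i) (fun i _ => B i) hc (by simpa using h)

theorem summable_sq (C : ℝ) : Summable fun i : ℕ => C / (i : ℝ) ^ 2 := by
  simpa only [mul_one_div] using (Real.summable_one_div_nat_pow.2 one_lt_two).mul_left C

end

end Pool.Agent.Lib.RM67
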