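import Pool.Agent.Lib.RM67.Hyper
import Pool.Agent.Lib.MP_200139_nt.Harm

/-! Project rm67: the averaged variance on a set of primes. -/

namespace Pool.Agent.Lib.RM67

open Finset Real

noncomputable section

theorem primes_le {e u v : ℕ} (he : 1 ≤ e) (S : Finset ℕ)
    (hS : ∀ n ∈ S, n.Prime ∧ 2 ^ (8 * e) ≤ n ∧ u < n ∧ n ≤ v) :
    (S.card : ℝ) ≤ 6 * (((v - u) / 2 + 1 : ℕ) : ℝ) / e + 2 * 2 ^ (4 * e) := by
  classical
  have h1 : 2 ^ e < 2 ^ (8 * e) := Nat.pow_lt_pow_right one_lt_two (by omega)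
  have h2 : 2 ^ 1 ≤ 2 ^ e := Nat.pow_le_pow_right two_pos he
  have h := VPal.brun_titch Nat.prime_two (2 * (u / 2) + 1) (2 ^ e) ((v - u) / 2 + 1)
    Nat.one_le_two_pow ((range ((v - u) / 2 + 1)).filter fun k => 2 * k + (2 * (u / 2) + 1) ∈ S)
    (filter_subset _ _) fun k hk => by
      have := hS _ (mem_filter.1 hk).2
      exact ⟨this.1, by omega⟩
  have h3 : S.card ≤ ((range ((v - u) / 2 + 1)).filter
      fun k => 2 * k + (2 * (u / 2) + 1) ∈ S).card := by
    refine le_trans (card_le_card fun n hn => ?_)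
      (card_image_le (f := fun k => 2 * k + (2 * (u / 2) + 1)))
    obtain ⟨a, b, c, f⟩ := hS n hn
    have ho := a.eq_two_or_odd.resolve_left (by omega)
    have e : 2 * ((n - (2 * (u / 2) + 1)) / 2) + (2 * (u / 2) + 1) = n := by omega
    exact mem_image.2 ⟨_, mem_filter.2 ⟨mem_range.2 (by omega), by rwa [e]⟩, e⟩
  refine (Nat.cast_le.2 h3).trans (h.trans (add_le_add ?_ (le_of_eq ?_)))
  · have he' : (0 : ℝ) < e := by positivity
    have : (e : ℝ) * log 2 ≤ log (((2 ^ e : ℕ) : ℝ) + 1) := by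
      rw [← log_pow]
      exact log_le_log (by positivity) (by push_cast; linarith)
    have h4 : (2 / 3 : ℝ) * e ≤ log (((2 ^ e : ℕ) : ℝ) + 1) := by nlinarith [log_two_gt_d9]
    rw [div_le_div_iff₀ (by linarith) he']
    nlinarith [(Nat.cast_nonneg ((v - u) / 2 + 1) : (0 : ℝ) ≤ _)]
  · push_cast; rw [← pow_mul, mul_comm e]

theorem count_z {A H a c z : ℕ} (hz : 0 < z) (hc : A + H ≤ H * 2 ^ c) (ha : 8 * (c + 4) ≤ a)
    (S : Finset ℕ) (hS : ∀ n ∈ S, 2 ^ a ≤ n) :
    ∑ n ∈ S, (((Ico A (A + H)).filter fun x => x / d n = z).card : ℝ) ≤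
      300 * H * (A + H) / a * w z := by
  classical
  set S' := S.filter fun n => n.Prime ∧ A / (z + 1) < n ∧ z * n < A + H with hS'
  have hz' : (0 : ℝ) < z := by positivity
  have ha' : (32 : ℝ) ≤ a := by exact_mod_cast (by omega : 32 ≤ a)
  set m : ℝ := min H ((A + H) / z) with hm
  have h1 : ∑ n ∈ S, (((Ico A (A + H)).filter fun x => x / d n = z).card : ℝ) ≤ S'.card * m := by
    rw [hS', card_filter, Nat.cast_sum, sum_mul]
    refine sum_le_sum fun n _ => ?_
    rcases ((Ico A (A + H)).filter fun x => x / d n = z).eq_empty_or_nonempty with h | ⟨x, hx⟩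
    · rw [h]; simp only [card_empty, Nat.cast_zero]; positivity
    simp only [mem_filter, mem_Ico] at hx
    have hp : n.Prime := by
      by_contra hp
      simp only [d, hp, if_false, Nat.div_zero] at hx
      omega
    have hd : d n = n := by simp [d, hp]
    rw [hd] at hx ⊢
    have k1 : z * n ≤ x := hx.2 ▸ Nat.div_mul_le_self x n
    have k2 : x < (z + 1) * n := by rw [← hx.2, mul_comm]; exact Nat.lt_mul_div_succ x hp.pos
    rw [if_pos ⟨hp, (Nat.div_lt_iff_lt_mul z.succ_pos).2 (mul_comm n _ ▸ hx.1.1.trans_lt k2), by omega⟩,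
      Nat.cast_one, one_mul]
    refine le_min (Nat.cast_le.2 ((card_filter_le _ _).trans (by simp))) ?_
    have k3 : ((Ico A (A + H)).filter fun x => x / n = z).card ≤ n := by
      refine (card_le_card (t := Ico (z * n) (z * n + n)) fun y hy => ?_).trans (by simp)
      rw [← (mem_filter.1 hy).2, mem_Ico]
      exact ⟨Nat.div_mul_le_self y n, Nat.lt_div_mul_add hp.pos⟩
    refine (Nat.cast_le.2 k3).trans ((le_div_iff₀ hz').2 ?_)
    exact_mod_cast (by rw [mul_comm]; omega : n * z ≤ A + H)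
  refine h1.trans ?_
  have hw := w_nonneg z
  rcases S'.eq_empty_or_nonempty with h | ⟨p, hp⟩
  · rw [h]; simp only [card_empty, Nat.cast_zero, zero_mul]; positivity
  set e := a / 8 with he
  have h2 := primes_le (e := e) (u := A / (z + 1)) (v := (A + H) / z) (by omega) S' fun n hn => by
    obtain ⟨k1, k2, k3, k4⟩ := mem_filter.1 hn
    exact ⟨k2, (Nat.pow_le_pow_right two_pos (by omega)).trans (hS n k1), k3,
      (Nat.le_div_iff_mul_le hz).2 (by rw [mul_comm]; omega)⟩
  set len : ℝ := A * w z + H / z with hlen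
  have h3 : (2 : ℝ) * 2 ^ (4 * e) * a ≤ H / z := by
    obtain ⟨k1, -, -, k4⟩ := mem_filter.1 hp
    have k5 : a ≤ 2 ^ (e + 3) := by
      have := e.lt_two_pow_self
      rw [pow_add]; omega
    have k6 : z * (2 * 2 ^ (4 * e) * a) * 2 ^ c ≤ H * 2 ^ c := by
      calc z * (2 * 2 ^ (4 * e) * a) * 2 ^ c ≤ z * (2 * 2 ^ (4 * e) * 2 ^ (e + 3)) * 2 ^ c := by
            gcongr
        _ = z * 2 ^ (5 * e + 4 + c) := by ring
        _ ≤ z * 2 ^ a := Nat.mul_le_mul_left _ (Nat.pow_le_pow_right two_pos (by omega))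
        _ ≤ z * p := Nat.mul_le_mul_left _ (hS p k1)
        _ ≤ H * 2 ^ c := by omega
    rw [le_div_iff₀ hz', mul_comm]
    exact_mod_cast Nat.le_of_mul_le_mul_right k6 (by positivity)
  have h4 : H / z ≤ len := le_add_of_nonneg_left (by positivity)
  have h5 : (1 : ℝ) ≤ 2 ^ (4 * e) := one_le_pow₀ one_le_two
  have h6 : ((((A + H) / z - A / (z + 1)) / 2 + 1 : ℕ) : ℝ) ≤ len := by
    have k1 : A / (z + 1) ≤ (A + H) / z := Nat.div_le_div (by omega) (by omega) hz.ne'
    have k2 : (((A + H) / z : ℕ) : ℝ) ≤ (A + H) / z := by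
      simpa using Nat.cast_div_le (α := ℝ) (m := A + H) (n := z)
    have k3 : (A : ℝ) / (z + 1) ≤ (A / (z + 1) : ℕ) + 1 := by
      rw [div_le_iff₀ (by positivity)]
      exact_mod_cast (by rw [mul_comm]; exact (Nat.lt_mul_div_succ A z.succ_pos).le :
        A ≤ (A / (z + 1) + 1) * (z + 1))
    have k4 := Nat.cast_div_le (α := ℝ) (m := (A + H) / z - A / (z + 1)) (n := 2)
    have k5 : len = (A + H) / z - A / (z + 1) := by rw [hlen, w]; field_simp; ring
    rw [Nat.cast_sub k1, Nat.cast_ofNat] at k4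
    rw [Nat.cast_add, Nat.cast_one]
    nlinarith
  have h7 : (S'.card : ℝ) ≤ 100 * len / a := by
    have k1 : (a : ℝ) ≤ 16 * e := by exact_mod_cast (by omega : a ≤ 16 * e)
    have k0 : 0 ≤ len := by positivity
    have k2 : 6 * len / e ≤ 96 * len / a := by
      rw [div_le_div_iff₀ (by linarith) (by linarith)]
      nlinarith
    have k3 : (2 : ℝ) * 2 ^ (4 * e) ≤ 4 * len / a := by
      rw [le_div_iff₀ (by linarith)]; linarith
    refine h2.trans ((add_le_add (le_trans (by gcongr) k2) k3).trans (le_of_eq (by ring)))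
  have h8 : len * m ≤ 3 * H * (A + H) * w z := by
    have k1 : A * w z * m ≤ A * w z * H := mul_le_mul_of_nonneg_left (min_le_left _ _) (by positivity)
    have k2 : H / z * m ≤ H / z * ((A + H) / z) :=
      mul_le_mul_of_nonneg_left (min_le_right _ _) (by positivity)
    have k3 : 1 / (z : ℝ) ^ 2 ≤ 2 * w z := by
      have : (1 : ℝ) ≤ z := by exact_mod_cast hz
      rw [w, mul_one_div, div_le_div_iff₀ (by positivity) (by positivity)]
      nlinarith
    have k4 : (H : ℝ) / z * ((A + H) / z) = H * (A + H) * (1 / z ^ 2) := by field_simp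
    have k5 := mul_le_mul_of_nonneg_left k3 (show (0 : ℝ) ≤ H * (A + H) by positivity)
    have k6 : (0 : ℝ) ≤ H * H * w z := by positivity
    rw [hlen, add_mul]
    nlinarith
  calc S'.card * m ≤ 100 * len / a * m := by gcongr
    _ = 100 / a * (len * m) := by ring
    _ ≤ 100 / a * (3 * H * (A + H) * w z) := by gcongr
    _ = _ := by ring

/-- The increment of the averaged sum. -/
def cc (A H : ℕ) (l : List Bool) : ℝ := ∑ x ∈ Ico A (A + H), Psi l (x / d l.length)

theorem var_le {A H a c Z : ℕ} (hc : A + H ≤ H * 2 ^ c) (ha : 8 * (c + 4) ≤ a) (hZ : A + H ≤ Z)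
    (s : ℕ → Bool) (b : ℕ) {g : ℕ → ℝ} (hg : ∀ z, 0 ≤ g z) (h0 : g 0 = 0)
    (h : ∀ n ∈ Ico (2 ^ a) b, ∀ x ∈ Ico A (A + H), Psi (L s n) (x / d n) ^ 2 ≤ g (x / d n)) :
    ∑ n ∈ Ico (2 ^ a) b, cc A H (L s n) ^ 2 ≤ 300 * H ^ 2 * (A + H) / a * nrm Z g := by
  have h1 : ∀ n ∈ Ico (2 ^ a) b, cc A H (L s n) ^ 2 ≤ H * ∑ z ∈ range Z,
      (((Ico A (A + H)).filter fun x => x / d n = z).card : ℝ) * g z := by
    intro n hn
    refine sq_sum_le_card_mul_sum_sq.trans ?_
    rw [Nat.card_Ico, add_tsub_cancel_left, L_len]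
    refine mul_le_mul_of_nonneg_left ((sum_le_sum (h n hn)).trans (le_of_eq ?_)) (by positivity)
    rw [← sum_fiberwise_of_maps_to (t := range Z) (g := fun x => x / d n) fun x hx =>
      mem_range.2 ((Nat.div_le_self _ _).trans_lt ((mem_Ico.1 hx).2.trans_le hZ))]
    refine sum_congr rfl fun z _ => ?_
    rw [sum_congr rfl fun x hx => by rw [(mem_filter.1 hx).2], sum_const, nsmul_eq_mul]
  refine (sum_le_sum h1).trans ?_
  rw [← mul_sum, sum_comm, nrm, mul_sum, mul_sum]
  refine sum_le_sum fun z _ => ?_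
  rcases z.eq_zero_or_pos with rfl | hz
  · simp [h0]
  rw [← sum_mul]
  have := mul_le_mul_of_nonneg_left (mul_le_mul_of_nonneg_right
    (count_z hz hc ha (Ico (2 ^ a) b) fun n hn => (mem_Ico.1 hn).1) (hg z)) (Nat.cast_nonneg H)
  exact this.trans_eq (by ring)

theorem sum_pieces (f : ℕ → ℝ) {P : ℕ → ℕ} (hP : Monotone P) (c : ℝ) {a b : ℕ} (h : a ≤ b)
    (hc : ∀ i, a ≤ i → i < b → ∑ n ∈ Ico (P i) (P (i + 1)), f n ≤ c) :
    ∑ n ∈ Ico (P a) (P b), f n ≤ (b - a : ℕ) * c := by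
  induction b, h using Nat.le_induction with
  | base => simp
  | succ b h ih =>
    rw [← sum_Ico_consecutive _ (hP h) (hP b.le_succ), Nat.succ_sub h, Nat.cast_succ, add_mul,
      one_mul]
    exact add_le_add (ih fun i h1 h2 => hc i h1 (by omega)) (hc b h (by omega))

end

end Pool.Agent.Lib.RM67
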