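import Pool.Agent.Lib.RM67.Planch
import Pool.Agent.Lib.RM67.Count

/-! Project rm67: four almost sure bounds. -/

namespace Pool.Agent.Lib.RM67

open Finset Real MeasureTheory Filter

noncomputable section

theorem tendsto_lg : Tendsto (Nat.log 2) atTop atTop :=
  tendsto_atTop_atTop.2 fun b => ⟨2 ^ b, fun _ h => Nat.le_log_of_pow_le one_lt_two h⟩

theorem ev_pow (C : ℕ) : ∀ᶠ j in atTop, C * (j + 1) ≤ 2 ^ j := by
  have h : ∀ j, 4 ≤ j → j ^ 2 ≤ 2 ^ j := fun j hj => by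
    induction j, hj using Nat.le_induction with
    | base => norm_num
    | succ j hj ih => rw [pow_succ 2]; nlinarith
  filter_upwards [eventually_ge_atTop (C + 4)] with j hj
  exact le_trans (by nlinarith) (h j (by omega))

theorem ev_log (C : ℕ) : ∀ᶠ n in atTop, C * (Nat.log 2 n + 1) ≤ n := by
  filter_upwards [tendsto_lg.eventually (ev_pow C), eventually_gt_atTop 0] with n h hn
  exact h.trans (Nat.pow_log_le_self 2 hn.ne')

theorem lt_lg (n : ℕ) : (n : ℝ) ≤ 2 ^ (Nat.log 2 n + 1) := by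
  exact_mod_cast (Nat.lt_pow_succ_log_self one_lt_two n).le

theorem exp_sr (c : ℕ) {k : ℕ} (hk : 1 ≤ k) :
    exp (c * ∑ m ∈ range (2 ^ 2 ^ k), r m) ≤ exp (c * 18) * (2 ^ k) ^ c := by
  have h := sr_le (a := 2 ^ k) (le_self_pow₀ one_le_two (by omega))
  refine (exp_le_exp.2 (mul_le_mul_of_nonneg_left h c.cast_nonneg)).trans_eq ?_
  rw [mul_add, exp_add, exp_nat_mul, exp_log (by positivity), mul_comm]
  push_cast; rfl

theorem mom8 (n : ℕ) {u v : ℕ} (h : u ≤ v) : av n (fun l => (D l u v ^ 2) ^ 4) ≤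
    ((v - u : ℕ) * (v * exp ((256 : ℕ) * ∑ m ∈ range n, r m))) ^ 2 := by
  refine (hyper0 4 n h).trans ?_
  have e : T (fun _ => 4 * (4 : ℕ)) n v - T (fun _ => 4 * (4 : ℕ)) n u =
      ∑ m ∈ Ioc u v, tm (fun _ => 4 * (4 : ℕ)) n m := by
    rw [T, T, ← sum_Ioc_consecutive _ (Nat.zero_le u) h, add_sub_cancel_left]
  have e2 : ∀ m, tm (fun _ => 4 * (4 : ℕ)) n m ^ 2 = tm (fun _ => (256 : ℕ)) n m := fun m => by
    unfold tm
    split_ifs
    · rw [← prod_pow]; norm_num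
    · simp
  rw [e, show 4 = 2 * 2 from rfl, pow_mul]
  refine pow_le_pow_left₀ (sq_nonneg _) (sq_sum_le_card_mul_sum_sq.trans ?_) 2
  have h2 := rankin (c := (256 : ℕ)) (by positivity) one_pos n v
  simp only [rpow_one] at h2
  rw [Nat.card_Ioc]
  refine mul_le_mul_of_nonneg_left (le_trans ?_ h2) (by positivity)
  simp only [show 2 * 2 = 4 from rfl, e2]
  exact sum_le_sum_of_subset_of_nonneg (Ioc_subset_Ioc_left (Nat.zero_le u))
    fun m _ _ => e2 m ▸ sq_nonneg _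

theorem chain {M : ℕ → ℝ} {τ : ℝ} {m X : ℕ}
    (h : ∀ j < m, ∀ i, (i + 1) * 2 ^ j ≤ X → |M ((i + 1) * 2 ^ j) - M (i * 2 ^ j)| ≤ τ) :
    ∀ j ≤ m, ∀ i y, y < 2 ^ j → (i + 1) * 2 ^ j ≤ X →
      |M (i * 2 ^ j + y) - M (i * 2 ^ j)| ≤ j * τ := by
  intro j
  induction j with
  | zero => intro _ i y hy _; simp [show y = 0 by omega]
  | succ j ih =>
    intro hj i y hy hX
    have e : i * 2 ^ (j + 1) = 2 * i * 2 ^ j := by ring
    have e2 : (i + 1) * 2 ^ (j + 1) = (2 * i + 1 + 1) * 2 ^ j := by ring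
    have h1 := h j (by omega) (2 * i) (le_trans (by nlinarith [j.two_pow_pos]) (e2 ▸ hX))
    have h0 := (abs_nonneg _).trans h1
    rw [e, Nat.cast_succ, add_mul, one_mul]
    rcases lt_or_ge y (2 ^ j) with hy' | hy'
    · have := ih (by omega) (2 * i) y hy' (le_trans (by nlinarith [j.two_pow_pos]) (e2 ▸ hX))
      linarith
    · have := ih (by omega) (2 * i + 1) (y - 2 ^ j) (by omega) (e2 ▸ hX)
      rw [show (2 * i + 1) * 2 ^ j + (y - 2 ^ j) = 2 * i * 2 ^ j + y by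
        rw [add_mul, one_mul]; omega] at this
      exact (abs_sub_le _ _ _).trans (add_le_add this h1)

/-- The gap between test points. -/
def HH (κ : ℕ) : ℕ := 2 ^ (κ - 600 * Nat.log 2 κ)

/-- The smooth scale. -/
def ks (j : ℕ) : ℕ := j - Nat.log 2 j - 11

/-- The sum over a gap. -/
def Mb (A H : ℕ) (l : List Bool) : ℝ := ∑ x ∈ Ico A (A + H), Psi l x

variable {Ω : Type} [MeasurableSpace Ω] {μ : Measure Ω} [IsProbabilityMeasure μ]
  {Y : Ω → ℕ → Bool}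

theorem ev_chain (hY : Fair μ Y) : ∀ᵐ ω ∂μ, ∀ᶠ κ in atTop, ∀ i y, y < HH κ →
    (i + 1) * HH κ ≤ 2 ^ (κ + 1) → |Psi (L (Y ω) (2 ^ 2 ^ (Nat.log 2 κ + 1))) (i * HH κ + y) -
      Psi (L (Y ω) (2 ^ 2 ^ (Nat.log 2 κ + 1))) (i * HH κ)| ≤ √(2 ^ κ) := by
  obtain ⟨K, hK⟩ : ∃ K : ℝ, K = 2 ^ 600 := ⟨_, rfl⟩
  have h := hY.bc1 (fun κ => 2 ^ 2 ^ (Nat.log 2 κ + 1))
    (fun κ l => ((2 : ℝ) ^ κ / κ ^ 2) ^ 4 < ∑ j ∈ range (κ - 600 * Nat.log 2 κ),
      ∑ i ∈ range (2 ^ (κ + 1 - j)), (D l (i * 2 ^ j) ((i + 1) * 2 ^ j) ^ 2) ^ 4)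
    (summable_sq (8 * exp ((256 : ℕ) * 18) ^ 2 * K)) ?_
  · filter_upwards [h] with ω hω
    filter_upwards [hω, eventually_gt_atTop 0] with κ hκ h0 i y hy hi
    have h0' : (0 : ℝ) < κ := by positivity
    refine (chain (τ := √(2 ^ κ) / κ) (fun j hj i hi => ?_) _ le_rfl i y hy hi).trans ?_
    · have h1 : i ∈ range (2 ^ (κ + 1 - j)) := by
        rw [show κ + 1 = κ + 1 - j + j by omega, pow_add] at hi
        exact mem_range.2 (Nat.le_of_mul_le_mul_right hi j.two_pow_pos)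
      have h2 := ((single_le_sum (f := fun i => (D _ (i * 2 ^ j) ((i + 1) * 2 ^ j) ^ 2) ^ 4)
        (fun _ _ => by positivity) h1).trans (single_le_sum (f := fun j =>
          ∑ i ∈ range (2 ^ (κ + 1 - j)), (D _ (i * 2 ^ j) ((i + 1) * 2 ^ j) ^ 2) ^ 4)
        (fun _ _ => by positivity) (mem_range.2 hj))).trans (not_lt.1 hκ)
      refine abs_le_of_sq_le_sq ?_ (by positivity)
      rw [div_pow, sq_sqrt (by positivity)]
      exact le_of_pow_le_pow_left₀ four_ne_zero (by positivity) h2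
    · rw [mul_div_left_comm]
      exact mul_le_of_le_one_right (sqrt_nonneg _) ((div_le_one h0').2 (by simp))
  filter_upwards [ev_log 600, eventually_gt_atTop 0] with κ hκ h0
  have h0' : (0 : ℝ) < κ := by positivity
  set j := Nat.log 2 κ with hj
  set m := κ - 600 * j with hm
  set E := exp ((256 : ℕ) * 18) * ((2 : ℝ) ^ (j + 1)) ^ 256 with hE
  refine (markov (by positivity) fun l => by positivity).trans ?_
  have h1 : av (2 ^ 2 ^ (j + 1)) (fun l => ∑ j ∈ range m, ∑ i ∈ range (2 ^ (κ + 1 - j)),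
      (D l (i * 2 ^ j) ((i + 1) * 2 ^ j) ^ 2) ^ 4) ≤ κ * (8 * (2 ^ κ) ^ 3 * 2 ^ m * E ^ 2) := by
    rw [av_sum]
    refine (sum_le_card_nsmul _ _ (8 * (2 ^ κ) ^ 3 * 2 ^ m * E ^ 2) fun a ha => ?_).trans ?_
    · rw [av_sum]
      have ha' := mem_range.1 ha
      have e : (2 : ℝ) ^ (κ + 1 - a) * 2 ^ a = 2 * 2 ^ κ := by
        rw [← pow_add, ← pow_succ']; congr 1; omega
      refine (sum_le_card_nsmul _ _ ((2 ^ a * (2 * 2 ^ κ * E)) ^ 2) fun i hi => ?_).trans ?_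
      · refine (mom8 _ (Nat.mul_le_mul_right _ i.le_succ)).trans ?_
        rw [show (i + 1) * 2 ^ a - i * 2 ^ a = 2 ^ a by rw [add_mul]; omega]
        have k1 := exp_sr 256 (k := j + 1) (by omega)
        have k2 : (((i + 1) * 2 ^ a : ℕ) : ℝ) ≤ 2 * 2 ^ κ := by
          rw [← e]
          exact_mod_cast Nat.mul_le_mul_right _ (mem_range.1 hi)
        rw [Nat.cast_pow, Nat.cast_ofNat (n := 2)]
        gcongr
      · have k3 : (2 : ℝ) ^ a ≤ 2 ^ m := pow_le_pow_right₀ one_le_two ha'.le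
        rw [card_range, nsmul_eq_mul, Nat.cast_pow, Nat.cast_ofNat]
        calc _ = (2 : ℝ) ^ (κ + 1 - a) * 2 ^ a * (2 ^ a * (2 * 2 ^ κ * E) ^ 2) := by ring
          _ ≤ 2 * 2 ^ κ * (2 ^ m * (2 * 2 ^ κ * E) ^ 2) := by rw [e]; gcongr
          _ = _ := by ring
    · rw [card_range, nsmul_eq_mul]
      gcongr
      omega
  have h2 : κ ^ 11 * (((2 : ℝ) ^ (j + 1)) ^ 256) ^ 2 * 2 ^ m ≤ K * 2 ^ κ := by
    have k1 : (κ : ℝ) ^ 11 ≤ (2 ^ (j + 1)) ^ 11 := by gcongr; exact lt_lg κ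
    refine (mul_le_mul_of_nonneg_right (mul_le_mul_of_nonneg_right k1 (by positivity))
      (by positivity)).trans ?_
    rw [hK]
    simp only [← pow_mul, ← pow_add]
    exact pow_le_pow_right₀ one_le_two (by omega)
  rw [div_le_div_iff₀ (by positivity) (by positivity)]
  refine (mul_le_mul_of_nonneg_right h1 (by positivity)).trans ?_
  rw [hE]
  generalize ((2 : ℝ) ^ (j + 1)) ^ 256 = F at h2 ⊢
  generalize exp ((256 : ℕ) * 18) = G
  rw [div_pow, ← mul_div_assoc, le_div_iff₀ (by positivity)]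
  have := mul_le_mul_of_nonneg_left h2 (show (0 : ℝ) ≤ 8 * G ^ 2 * (2 ^ κ) ^ 3 by positivity)
  exact le_trans (le_of_eq (by ring)) (this.trans_eq (by ring))

theorem smooth_le {k u x : ℕ} (hk : 1 ≤ k) (hx : 2 ^ (u * 2 ^ k) ≤ x) :
    av (2 ^ 2 ^ k) (fun l => Psi l x ^ 2) ≤ x / 2 ^ u * (exp ((8 : ℕ) * 18) * (2 ^ k) ^ 8) := by
  have h := hyper0 1 (2 ^ 2 ^ k) (Nat.zero_le x)
  simp only [D, Psi_zero, sub_zero, pow_one, Nat.cast_one, mul_one] at h
  have h0 : T (fun _ => 4) (2 ^ 2 ^ k) 0 = 0 := by simp [T]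
  rw [h0, sub_zero] at h
  have h2 : (2 : ℝ) ≤ 2 ^ k := two_le_pow hk
  have hδ : (0 : ℝ) < 1 - (2 ^ k)⁻¹ := sub_pos.2 (inv_lt_one_of_one_lt₀ (by linarith))
  have key : ∀ a : ℕ, ((2 : ℝ) ^ (a * 2 ^ k)) ^ ((2 : ℝ) ^ k)⁻¹ = 2 ^ a := fun a => by
    rw [pow_mul]
    exact_mod_cast pow_rpow_inv_natCast (x := 2 ^ a) (by positivity) (n := 2 ^ k) (by positivity)
  refine h.trans ((rankin (by norm_num) hδ _ x).trans (mul_le_mul ?_ (le_trans ?_ (exp_sr 8 hk))
    (exp_pos _).le (by positivity)))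
  · have hx0 : (0 : ℝ) < x := by exact_mod_cast (Nat.two_pow_pos _).trans_le hx
    rw [rpow_sub hx0, rpow_one, ← key u]
    gcongr
    exact_mod_cast hx
  · rw [show ((8 : ℕ) : ℝ) = 4 * 2 by norm_num, mul_assoc, mul_sum (a := 2)]
    refine exp_le_exp.2 (mul_le_mul_of_nonneg_left (sum_le_sum fun m hm => ?_) (by norm_num))
    by_cases hp : m.Prime
    · have hm0 : (0 : ℝ) < m := by exact_mod_cast hp.pos
      have k1 : (m : ℝ) ^ ((2 : ℝ) ^ k)⁻¹ ≤ 2 ^ 1 := by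
        rw [← key 1, one_mul]
        gcongr
        exact_mod_cast (mem_range.1 hm).le
      rw [r_prime hp, one_div, inv_rpow hm0.le, rpow_sub hm0, rpow_one, inv_div, div_eq_mul_inv]
      gcongr
      simpa using k1
    · rw [r_not hp, zero_rpow hδ.ne', mul_zero]

theorem ev_smooth (hY : Fair μ Y) : ∀ᵐ ω ∂μ, ∀ᶠ κ in atTop,
    ∀ i ∈ Ico (2 ^ (600 * Nat.log 2 κ)) (2 ^ (600 * Nat.log 2 κ + 1)),
      ¬ (HH κ : ℝ) ^ 2 * 2 ^ κ < Mb (i * HH κ) (HH κ) (L (Y ω) (2 ^ 2 ^ ks (Nat.log 2 κ))) ^ 2 := by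
  refine hY.bc _ (fun κ _ => 2 ^ 2 ^ ks (Nat.log 2 κ))
    (fun κ i l => (HH κ : ℝ) ^ 2 * 2 ^ κ < Mb (i * HH κ) (HH κ) l ^ 2)
    (summable_sq (8 * exp ((8 : ℕ) * 18))) ?_
  filter_upwards [ev_log 600, eventually_gt_atTop 0, tendsto_lg.eventually (ev_log 12)]
    with κ hκ h0 hj2
  have h0' : (0 : ℝ) < κ := by positivity
  set j := Nat.log 2 κ with hj
  have hH : (0 : ℝ) < HH κ := by unfold HH; positivity
  have e : 2 ^ (600 * j) * HH κ = 2 ^ κ := by rw [HH, ← pow_add]; congr 1; omega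
  set G := exp ((8 : ℕ) * 18)
  refine (sum_le_card_nsmul _ _ (2 / 2 ^ (1024 * j) * (G * (2 ^ j) ^ 8)) fun i hi => ?_).trans ?_
  · refine (markov (by positivity) fun l => sq_nonneg _).trans ?_
    rw [div_le_iff₀ (by positivity)]
    refine (av_mono (G := fun l => HH κ * ∑ x ∈ Ico (i * HH κ) (i * HH κ + HH κ), Psi l x ^ 2)
      fun l _ => sq_sum_le_card_mul_sum_sq.trans_eq (by simp)).trans ?_
    rw [av_mul, av_sum]
    refine (mul_le_mul_of_nonneg_left (sum_le_card_nsmul _ _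
      (2 * 2 ^ κ / 2 ^ (1024 * j) * (G * (2 ^ j) ^ 8)) fun x hx => ?_) hH.le).trans_eq ?_
    · simp only [mem_Ico] at hi hx
      have k1 : 1024 * j * 2 ^ ks j ≤ κ := by
        have := (Nat.lt_pow_succ_log_self one_lt_two j).le
        calc 1024 * j * 2 ^ ks j ≤ 2 ^ 10 * 2 ^ (Nat.log 2 j + 1) * 2 ^ ks j := by gcongr; norm_num
          _ = 2 ^ j := by rw [← pow_add, ← pow_add, ks]; congr 1; omega
          _ ≤ κ := Nat.pow_log_le_self 2 h0.ne'
      have k2 : x ≤ 2 * 2 ^ κ := by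
        have := Nat.mul_le_mul_right (HH κ) (Nat.succ_le_of_lt hi.2)
        rw [pow_succ, mul_right_comm, e, Nat.succ_mul] at this
        omega
      refine (smooth_le (u := 1024 * j) (by unfold ks; omega) ((Nat.pow_le_pow_right two_pos k1).trans
        (e ▸ (Nat.mul_le_mul_right _ hi.1).trans hx.1))).trans ?_
      gcongr
      · exact_mod_cast k2
      · exact one_le_two
      · unfold ks; omega
    · simp only [Nat.card_Ico, add_tsub_cancel_left, nsmul_eq_mul]; ring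
  · have k1 : (κ : ℝ) ^ 2 ≤ (2 ^ (j + 1)) ^ 2 := by gcongr; exact lt_lg κ
    have k2 : (2 : ℝ) ^ (600 * j) * (2 ^ j) ^ 8 * (2 ^ (j + 1)) ^ 2 ≤ 2 ^ 2 * 2 ^ (1024 * j) := by
      simp only [← pow_mul, ← pow_add]
      exact pow_le_pow_right₀ one_le_two (by omega)
    rw [Nat.card_Ico, Nat.two_pow_succ, Nat.add_sub_cancel,
      nsmul_eq_mul, le_div_iff₀ (by positivity), Nat.cast_pow, Nat.cast_ofNat]
    have k3 := (mul_le_mul_of_nonneg_left k1 (by positivity)).trans k2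
    generalize (2 : ℝ) ^ (600 * j) = a at k3 ⊢
    have : (0 : ℝ) < 2 ^ (1024 * j) := by positivity
    generalize (2 : ℝ) ^ (1024 * j) = b at k3 this ⊢
    have k4 := mul_le_mul_of_nonneg_left k3 (show 0 ≤ 2 * G / b by positivity)
    exact le_trans (le_of_eq (by ring)) (k4.trans_eq (by field_simp; ring))

/-- The exponent of the exponential supermartingale. -/
def Ex (c : List Bool → ℝ) (n : ℕ) : List Bool → ℝ
  | [] => 0
  | b :: l => Ex c n l + if n ≤ l.length then sg b * c l - c l ^ 2 / 2 else 0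

theorem av_Ex (c : List Bool → ℝ) (n k : ℕ) : av k (fun l => exp (Ex c n l)) ≤ 1 := by
  refine (av_sup0 k _ fun l _ => ?_).trans_eq (by simp [Ex])
  simp only [Ex]
  split_ifs
  · have h := cosh_le_exp_half_sq (c l)
    rw [cosh_eq] at h
    simp only [exp_add, exp_sub, sg_true, sg_false, one_mul, neg_mul]
    have h2 := mul_le_mul_of_nonneg_left ((div_le_one (exp_pos _)).2 h) (exp_pos (Ex c n l)).le
    exact le_trans (le_of_eq (by ring)) (h2.trans_eq (mul_one _))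
  · simp

theorem Ex_L (θ : ℝ) (A H : ℕ) (s : ℕ → Bool) {n N : ℕ} (h : n ≤ N) :
    Ex (fun l => θ * cc A H l) n (L s N) = θ * (Mb A H (L s N) - Mb A H (L s n)) -
      θ ^ 2 / 2 * ∑ m ∈ Ico n N, cc A H (L s m) ^ 2 := by
  have h0 : ∀ m ≤ n, Ex (fun l => θ * cc A H l) n (L s m) = 0 := fun m hm => by
    induction m with
    | zero => rfl
    | succ m ih => simp [L, Ex, ih (by omega), show ¬ n ≤ m by omega]
  induction N, h using Nat.le_induction with
  | base => simp [h0]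
  | succ N h ih =>
    have e : Mb A H (L s (N + 1)) = Mb A H (L s N) + sg (s N) * cc A H (L s N) := by
      simp only [Mb, cc, L, Psi, sum_add_distrib, mul_sum]
    rw [sum_Ico_succ_top h, e]
    simp only [L, Ex, ih, L_len, h, if_true]
    ring

theorem ev_exp (hY : Fair μ Y) (θ : ℕ → ℝ) (n : ℕ → ℕ) : ∀ᵐ ω ∂μ, ∀ᶠ κ in atTop,
    ∀ i ∈ Ico (2 ^ (600 * Nat.log 2 κ)) (2 ^ (600 * Nat.log 2 κ + 1)),
      n κ ≤ 2 ^ 2 ^ (Nat.log 2 κ + 1) →
      |θ κ * (Mb (i * HH κ) (HH κ) (L (Y ω) (2 ^ 2 ^ (Nat.log 2 κ + 1))) -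
        Mb (i * HH κ) (HH κ) (L (Y ω) (n κ)))| ≤ (603 * (Nat.log 2 κ + 1) : ℕ) + θ κ ^ 2 / 2 *
        ∑ m ∈ Ico (n κ) (2 ^ 2 ^ (Nat.log 2 κ + 1)), cc (i * HH κ) (HH κ) (L (Y ω) m) ^ 2 := by
  have h := hY.bc (fun κ => Ico (2 ^ (600 * Nat.log 2 κ)) (2 ^ (600 * Nat.log 2 κ + 1)))
    (fun κ _ => 2 ^ 2 ^ (Nat.log 2 κ + 1))
    (fun κ i l => exp (603 * (Nat.log 2 κ + 1) : ℕ) <
      exp (Ex (fun l => θ κ * cc (i * HH κ) (HH κ) l) (n κ) l) +
      exp (Ex (fun l => -θ κ * cc (i * HH κ) (HH κ) l) (n κ) l)) (summable_sq 2) ?_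
  · filter_upwards [h] with ω hω
    filter_upwards [hω] with κ hκ i hi hn
    have k := not_lt.1 (hκ i hi)
    have k1 := exp_le_exp.1 ((le_add_of_nonneg_right (exp_pos _).le).trans k)
    have k2 := exp_le_exp.1 ((le_add_of_nonneg_left (exp_pos _).le).trans k)
    rw [Ex_L _ _ _ _ hn] at k1 k2
    rw [neg_sq] at k2
    exact abs_le.2 ⟨by linarith, by linarith⟩
  filter_upwards [eventually_gt_atTop 0] with κ h0
  have h0' : (0 : ℝ) < κ := by positivity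
  set j := Nat.log 2 κ with hj
  refine (sum_le_card_nsmul _ _ (2 / 2 ^ (603 * (j + 1))) fun i _ => ?_).trans ?_
  · refine (markov (exp_pos _) fun l => by positivity).trans ?_
    rw [av_add]
    refine div_le_div₀ (by norm_num) ((add_le_add (av_Ex _ _ _) (av_Ex _ _ _)).trans_eq
      one_add_one_eq_two) (by positivity) ?_
    rw [← exp_one_pow]
    exact pow_le_pow_left₀ zero_le_two (by linarith [add_one_le_exp 1]) _
  · have k1 : (κ : ℝ) ^ 2 ≤ (2 ^ (j + 1)) ^ 2 := by gcongr; exact lt_lg κ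
    have k2 : (2 : ℝ) ^ (600 * j) * (2 ^ (j + 1)) ^ 2 ≤ 2 ^ (603 * (j + 1)) := by
      simp only [← pow_mul, ← pow_add]
      exact pow_le_pow_right₀ one_le_two (by omega)
    rw [Nat.card_Ico, Nat.two_pow_succ, Nat.add_sub_cancel,
      nsmul_eq_mul, Nat.cast_pow, Nat.cast_ofNat, ← mul_div_assoc,
      div_le_div_iff₀ (by positivity) (by positivity)]
    have k3 := (mul_le_mul_of_nonneg_left k1 (by positivity)).trans k2
    rw [mul_right_comm, mul_comm 2]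
    exact mul_le_mul_of_nonneg_right k3 zero_le_two

/-- The exponents of the end points of the pieces. -/
def ex (k i : ℕ) : ℕ := 2 ^ k + i * 2 ^ (k - (Nat.log 2 (Nat.log 2 k) + 1))

theorem ev_piece (hY : Fair μ Y) : ∀ᵐ ω ∂μ, ∀ᶠ k in atTop,
    ∀ i < 2 ^ (Nat.log 2 (Nat.log 2 k) + 1),
      nrm (2 ^ 2 ^ (2 * k + 1)) (fun z => Gm (2 ^ ex k i) z (L (Y ω) (2 ^ ex k (i + 1)))) ≤
        32 * exp 26 * ex k i * NN (L (Y ω) (2 ^ ex k i)) := by
  have hm : ∀ k i, ex k i ≤ ex k (i + 1) := fun k i => by unfold ex; gcongr; omega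
  have hm' : ∀ k i, 2 ^ ex k i ≤ 2 ^ ex k (i + 1) := fun k i => Nat.pow_le_pow_right two_pos (hm k i)
  have h2 : ∀ k i, 1 ≤ k → 2 ≤ ex k i := fun k i hk =>
    le_add_right (le_self_pow₀ one_le_two (by omega))
  have h := hY.bc (fun k => range (2 ^ (Nat.log 2 (Nat.log 2 k) + 1)))
    (fun k i => 2 ^ ex k i + (2 ^ ex k (i + 1) - 2 ^ ex k i))
    (fun k i => Fp (2 ^ ex k i) (2 ^ ex k (i + 1) - 2 ^ ex k i) (2 ^ 2 ^ (2 * k + 1)))
    (summable_sq 1) ?_
  · filter_upwards [h] with ω hω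
    filter_upwards [hω, eventually_ge_atTop 1] with k hk h1 i hi
    have k1 := hk i (mem_range.2 hi)
    rw [Fp, L_drop, Nat.add_sub_cancel' (hm' k i), not_lt] at k1
    have k2 := nrm_le (2 ^ 2 ^ (2 * k + 1)) (L (Y ω) (2 ^ ex k i))
    rw [L_len] at k2
    have k3 := k2.trans (mul_le_mul_of_nonneg_right (Pr_le (h2 k i h1)) (NN_nonneg _))
    refine k1.trans ((mul_le_mul_of_nonneg_left k3 (by positivity)).trans_eq ?_)
    rw [show (26 : ℝ) = 8 + 18 by norm_num, exp_add]; ring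
  filter_upwards [ev_log 2, ev_pow 32, eventually_ge_atTop 2] with k hk hk2 h1
  set g := Nat.log 2 (Nat.log 2 k) with hg
  have q1 : Nat.log 2 k < 2 ^ (g + 1) := Nat.lt_pow_succ_log_self one_lt_two _
  have q2 : 2 ^ (g + 1) ≤ k := by
    have : 2 ^ g ≤ _ := Nat.pow_log_le_self 2 (Nat.log_pos one_lt_two h1).ne'
    rw [pow_succ]; omega
  have q3 : g + 1 ≤ k := (Nat.lt_two_pow_self).le.trans q2
  have h0' : (0 : ℝ) < k := by positivity
  refine (sum_le_card_nsmul _ _ (1 / (k : ℝ) ^ 3) fun i _ => ?_).trans ?_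
  · refine (piece _ _ _ (2 ^ g) Nat.one_le_two_pow
      (le_self_pow₀ one_le_two (by positivity)) ?_).trans ?_
    · rw [Nat.add_sub_cancel' (hm' k i)]
      refine (sr_Ico (h2 k i (by omega)) (hm k i)).trans ?_
      have a0 : (2 : ℝ) ^ k ≤ ex k i := by exact_mod_cast Nat.le_add_right _ _
      have a1 : (0 : ℝ) < ex k i := lt_of_lt_of_le (by positivity) a0
      have a2 : (ex k (i + 1) : ℝ) = ex k i + 2 ^ (k - (g + 1)) := by
        unfold ex; push_cast; ring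
      have a3 : (2 : ℝ) ^ (k - (g + 1)) * (2 * 2 ^ g) = 2 ^ k := by
        rw [← pow_succ', ← pow_add]; congr 1; omega
      have a4 : (32 : ℝ) * (2 * 2 ^ g) ≤ 2 ^ k := by
        exact_mod_cast (by rw [← pow_succ']; omega : 32 * (2 * 2 ^ g) ≤ 2 ^ k)
      refine (add_le_add (log_le_sub_one_of_pos (by rw [a2]; positivity)) le_rfl).trans ?_
      rw [a2, add_div, div_self a1.ne', add_sub_cancel_left, ← add_div,
        div_le_div_iff₀ a1 (by positivity)]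
      push_cast
      nlinarith
    · have a1 : (k : ℝ) ≤ 2 ^ (2 * 2 ^ g) :=
        (lt_lg k).trans (pow_le_pow_right₀ one_le_two (by rw [← pow_succ']; omega))
      rw [one_div_pow, show (8 : ℝ) = 2 ^ 3 by norm_num, ← pow_mul, mul_comm 3, pow_mul]
      gcongr
  · rw [card_range, nsmul_eq_mul, mul_one_div, div_le_div_iff₀ (by positivity) (by positivity)]
    have : ((2 ^ (g + 1) : ℕ) : ℝ) ≤ k := by exact_mod_cast q2
    nlinarith [sq_nonneg (k : ℝ)]

end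

end Pool.Agent.Lib.RM67
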