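import Pool.Agent.Lib.RM67.Main
import Pool.Agent.Lib.RM67.B_MASS
import Pool.Agent.Lib.RM67.B_TAIL

/-! Project rm67: signs indexed by the primes only. -/

namespace Pool.Agent.Lib.RM67

open Finset Real Filter MeasureTheory ProbabilityTheory Asymptotics

noncomputable section

theorem fair_ext {Ω : Type} [MeasurableSpace Ω] (μ : Measure Ω) [IsProbabilityMeasure μ]
    (Z : ℕ → Ω → Bool) (hm : ∀ p : Nat.Primes, Measurable (Z p))
    (hi : iIndepFun (fun p : Nat.Primes => Z p) μ)
    (h : ∀ (p : Nat.Primes) b, μ.real (Z p ⁻¹' {b}) ≤ 1 / 2) :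
    Fair (μ.prod (Measure.infinitePi fun _ : ℕ => (PMF.uniformOfFintype Bool).toMeasure))
      fun ω n => if n.Prime then Z n ω.1 else ω.2 n := by
  set c := (PMF.uniformOfFintype Bool).toMeasure with hc
  set ν := Measure.infinitePi fun _ : ℕ => c with hν
  have k1 : ∀ n (s : Set Bool), (μ.prod ν) ((fun ω : Ω × (ℕ → Bool) =>
      if n.Prime then Z n ω.1 else ω.2 n) ⁻¹' s) = if n.Prime then μ (Z n ⁻¹' s) else c s := by
    intro n s
    split_ifs with hp
    · rw [show (fun ω : Ω × (ℕ → Bool) => Z n ω.1) ⁻¹' s = (Z n ⁻¹' s) ×ˢ Set.univ by ext; simp,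
        Measure.prod_prod, measure_univ, mul_one]
    · rw [show (fun ω : Ω × (ℕ → Bool) => ω.2 n) ⁻¹' s =
        Set.univ ×ˢ (Set.pi ({n} : Finset ℕ) fun _ => s) by ext; simp, Measure.prod_prod,
        measure_univ, one_mul, hν, Measure.infinitePi_pi _ fun _ _ => .of_discrete, prod_singleton]
  refine fair_of _ (fun n (ω : Ω × (ℕ → Bool)) => if n.Prime then Z n ω.1 else ω.2 n) (fun n => ?_)
    (iIndepFun_iff_measure_inter_preimage_eq_mul.2 fun S sets _ => ?_) fun n b => ?_
  · split_ifs with hp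
    exacts [(hm ⟨n, hp⟩).comp measurable_fst, (measurable_pi_apply n).comp measurable_snd]
  · have e : (⋂ i ∈ S, (fun ω : Ω × (ℕ → Bool) => if i.Prime then Z i ω.1 else ω.2 i) ⁻¹' sets i) =
        (⋂ p ∈ S.subtype Nat.Prime, Z p ⁻¹' sets p) ×ˢ
          Set.pi (S.filter fun n => ¬ n.Prime) sets := by
      ext ω
      simp only [Set.mem_iInter, Set.mem_preimage, Set.mem_prod, mem_subtype, Set.mem_pi,
        coe_filter, Set.mem_ofPred_eq]
      refine ⟨fun h => ⟨fun p hp => by simpa [p.2] using h p hp,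
        fun n hn => by simpa [hn.2] using h n hn.1⟩, fun h n hn => ?_⟩
      split_ifs with hp
      exacts [h.1 ⟨n, hp⟩ hn, h.2 n ⟨hn, hp⟩]
    have e2 : μ (⋂ p ∈ S.subtype Nat.Prime, Z p ⁻¹' sets p) =
        ∏ p ∈ S.subtype Nat.Prime, μ (Z p ⁻¹' sets p) :=
      hi.measure_inter_preimage_eq_mul (S.subtype Nat.Prime) (sets := fun p => sets p)
        fun _ _ => .of_discrete
    rw [e, Measure.prod_prod, e2, hν, Measure.infinitePi_pi _ fun _ _ => .of_discrete,
      prod_subtype_eq_prod_filter fun n => μ (Z n ⁻¹' sets n)]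
    simp only [← hν, k1, prod_ite]
  · rw [measureReal_def, k1]
    split_ifs with hp
    · exact h ⟨n, hp⟩ b
    · simp [hc]

theorem main {Ω : Type} [MeasurableSpace Ω] (μ : Measure Ω) [IsProbabilityMeasure μ]
    (X : ℕ → Ω → ℝ) (hm : ∀ p, p.Prime → Measurable (X p))
    (hi : iIndepFun (fun p : Nat.Primes => X p) μ)
    (h1 : ∀ p, p.Prime → μ {ω | X p ω = 1} = 1 / 2) (h2 : ∀ p, p.Prime → μ {ω | X p ω = -1} = 1 / 2)
    {ε : ℝ} (hε : 0 < ε) :
    ∀ᵐ ω ∂μ, (fun x : ℝ => ∑ n ∈ (Icc 1 ⌊x⌋₊).filter Squarefree, ∏ p ∈ n.primeFactors, X p ω)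
      =O[atTop] fun x => √x * log (log x) ^ (1 / 4 : ℝ) * log (log (log x)) ^ (1 + ε) := by
  classical
  have hg : Measurable fun x : ℝ => decide (x = 1) :=
    measurable_to_bool (by convert measurableSet_singleton (1 : ℝ); ext; simp)
  have m1 : ∀ p, p.Prime → ∀ a, MeasurableSet {ω | X p ω = a} := fun p hp a =>
    hm p hp (measurableSet_singleton a)
  have hF := fair_ext μ (fun n ω => decide (X n ω = 1)) (fun p => hg.comp (hm p p.2))
    (hi.comp (fun _ x => decide (x = 1)) fun _ => hg) fun p b => by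
      have a : μ.real {ω | X p ω = 1} = 1 / 2 := by simp [measureReal_def, h1 p p.2]
      cases b
      · rw [show (fun ω => decide (X p ω = 1)) ⁻¹' {false} = {ω | X p ω = 1}ᶜ by ext; simp,
          probReal_compl_eq_one_sub (m1 p p.2 1), a]
        norm_num
      · rw [show (fun ω => decide (X p ω = 1)) ⁻¹' {true} = {ω | X p ω = 1} by ext; simp, a]
  have h3 : ∀ᵐ ω ∂μ, ∀ p : ℕ, p.Prime → sg (decide (X p ω = 1)) = X p ω := by
    refine ae_all_iff.2 fun p => eventually_imp_distrib_left.2 fun hp => ?_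
    have a : μ ({ω | X p ω = 1} ∪ {ω | X p ω = -1}) = 1 := by
      rw [measure_union (Set.disjoint_left.2 fun ω a b => by
        simp only [Set.mem_ofPred_eq] at a b; linarith) (m1 p hp _), h1 p hp, h2 p hp,
        ENNReal.add_halves]
    filter_upwards [(mem_ae_iff_prob_eq_one ((m1 p hp 1).union (m1 p hp (-1)))).2 a] with ω hω
    rcases hω with h | h <;> simp only [Set.mem_ofPred_eq] at h <;> rw [h] <;> norm_num
  filter_upwards [Measure.ae_ae_of_ae_prod (bigO_of st_MASS st_TAIL hF hε), h3] with ω hω h3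
  obtain ⟨η, hη⟩ := hω.exists
  refine hη.congr_left fun x => sum_congr rfl fun n _ => prod_congr rfl fun p hp => ?_
  have := Nat.prime_of_mem_primeFactors hp
  simp only [this, if_true, h3 p this]

end

end Pool.Agent.Lib.RM67
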