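import Mathlib

/-! Project rm67: the Cauchy density and its cosine transform. -/

namespace Pool.Agent.Lib.RM67

open Real MeasureTheory Set FourierTransform

noncomputable section

/-- The Cauchy kernel. -/
def ker (T t : ℝ) : ℝ := (T ^ 2 + t ^ 2)⁻¹

/-- The Cauchy density of width one half. -/
def dens (t : ℝ) : ℝ := (2 * π)⁻¹ * ker (1 / 2) t

theorem ker_eq {T : ℝ} (hT : 0 < T) : ker T = fun t => (T ^ 2)⁻¹ * (1 + (t / T) ^ 2)⁻¹ := by
  funext t
  unfold ker
  field_simp

theorem ker_int {T : ℝ} (hT : 0 < T) : Integrable (ker T) := by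
  rw [ker_eq hT]
  exact (integrable_inv_one_add_sq.comp_div hT.ne').const_mul _

theorem int_ker {T : ℝ} (hT : 0 < T) : ∫ t, ker T t = π / T := by
  rw [ker_eq hT, integral_const_mul, Measure.integral_comp_div (fun x => (1 + x ^ 2)⁻¹),
    integral_univ_inv_one_add_sq, abs_of_pos hT, smul_eq_mul]
  field_simp

theorem dens_int : Integrable dens := (ker_int (by norm_num)).const_mul _

theorem dens_pos (t : ℝ) : 0 < dens t := by unfold dens ker; positivity

theorem dens_le {T t : ℝ} (hT : 0 < T) (h : T < |t|) : dens t ≤ π⁻¹ * ker T t := by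
  have h1 : T ^ 2 ≤ t ^ 2 := by rw [← sq_abs t]; gcongr
  unfold dens ker
  rw [← mul_inv, ← mul_inv]
  refine inv_anti₀ (by positivity) ?_
  nlinarith [pi_pos]

theorem bd_int {f : ℝ → ℝ} (hf : Continuous f) {C : ℝ} (h : ∀ t, |f t| ≤ C) :
    Integrable fun t => f t * dens t :=
  dens_int.bdd_mul hf.aestronglyMeasurable (Filter.Eventually.of_forall h)

theorem lap_int (c : ℂ) (hc : c.re = 0) :
    Integrable (fun v : ℝ => Complex.exp (c * v) * (rexp (-π * |v|) : ℝ)) ∧
    ∫ v : ℝ, Complex.exp (c * v) * (rexp (-π * |v|) : ℝ) = 1 / (π + c) + 1 / (π - c) := by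
  have h1 : EqOn (fun v : ℝ => Complex.exp ((c + π) * v))
      (fun v : ℝ => Complex.exp (c * v) * (rexp (-π * |v|) : ℝ)) (Iic 0) := fun v hv => by
    simp only [abs_of_nonpos (mem_Iic.1 hv), Complex.ofReal_exp, ← Complex.exp_add]
    congr 1; push_cast; ring
  have h2 : EqOn (fun v : ℝ => Complex.exp ((c - π) * v))
      (fun v : ℝ => Complex.exp (c * v) * (rexp (-π * |v|) : ℝ)) (Ioi 0) := fun v hv => by
    simp only [abs_of_pos (mem_Ioi.1 hv), Complex.ofReal_exp, ← Complex.exp_add]
    congr 1; push_cast; ring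
  have p1 : 0 < (c + π).re := by simp [hc, pi_pos]
  have p2 : (c - π).re < 0 := by simp [hc, pi_pos]
  have i1 := (integrableOn_exp_mul_complex_Iic p1 0).congr_fun h1 measurableSet_Iic
  have i2 := (integrableOn_exp_mul_complex_Ioi p2 0).congr_fun h2 measurableSet_Ioi
  refine ⟨by simpa using i1.union i2, ?_⟩
  rw [← intervalIntegral.integral_Iic_add_Ioi i1 i2,
    ← setIntegral_congr_fun measurableSet_Iic h1, ← setIntegral_congr_fun measurableSet_Ioi h2,
    integral_exp_mul_complex_Iic p1, integral_exp_mul_complex_Ioi p2, add_comm c, ← neg_sub _ c,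
    neg_div_neg_eq]
  simp

theorem int_cos (u : ℝ) : ∫ t, cos (u * t) * dens t = rexp (-|u| / 2) := by
  set f : ℝ → ℂ := fun v => (rexp (-π * |v|) : ℝ) with hf
  have h1 : 𝓕 f = fun t => (dens t : ℂ) := by
    funext t
    rw [fourier_real_eq_integral_exp_smul]
    have := (lap_int (-2 * π * t * Complex.I) (by simp)).2
    rw [show (dens t : ℂ) = 1 / (π + -2 * π * t * Complex.I) + 1 / (π - -2 * π * t * Complex.I)
      from ?_, ← this]
    · congr 1; funext v
      simp only [hf, smul_eq_mul]
      congr 2; push_cast; ring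
    · have a : (π + -2 * π * t * Complex.I : ℂ) ≠ 0 := fun h => by
        simpa using congrArg Complex.re h
      have b : (π - -2 * π * t * Complex.I : ℂ) ≠ 0 := fun h => by
        simpa using congrArg Complex.re h
      have c : (((1 / 2) ^ 2 + t ^ 2 : ℝ) : ℂ) ≠ 0 := by
        exact_mod_cast (by positivity : ((1 / 2) ^ 2 + t ^ 2 : ℝ) ≠ 0)
      have e : (π : ℂ) ≠ 0 := by exact_mod_cast pi_ne_zero
      rw [div_add_div _ _ a b, eq_div_iff (mul_ne_zero a b), dens, ker, Complex.ofReal_mul,
        Complex.ofReal_inv, Complex.ofReal_inv, mul_assoc, inv_mul_eq_iff_eq_mul₀ (by simpa using e),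
        inv_mul_eq_iff_eq_mul₀ c]
      push_cast
      linear_combination (-4 * π ^ 2 * t ^ 2 : ℂ) * Complex.I_sq
  have h2 := Continuous.fourierInv_fourier_eq (f := f) (by fun_prop)
    (by simpa [hf] using (lap_int 0 rfl).1) (by rw [h1]; exact dens_int.ofReal)
  have h3 := congrFun h2 (u / (2 * π))
  rw [h1, fourierInv_eq'] at h3
  have h4 : Integrable fun t : ℝ => Complex.exp ((u * t : ℝ) * Complex.I) * (dens t : ℂ) :=
    dens_int.ofReal.bdd_mul (c := 1) (by fun_prop) (Filter.Eventually.of_forall fun t => by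
      rw [Complex.norm_exp_ofReal_mul_I])
  have h5 : ∫ t : ℝ, Complex.exp ((u * t : ℝ) * Complex.I) * (dens t : ℂ) =
      (rexp (-|u| / 2) : ℝ) := by
    have a : ∀ v : ℝ, 2 * π * inner ℝ v (u / (2 * π)) = u * v := fun v => by
      simp only [conj_trivial, RCLike.inner_apply]
      field_simp
    have b : -|u| / 2 = -π * |u / (2 * π)| := by
      rw [abs_div, abs_of_pos two_pi_pos]
      field_simp
    simp only [a, smul_eq_mul] at h3
    rw [b]
    exact h3
  have h6 := congrArg Complex.re h5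
  rw [Complex.ofReal_re, ← RCLike.re_to_complex, ← integral_re h4] at h6
  rw [← h6]
  congr 1; funext t
  rw [RCLike.re_to_complex, Complex.re_mul_ofReal, Complex.exp_ofReal_mul_I_re]

theorem int_dens : ∫ t, dens t = 1 := by simpa using int_cos 0

end

end Pool.Agent.Lib.RM67
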