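import Pool.Agent.Lib.RM67.Arith

/-! Project rm67: hypercontractivity, the maximal inequality and the bound on one piece. -/

namespace Pool.Agent.Lib.RM67

open Finset Real

noncomputable section

theorem two_pt (a b : ℝ) (q : ℕ) :
    (((a + b) ^ 2) ^ q + ((a - b) ^ 2) ^ q) / 2 ≤ (a ^ 2 + 4 * q * b ^ 2) ^ q := by
  have key : 0 ≤ a * b * (((a + b) ^ 2) ^ q - ((a - b) ^ 2) ^ q) ∧
      a * b * (((a + b) ^ 2) ^ q - ((a - b) ^ 2) ^ q) ≤
        2 * q * b ^ 2 * (((a + b) ^ 2) ^ q + ((a - b) ^ 2) ^ q) ∧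
      (((a + b) ^ 2) ^ q + ((a - b) ^ 2) ^ q) / 2 ≤ (a ^ 2 + 4 * q * b ^ 2) ^ q := by
    induction q with
    | zero => simp
    | succ q ih =>
      obtain ⟨h1, h2, h3⟩ := ih
      have hx : 0 ≤ ((a + b) ^ 2) ^ q := by positivity
      have hy : 0 ≤ ((a - b) ^ 2) ^ q := by positivity
      have h4 : (a ^ 2 + 4 * q * b ^ 2) ^ q ≤ (a ^ 2 + 4 * (q + 1) * b ^ 2) ^ q := by
        gcongr; linarith
      rw [pow_succ ((a + b) ^ 2), pow_succ ((a - b) ^ 2), pow_succ (_ + _) q]
      push_cast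
      generalize ((a + b) ^ 2) ^ q = x at *
      generalize ((a - b) ^ 2) ^ q = y at *
      have hq : (0 : ℝ) ≤ q := q.cast_nonneg
      have hs : 0 ≤ a ^ 2 + b ^ 2 := by positivity
      have hE : 0 ≤ x + y := by positivity
      have e1 : a * b * (x * (a + b) ^ 2 - y * (a - b) ^ 2) =
          (a ^ 2 + b ^ 2) * (a * b * (x - y)) + 2 * a ^ 2 * b ^ 2 * (x + y) := by ring
      have e2 : x * (a + b) ^ 2 + y * (a - b) ^ 2 =
          (a ^ 2 + b ^ 2) * (x + y) + 2 * (a * b * (x - y)) := by ring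
      rw [e1, e2]
      refine ⟨by positivity, ?_, ?_⟩
      · have := mul_le_mul_of_nonneg_left h2 hs
        have := mul_nonneg (show 0 ≤ (q + 1) * b ^ 2 by positivity) h1
        have : 0 ≤ b ^ 2 * b ^ 2 * (x + y) := by positivity
        nlinarith
      · have h5 := mul_le_mul_of_nonneg_right (h3.trans h4)
          (show 0 ≤ a ^ 2 + 4 * (q + 1) * b ^ 2 by positivity)
        have : 0 ≤ b ^ 2 * (x + y) := by positivity
        nlinarith
  exact key.2.2

/-- The sum over an interval. -/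
def D (l : List Bool) (u v : ℕ) : ℝ := Psi l v - Psi l u

/-- The majorant in the moment bound. -/
def hh (ρ : ℝ) (l : List Bool) : ℕ → ℕ → ℕ → ℝ
  | 0, u, v => D l u v ^ 2
  | k + 1, u, v => hh ρ l k u v + ρ * hh ρ l k (u / d (l.length + k)) (v / d (l.length + k))

theorem hh_nonneg {ρ : ℝ} (hρ : 0 ≤ ρ) (l : List Bool) (k : ℕ) : ∀ u v, 0 ≤ hh ρ l k u v := by
  induction k with
  | zero => intro u v; exact sq_nonneg _
  | succ k ih => intro u v; exact add_nonneg (ih _ _) (mul_nonneg hρ (ih _ _))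

theorem hh_zero (ρ : ℝ) (l : List Bool) (k : ℕ) : hh ρ l k 0 0 = 0 := by
  induction k with
  | zero => simp [hh, D]
  | succ k ih => simp [hh, ih]

theorem hyper (q : ℕ) (l : List Bool) (k : ℕ) : ∀ u v,
    av k (fun e => (D (e ++ l) u v ^ 2) ^ q) ≤ hh (4 * q) l k u v ^ q := by
  induction k with
  | zero => intro u v; exact le_rfl
  | succ k ih =>
    intro u v
    have hρ : (0 : ℝ) ≤ 4 * q := by positivity
    refine le_trans (av_mono (n := k) fun e he => ?_) (mink (q := q)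
      (F := fun e => D (e ++ l) u v ^ 2)
      (G := fun e => 4 * q * D (e ++ l) (u / d (l.length + k)) (v / d (l.length + k)) ^ 2)
      (fun _ => sq_nonneg _) (fun _ => by positivity) (hh_nonneg hρ _ _ _ _)
      (mul_nonneg hρ (hh_nonneg hρ _ _ _ _)) (ih u v) ?_)
    · refine le_trans (le_of_eq ?_) (two_pt _ _ q)
      simp only [D, List.cons_append, Psi, List.length_append, he, add_comm k, sg_true, sg_false]
      congr 4 <;> ring
    · simp only [mul_pow _ _ q, av_mul]
      exact mul_le_mul_of_nonneg_left (ih _ _) (by positivity)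

theorem hh_nil (ρ : ℝ) (k : ℕ) : ∀ u v, u ≤ v →
    hh ρ [] k u v = T (fun _ => ρ) k v - T (fun _ => ρ) k u := by
  induction k with
  | zero =>
    intro u v h
    simp only [hh, D, Psi, T_zero]
    split_ifs <;> first | omega | norm_num
  | succ k ih =>
    intro u v h
    simp only [hh, T_succ, List.length_nil, zero_add, ih u v h, ih _ _ (Nat.div_le_div_right h)]
    ring

theorem hyper0 (q n : ℕ) {u v : ℕ} (h : u ≤ v) : av n (fun l => (D l u v ^ 2) ^ q) ≤
    (T (fun _ => 4 * q) n v - T (fun _ => 4 * q) n u) ^ q := by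
  simpa [hh_nil _ _ _ _ h] using hyper q [] n u v

/-- The running maximum of the square from time `n` on. -/
def Gm (n z : ℕ) : List Bool → ℝ
  | [] => Psi [] z ^ 2
  | b :: l => if l.length < n then Psi (b :: l) z ^ 2 else max (Gm n z l) (Psi (b :: l) z ^ 2)

theorem le_Gm (n z : ℕ) : ∀ l, Psi l z ^ 2 ≤ Gm n z l
  | [] => le_rfl
  | b :: l => by
    unfold Gm
    split_ifs
    exacts [le_rfl, le_max_right _ _]

theorem Gm_nonneg (n z : ℕ) (l : List Bool) : 0 ≤ Gm n z l := (sq_nonneg _).trans (le_Gm n z l)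

theorem Gm_zero (n : ℕ) : ∀ l, Gm n 0 l = 0
  | [] => by simp [Gm]
  | b :: l => by simp [Gm, Gm_zero n l]

theorem Gm_start (z : ℕ) : ∀ l : List Bool, Gm l.length z l = Psi l z ^ 2
  | [] => rfl
  | b :: l => by simp [Gm]

theorem Gm_L (s : ℕ → Bool) (z : ℕ) {n m k : ℕ} (h : n ≤ m) (hk : m ≤ k) :
    Psi (L s m) z ^ 2 ≤ Gm n z (L s k) := by
  induction k, hk using Nat.le_induction with
  | base => exact le_Gm _ _ _
  | succ k hk ih =>
    simp only [L, Gm, L_len]
    rw [if_neg (by omega)]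
    exact ih.trans (le_max_left _ _)

theorem doob2 (q z k : ℕ) (hq : 1 ≤ q) (l : List Bool) :
    av k (fun e => Gm l.length z (e ++ l) ^ (2 * q)) ≤
      (4 * hh (4 * (2 * q : ℕ)) l k 0 z) ^ (2 * q) := by
  set n := l.length with hn
  let u : List Bool → ℝ := fun t => 2 * (Gm n z t ^ q) ^ 2 - 4 * (Psi t z ^ 2) ^ q * Gm n z t ^ q
  have h1 : av k (fun e => u (e ++ l)) ≤ u l := by
    refine av_sup0 k (fun e => u (e ++ l)) fun e _ => ?_
    set t := e ++ l with ht
    have hl : ¬ t.length < n := by simp [ht, hn]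
    have hm : 0 ≤ Gm n z t ^ q := pow_nonneg (Gm_nonneg _ _ _) q
    have a : ∀ b, u (b :: t) ≤
        2 * (Gm n z t ^ q) ^ 2 - 4 * (Psi (b :: t) z ^ 2) ^ q * Gm n z t ^ q := by
      intro b
      simp only [u, Gm, if_neg hl]
      rcases le_total (Gm n z t) (Psi (b :: t) z ^ 2) with h | h
      · rw [max_eq_right h]
        nlinarith [sq_nonneg ((Psi (b :: t) z ^ 2) ^ q - Gm n z t ^ q)]
      · rw [max_eq_left h]
    have c : (Psi t z ^ 2) ^ q ≤
        1 / 2 * (Psi (true :: t) z ^ 2) ^ q + 1 / 2 * (Psi (false :: t) z ^ 2) ^ q := by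
      refine le_trans ?_ ((convexOn_pow (𝕜 := ℝ) q).2 (sq_nonneg (Psi (true :: t) z))
        (sq_nonneg (Psi (false :: t) z)) (show (0 : ℝ) ≤ 1 / 2 by norm_num)
        (show (0 : ℝ) ≤ 1 / 2 by norm_num) (by norm_num))
      refine pow_le_pow_left₀ (sq_nonneg _) ?_ q
      simp only [Psi, sg_true, sg_false, smul_eq_mul]
      nlinarith [sq_nonneg (Psi t (z / d t.length))]
    have := mul_le_mul_of_nonneg_right c hm
    have a1 := a true
    have a2 := a false
    simp only [List.cons_append, ← ht]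
    change _ ≤ 2 * (Gm n z t ^ q) ^ 2 - 4 * (Psi t z ^ 2) ^ q * Gm n z t ^ q
    linarith
  have h2 : u l ≤ 0 := by
    simp only [u, hn, Gm_start]
    nlinarith [sq_nonneg ((Psi l z ^ 2) ^ q)]
  have h3 := hyper (2 * q) l k 0 z
  have h4 : av k (fun e => Gm n z (e ++ l) ^ (2 * q)) ≤
      av k fun e => 4 * (D (e ++ l) 0 z ^ 2) ^ (2 * q) + u (e ++ l) := by
    refine av_mono fun e _ => ?_
    simp only [u, D, Psi_zero, sub_zero, pow_mul' _ 2 q]
    nlinarith [sq_nonneg (Gm n z (e ++ l) ^ q - 2 * (Psi (e ++ l) z ^ 2) ^ q)]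
  rw [av_add, av_mul] at h4
  have h5 : (4 : ℝ) ≤ 4 ^ (2 * q) := le_self_pow₀ (by norm_num) (by omega)
  have h6 : 0 ≤ hh (4 * (2 * q : ℕ)) l k 0 z ^ (2 * q) :=
    pow_nonneg (hh_nonneg (by positivity) _ _ _ _) _
  rw [mul_pow]
  nlinarith

/-- The weights. -/
def w (z : ℕ) : ℝ := 1 / (z * (z + 1))

/-- The weighted sum. -/
def nrm (Z : ℕ) (g : ℕ → ℝ) : ℝ := ∑ z ∈ range Z, w z * g z

theorem w_nonneg (z : ℕ) : 0 ≤ w z := by unfold w; positivity

theorem sum_w {a b : ℕ} (ha : 0 < a) (h : a ≤ b) : ∑ z ∈ Ico a b, w z = 1 / a - 1 / b := by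
  induction b, h using Nat.le_induction with
  | base => simp
  | succ b h ih =>
    have : (0 : ℝ) < b := by exact_mod_cast ha.trans_le h
    rw [sum_Ico_succ_top h, ih, w]
    push_cast
    field_simp
    ring

theorem nrm_div {g : ℕ → ℝ} (hg : ∀ z, 0 ≤ g z) (h0 : g 0 = 0) (Z n : ℕ) :
    nrm Z (fun z => g (z / d n)) ≤ r n * nrm Z g := by
  unfold r
  generalize d n = p
  rcases p.eq_zero_or_pos with rfl | hp
  · simp [nrm, h0]
  have key : ∀ Z, nrm (Z * p) (fun z => g (z / p)) = 1 / p * nrm Z g := by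
    intro Z
    induction Z with
    | zero => simp [nrm]
    | succ Z ih =>
      have e : ∑ z ∈ Ico (Z * p) ((Z + 1) * p), w z * g (z / p) =
          (∑ z ∈ Ico (Z * p) ((Z + 1) * p), w z) * g Z := by
        rw [sum_mul]
        refine sum_congr rfl fun z hz => ?_
        rw [Nat.div_eq_of_lt_le (mem_Ico.1 hz).1 (mem_Ico.1 hz).2]
      have hle : Z * p ≤ (Z + 1) * p := by nlinarith
      unfold nrm at ih ⊢
      rw [← sum_range_add_sum_Ico _ hle, ih, e, sum_range_succ, mul_add]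
      congr 1
      rcases Z.eq_zero_or_pos with rfl | hZ
      · simp [h0]
      rw [sum_w (Nat.mul_pos hZ hp) hle, w]
      push_cast
      field_simp
      ring
  rw [← key]
  exact sum_le_sum_of_subset_of_nonneg (range_mono (Nat.le_mul_of_pos_right _ hp))
    fun z _ _ => mul_nonneg (w_nonneg z) (hg _)

theorem nrm_hh {ρ : ℝ} (hρ : 0 ≤ ρ) (Z : ℕ) (l : List Bool) (k : ℕ) :
    nrm Z (hh ρ l k 0) ≤
      exp (ρ * ∑ m ∈ Ico l.length (l.length + k), r m) * nrm Z fun z => Psi l z ^ 2 := by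
  induction k with
  | zero => simp [nrm, hh, D]
  | succ k ih =>
    have h1 := nrm_div (hh_nonneg hρ l k 0) (hh_zero ρ l k) Z (l.length + k)
    have e : nrm Z (hh ρ l (k + 1) 0) =
        nrm Z (hh ρ l k 0) + ρ * nrm Z fun z => hh ρ l k 0 (z / d (l.length + k)) := by
      simp only [nrm, hh, Nat.zero_div, mul_add, sum_add_distrib, mul_sum, mul_left_comm ρ]
    have h0 : 0 ≤ nrm Z (hh ρ l k 0) :=
      sum_nonneg fun z _ => mul_nonneg (w_nonneg z) (hh_nonneg hρ _ _ _ _)
    rw [e, ← add_assoc, sum_Ico_succ_top (by omega), mul_add, exp_add, mul_right_comm]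
    have h2 := mul_le_mul_of_nonneg_left (add_one_le_exp (ρ * r (l.length + k))) h0
    have h3 := mul_le_mul_of_nonneg_right ih (exp_pos (ρ * r (l.length + k))).le
    nlinarith [mul_le_mul_of_nonneg_left h1 hρ]

theorem Psi_one : ∀ l, Psi l 1 = 1
  | [] => by simp [Psi]
  | b :: l => by
    have : 1 / d l.length = 0 := by
      unfold d
      split_ifs with h
      exacts [Nat.div_eq_of_lt h.one_lt, rfl]
    simp [Psi, Psi_one l, this]

/-- The event on one piece of primes. -/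
def Fp (n k Z : ℕ) (l : List Bool) : Prop :=
  32 * exp 8 * nrm Z (fun z => Psi (l.drop k) z ^ 2) < nrm Z fun z => Gm n z l

theorem piece (n k Z q : ℕ) (hq : 1 ≤ q) (hZ : 2 ≤ Z)
    (h : ∑ m ∈ Ico n (n + k), r m ≤ 1 / q) : pr (n + k) (Fp n k Z) ≤ (1 / 8) ^ (2 * q) := by
  unfold pr
  rw [av_tower]
  refine av_le fun l hl => ?_
  subst hl
  set N := nrm Z fun z => Psi l z ^ 2 with hN
  have hN0 : 0 < N := by
    refine lt_of_lt_of_le ?_ (single_le_sum (f := fun z => w z * Psi l z ^ 2)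
      (fun z _ => mul_nonneg (w_nonneg z) (sq_nonneg _)) (mem_range.2 (show 1 < Z by omega)))
    simp [Psi_one, w]
  have hρ : (0 : ℝ) ≤ 4 * (2 * q : ℕ) := by positivity
  have h1 := mink_sum (n := k) (q := 2 * q) (range Z)
    (F := fun z e => w z * Gm l.length z (e ++ l))
    (a := fun z => w z * (4 * hh (4 * (2 * q : ℕ)) l k 0 z))
    (fun z e => mul_nonneg (w_nonneg z) (Gm_nonneg _ _ _))
    (fun z => mul_nonneg (w_nonneg z) (mul_nonneg (by norm_num) (hh_nonneg hρ _ _ _ _)))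
    fun z => by
      simp only [mul_pow (w z), av_mul]
      exact mul_le_mul_of_nonneg_left (doob2 q z k hq l) (pow_nonneg (w_nonneg z) _)
  have h2 : ∑ z ∈ range Z, w z * (4 * hh (4 * (2 * q : ℕ)) l k 0 z) ≤ 4 * exp 8 * N := by
    have h3 := nrm_hh hρ Z l k
    have h4 : exp (4 * (2 * q : ℕ) * ∑ m ∈ Ico l.length (l.length + k), r m) ≤ exp 8 := by
      refine exp_le_exp.2 ((mul_le_mul_of_nonneg_left h hρ).trans (le_of_eq ?_))
      have : (0 : ℝ) < q := by positivity
      push_cast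
      field_simp
      norm_num
    simp only [mul_left_comm _ (4 : ℝ), ← mul_sum]
    have := mul_le_mul_of_nonneg_right h4 hN0.le
    unfold nrm at h3
    rw [mul_assoc]
    exact mul_le_mul_of_nonneg_left (h3.trans this) (by norm_num)
  have h5 := h1.trans (pow_le_pow_left₀ (sum_nonneg fun z _ => mul_nonneg (w_nonneg z)
    (mul_nonneg (by norm_num) (hh_nonneg hρ _ _ _ _))) h2 _)
  have hc : 0 < 32 * exp 8 * N := by positivity
  refine (pr_le (F := fun e => (∑ z ∈ range Z, w z * Gm l.length z (e ++ l)) ^ (2 * q) /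
    (32 * exp 8 * N) ^ (2 * q)) fun e he => ⟨?_, fun hb => ?_⟩).trans ?_
  · rw [pow_mul]; positivity
  · rw [one_le_div (by positivity)]
    simp only [Fp, List.drop_left' he] at hb
    exact pow_le_pow_left₀ hc.le hb.le _
  · rw [av_div, div_le_iff₀ (by positivity), ← mul_pow]
    refine h5.trans (le_of_eq ?_)
    congr 1; ring

end

end Pool.Agent.Lib.RM67
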