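import Pool.Agent.Lib.RM67.Var
import Pool.Agent.Lib.RM67.Blue

/-! Project rm67: the assembly. -/

namespace Pool.Agent.Lib.RM67

open Finset Real Filter MeasureTheory ProbabilityTheory Asymptotics

noncomputable section

theorem core (h1 : St_MASS) (h2 : St_TAIL) {Ω : Type} [MeasurableSpace Ω] {μ : Measure Ω}
    [IsProbabilityMeasure μ] {Y : Ω → ℕ → Bool} (hY : Fair μ Y) {ε : ℝ} (hε : 0 < ε) :
    ∃ C : ℝ, 0 ≤ C ∧ ∀ᵐ ω ∂μ, ∀ᶠ κ in atTop, ∀ x, 2 ^ κ ≤ x → x < 2 ^ (κ + 1) →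
      |Psi (L (Y ω) (2 ^ 2 ^ (Nat.log 2 κ + 1))) x| ≤
        C * (√(2 ^ κ) * √(√(Nat.log 2 κ)) * (Nat.log 2 (Nat.log 2 κ) : ℝ) ^ (1 + ε)) := by
  obtain ⟨C, hC⟩ : ∃ C, C = 600 + (2 / ε + 7) * (153600 * exp 26) := ⟨_, rfl⟩
  have hC0 : 0 < C := by rw [hC]; positivity
  refine ⟨3 + 2 * √(1206 * C), by positivity, ?_⟩
  filter_upwards [ev_chain hY, ev_smooth hY, ev_piece hY, h1 Ω μ Y hY ε hε, h2 Ω μ Y hY,
    ev_exp hY (fun κ => √(603 * (Nat.log 2 κ + 1) : ℕ) / (HH κ * √(vv ε κ)))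
      fun κ => 2 ^ 2 ^ ks (Nat.log 2 κ)] with ω e1 e2 e3 e4 e5 e6
  filter_upwards [e1, e2, e6, var_bd hε _ e4 e5 e3, ev_log 600,
    tendsto_lg.eventually (eventually_ge_atTop 2)] with κ f1 f2 f3 f4 hκ hj x hx1 hx2
  have hv : vv ε κ = C * 2 ^ κ * ((Nat.log 2 (Nat.log 2 κ) : ℝ) ^ (1 + ε)) ^ 2 /
    √(Nat.log 2 κ) := by rw [hC, vv]
  set j := Nat.log 2 κ
  have e : 2 ^ (600 * j) * HH κ = 2 ^ κ := by rw [HH, ← pow_add]; congr 1; omega
  have hH : 0 < HH κ := Nat.two_pow_pos _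
  generalize HH κ = H at *
  generalize vv ε κ = v at *
  have hi : x / H ∈ Ico (2 ^ (600 * j)) (2 ^ (600 * j + 1)) := mem_Ico.2
    ⟨(Nat.le_div_iff_mul_le hH).2 (e ▸ hx1), (Nat.div_lt_iff_lt_mul hH).2
      (by rw [pow_succ, mul_right_comm, e]; exact hx2)⟩
  have hi2 : (x / H + 1) * H ≤ 2 ^ (κ + 1) :=
    (Nat.mul_le_mul_right _ (mem_Ico.1 hi).2).trans_eq (by rw [pow_succ, mul_right_comm, e]; rfl)
  have g2 := not_lt.1 (f2 _ hi)
  have g3 := f3 _ hi (Nat.pow_le_pow_right two_pos (Nat.pow_le_pow_right two_pos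
    (by unfold ks; omega)))
  have g4 := f4 _ hi
  set l := L (Y ω) (2 ^ 2 ^ (j + 1))
  have hH' : (0 : ℝ) < H := by positivity
  have hj0 : (1 : ℝ) ≤ j := by exact_mod_cast (by omega : 1 ≤ j)
  have hh : (1 : ℝ) ≤ (Nat.log 2 j : ℝ) ^ (1 + ε) :=
    one_le_rpow (by exact_mod_cast Nat.log_pos one_lt_two hj) (by linarith)
  generalize (Nat.log 2 j : ℝ) ^ (1 + ε) = g at *
  have g1 : |H * Psi l x - Mb (x / H * H) H l| ≤ H * (2 * √(2 ^ κ)) := by
    have : H * Psi l x - Mb (x / H * H) H l =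
        ∑ y ∈ Ico (x / H * H) (x / H * H + H), (Psi l x - Psi l y) := by simp [Mb]
    rw [this]
    refine (abs_sum_le_sum_abs _ _).trans ((sum_le_card_nsmul _ _ (2 * √(2 ^ κ))
      fun y hy => ?_).trans_eq (by simp))
    have a := f1 (x / H) (x % H) (Nat.mod_lt _ hH) hi2
    have b := f1 (x / H) (y - x / H * H) (by simp only [mem_Ico] at hy; omega) hi2
    rw [Nat.div_add_mod'] at a
    rw [Nat.add_sub_cancel' (mem_Ico.1 hy).1, abs_sub_comm] at b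
    exact (abs_sub_le _ _ _).trans (by linarith)
  have g5 : |Mb (x / H * H) H (L (Y ω) (2 ^ 2 ^ ks j))| ≤ H * √(2 ^ κ) :=
    abs_le_of_sq_le_sq (by rwa [mul_pow, sq_sqrt (by positivity)]) (by positivity)
  set Λ : ℝ := ((603 * (j + 1) : ℕ) : ℝ) with hΛ
  have hΛ0 : 0 < Λ := by positivity
  have hv0 : 0 < v := by rw [hv]; positivity
  have g6 : |Mb (x / H * H) H l - Mb (x / H * H) H (L (Y ω) (2 ^ 2 ^ ks j))| ≤
      H * (2 * (√Λ * √v)) := by
    have a := g3.trans (add_le_add le_rfl (mul_le_mul_of_nonneg_left g4 (by positivity)))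
    have b : (√Λ / (H * √v)) ^ 2 / 2 * (H ^ 2 * v) = Λ / 2 := by
      rw [div_pow, mul_pow, sq_sqrt hΛ0.le, sq_sqrt hv0.le]; field_simp
    rw [b, abs_mul, abs_of_pos (by positivity), div_mul_eq_mul_div, div_le_iff₀ (by positivity)] at a
    refine le_of_mul_le_mul_left (a.trans ?_) (sqrt_pos.2 hΛ0)
    have c := mul_self_sqrt hΛ0.le
    have : 0 ≤ Λ * (H * √v) := by positivity
    calc _ ≤ 2 * (√Λ * √Λ) * (H * √v) := by rw [c]; nlinarith
      _ = _ := by ring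
  have g7 : √Λ * √v ≤ √(1206 * C) * (√(2 ^ κ) * √(√j) * g) := by
    refine (abs_le_of_sq_le_sq' ?_ (by positivity)).2
    simp only [mul_pow]
    rw [sq_sqrt hΛ0.le, sq_sqrt hv0.le, sq_sqrt (by positivity), sq_sqrt (by positivity),
      sq_sqrt (by positivity), hv, ← mul_div_assoc, div_le_iff₀ (by positivity)]
    have a : Λ ≤ 1206 * (√j * √j) := by rw [mul_self_sqrt (by positivity), hΛ]; push_cast; linarith
    exact (mul_le_mul_of_nonneg_right a (by positivity)).trans_eq (by ring)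
  have g8 : √(2 ^ κ) ≤ √(2 ^ κ) * √(√j) * g := by
    rw [mul_assoc]
    exact le_mul_of_one_le_right (sqrt_nonneg _)
      (one_le_mul_of_one_le_of_one_le (one_le_sqrt.2 (one_le_sqrt.2 hj0)) hh)
  have g9 : |H * Psi l x| ≤ H * (3 * √(2 ^ κ) + 2 * (√Λ * √v)) := by
    rw [abs_le] at g1 g5 g6 ⊢
    constructor <;> linarith [g1.1, g1.2, g5.1, g5.2, g6.1, g6.2]
  rw [abs_mul, abs_of_pos hH'] at g9
  refine (le_of_mul_le_mul_left g9 hH').trans ?_
  linarith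

theorem lg_step {n : ℕ} {y : ℝ} (hy : 4 ≤ y) (h : n ≤ 4 * y) : (Nat.log 2 n : ℝ) ≤ 4 * log y := by
  have h0 : 0 ≤ log y := log_nonneg (by linarith)
  rcases n.eq_zero_or_pos with rfl | hn
  · simpa using h0
  have h1 : log n ≤ log (y ^ 2) := log_le_log (by positivity) (by nlinarith)
  rw [log_pow] at h1
  push_cast at h1
  linarith [lg_real hn]

theorem bigO_of (h1 : St_MASS) (h2 : St_TAIL) {Ω : Type} [MeasurableSpace Ω] {μ : Measure Ω}
    [IsProbabilityMeasure μ] {Y : Ω → ℕ → Bool} (hY : Fair μ Y) {ε : ℝ} (hε : 0 < ε) :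
    ∀ᵐ ω ∂μ, (fun x : ℝ => ∑ n ∈ (Icc 1 ⌊x⌋₊).filter Squarefree, ∏ p ∈ n.primeFactors, sg (Y ω p))
      =O[atTop] fun x => √x * log (log x) ^ (1 / 4 : ℝ) * log (log (log x)) ^ (1 + ε) := by
  obtain ⟨C, hC, h⟩ := core h1 h2 hY hε
  filter_upwards [h] with ω hω
  refine IsBigO.of_bound (C * (2 * 4 ^ (1 + ε))) ?_
  filter_upwards [(tendsto_lg.comp (tendsto_nat_floor_atTop (α := ℝ))).eventually hω,
    eventually_ge_atTop 4, tendsto_log_atTop.eventually_ge_atTop 4,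
    (tendsto_log_atTop.comp tendsto_log_atTop).eventually_ge_atTop 4] with x hx a1 a2 a3
  simp only [Function.comp_apply] at hx a3
  have b0 : ⌊x⌋₊ ≠ 0 := by rw [Ne, Nat.floor_eq_zero]; linarith
  have b1 := Nat.pow_log_le_self 2 b0
  have b2 := Nat.lt_pow_succ_log_self one_lt_two ⌊x⌋₊
  have b3 := Nat.floor_le (show 0 ≤ x by linarith)
  have b4 := hx _ b1 b2
  have c1 := lg_step (n := ⌊x⌋₊) a1 (by linarith)
  have c2 := lg_step a2 c1
  have c3 := lg_step a3 c2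
  have c4 : 0 ≤ log (log (log x)) := log_nonneg (by linarith)
  have e : Psi (L (Y ω) (2 ^ 2 ^ (Nat.log 2 (Nat.log 2 ⌊x⌋₊) + 1))) ⌊x⌋₊ =
      ∑ n ∈ (Icc 1 ⌊x⌋₊).filter Squarefree, ∏ p ∈ n.primeFactors, sg (Y ω p) := by
    rw [Psi_L, T, sum_filter]
    refine sum_congr rfl fun n hn => if_congr (and_iff_left fun p hp => ?_) rfl rfl
    exact (Nat.le_of_mem_primeFactors hp).trans_lt ((mem_Icc.1 hn).2.trans_lt (b2.trans_le
      (Nat.pow_le_pow_right two_pos (Nat.lt_pow_succ_log_self one_lt_two _))))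
  rw [← e, norm_eq_abs, norm_of_nonneg (by positivity)]
  refine b4.trans ?_
  have d1 : √(2 ^ Nat.log 2 ⌊x⌋₊) ≤ √x := sqrt_le_sqrt (le_trans (by exact_mod_cast b1) b3)
  have d2 : √(√(Nat.log 2 (Nat.log 2 ⌊x⌋₊))) ≤ 2 * log (log x) ^ (1 / 4 : ℝ) := by
    have : (2 * log (log x) ^ (1 / 4 : ℝ)) ^ (2 * 2) = 16 * log (log x) := by
      rw [mul_pow, ← rpow_natCast (_ ^ _), ← rpow_mul (by linarith)]; norm_num
    rw [sqrt_le_left (by positivity), sqrt_le_left (by positivity), ← pow_mul, this]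
    linarith
  have d3 := rpow_le_rpow (Nat.cast_nonneg _) c3 (show 0 ≤ 1 + ε by linarith)
  rw [mul_rpow (by norm_num) c4] at d3
  rw [mul_assoc C]
  refine mul_le_mul_of_nonneg_left ((mul_le_mul (mul_le_mul d1 d2 (sqrt_nonneg _) (sqrt_nonneg _))
    d3 (by positivity) (by positivity)).trans_eq (by ring)) hC

end

end Pool.Agent.Lib.RM67
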