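import Pool.Agent.Lib.RM67.Hyper
import Pool.Agent.Lib.RM67.Four

/-! Project rm67: the Euler product and the Plancherel identity. -/

namespace Pool.Agent.Lib.RM67

open Finset Real MeasureTheory Filter Topology

noncomputable section

/-- The amplitude of one Euler factor. -/
def be (n : ℕ) : ℝ := 2 * √(r n) / (1 + r n)

/-- The oscillating part of one Euler factor. -/
def bb (n : ℕ) (t : ℝ) : ℝ := be n * cos (log n * t)

/-- The normalised squared modulus of the Euler product. -/
def R : List Bool → ℝ → ℝ
  | [], _ => 1
  | b :: l, t => R l t * (1 + sg b * bb l.length t)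

/-- The normalisation. -/
def Pr (n : ℕ) : ℝ := ∏ m ∈ range n, (1 + r m)

/-- The cosine transform. -/
def CC (l : List Bool) (u : ℝ) : ℝ := ∫ t, R l t * cos (u * t) * dens t

/-- The total mass. -/
def NN (l : List Bool) : ℝ := ∫ t, R l t * dens t

theorem be_nonneg (n : ℕ) : 0 ≤ be n := by have := r_nonneg n; unfold be; positivity

theorem be_sq (n : ℕ) : be n ^ 2 = 4 * r n / (1 + r n) ^ 2 := by
  rw [be, div_pow, mul_pow, sq_sqrt (r_nonneg n)]; norm_num

theorem be_sq_le (n : ℕ) : be n ^ 2 ≤ 8 / 9 ∧ be n ^ 2 ≤ 4 * r n ∧
    4 * r n - 8 * r n ^ 2 ≤ be n ^ 2 := by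
  have h0 := r_nonneg n
  have h1 := r_le n
  rw [be_sq, div_le_iff₀ (by positivity), div_le_iff₀ (by positivity), le_div_iff₀ (by positivity)]
  refine ⟨by nlinarith, by nlinarith [mul_nonneg h0 h0, mul_nonneg h0 (mul_nonneg h0 h0)], ?_⟩
  nlinarith [mul_nonneg h0 h0, mul_nonneg h0 (mul_nonneg h0 h0), sq_nonneg (r n ^ 2)]

theorem abs_bb (n : ℕ) (t : ℝ) : |bb n t| ≤ be n := by
  rw [bb, abs_mul, abs_of_nonneg (be_nonneg n)]
  exact mul_le_of_le_one_right (be_nonneg n) (abs_cos_le_one _)

theorem abs_sb (b : Bool) (n : ℕ) (t : ℝ) : |sg b * bb n t| ≤ 17 / 18 := by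
  rw [abs_mul, abs_sg, one_mul]
  refine (abs_bb n t).trans (abs_le_of_sq_le_sq' ?_ (by norm_num)).2
  linarith [(be_sq_le n).1]

theorem R_pos (t : ℝ) : ∀ l, 0 < R l t
  | [] => one_pos
  | b :: l => mul_pos (R_pos t l) (by linarith [(abs_le.1 (abs_sb b l.length t)).1])

theorem R_le (t : ℝ) : ∀ l, R l t ≤ 2 ^ l.length
  | [] => by simp [R]
  | b :: l => by
    rw [R, List.length_cons, pow_succ]
    have := abs_le.1 (abs_sb b l.length t)
    exact mul_le_mul (R_le t l) (by linarith) (by linarith) (by positivity)

theorem R_cont : ∀ l, Continuous (R l)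
  | [] => continuous_const
  | b :: l => by
    have := R_cont l
    change Continuous fun t => R l t * (1 + sg b * (be l.length * cos (log l.length * t)))
    fun_prop

theorem R_int (l : List Bool) : Integrable fun t => R l t * dens t :=
  bd_int (R_cont l) fun t => (abs_of_pos (R_pos t l)).trans_le (R_le t l)

theorem RC_int (l : List Bool) (u : ℝ) : Integrable fun t => R l t * cos (u * t) * dens t := by
  have := R_cont l
  refine bd_int (by fun_prop) (C := 2 ^ l.length) fun t => ?_
  rw [abs_mul, abs_of_pos (R_pos t l)]
  exact (mul_le_of_le_one_right (R_pos t l).le (abs_cos_le_one _)).trans (R_le t l)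

theorem CC_cons (b : Bool) (l : List Bool) (u : ℝ) : CC (b :: l) u = CC l u +
    sg b * be l.length / 2 * (CC l (u + log l.length) + CC l (u - log l.length)) := by
  unfold CC
  rw [← integral_add (RC_int _ _) (RC_int _ _), ← integral_const_mul, ← integral_add (RC_int _ _)]
  · congr 1; funext t
    simp only [R, bb, add_mul, sub_mul, cos_add, cos_sub]
    ring
  · exact ((RC_int _ _).add (RC_int _ _)).const_mul _

theorem NN_nonneg (l : List Bool) : 0 ≤ NN l :=
  integral_nonneg fun t => (mul_pos (R_pos t l) (dens_pos t)).le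

theorem NN_step (l : List Bool) : (NN (true :: l) + NN (false :: l)) / 2 = NN l := by
  unfold NN
  rw [← integral_add (R_int _) (R_int _), ← integral_div]
  congr 1; funext t
  simp only [R, sg_true, sg_false]
  ring

theorem planch : ∀ (l : List Bool) (a b : ℕ), 0 < a → 0 < b →
    HasSum (fun z => w z * (Psi l (z / a) * Psi l (z / b)))
      (Pr l.length * exp (-(log a + log b) / 2) * CC l (log a - log b))
  | [], a, b, ha, hb => by
    have e : Pr 0 * exp (-(log a + log b) / 2) * CC [] (log a - log b) = 1 / (max a b : ℕ) := by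
      have ha' : (0 : ℝ) < a := by positivity
      have hb' : (0 : ℝ) < b := by positivity
      simp only [Pr, CC, R, one_mul, int_cos, range_zero, prod_empty, ← exp_add]
      rcases le_total a b with h | h
      · rw [max_eq_right h, abs_of_nonpos (sub_nonpos.2 (log_le_log ha' (by exact_mod_cast h))),
          one_div, ← exp_log hb', ← exp_neg, log_exp]
        congr 1; ring
      · rw [max_eq_left h, abs_of_nonneg (sub_nonneg.2 (log_le_log hb' (by exact_mod_cast h))),
          one_div, ← exp_log ha', ← exp_neg, log_exp]
        congr 1; ring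
    have e2 : ∀ z, w z * (Psi [] (z / a) * Psi [] (z / b)) = if max a b ≤ z then w z else 0 := by
      intro z
      simp only [Psi, Nat.one_le_div_iff ha, Nat.one_le_div_iff hb, max_le_iff]
      by_cases h1 : a ≤ z <;> by_cases h2 : b ≤ z <;> simp [h1, h2]
    rw [List.length_nil, e]
    simp only [e2]
    rw [hasSum_iff_tendsto_nat_of_nonneg fun z => by split_ifs; exacts [w_nonneg z, le_rfl]]
    have ht := (tendsto_const_nhds (x := (1 / (max a b : ℕ) : ℝ))).sub
      (tendsto_one_div_atTop_nhds_zero_nat (𝕜 := ℝ))
    rw [sub_zero] at ht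
    refine ht.congr' ?_
    filter_upwards [eventually_ge_atTop (max a b)] with n hn
    rw [← sum_w (lt_max_of_lt_left ha) hn, ← sum_filter]
    congr 1; ext z; simp [and_comm]
  | c :: l, a, b, ha, hb => by
    rw [CC_cons, List.length_cons, Pr, prod_range_succ, ← Pr]
    by_cases hp : l.length.Prime
    · set p := l.length with hl
      have hd : d p = p := by simp [d, hp]
      have hp' : (0 : ℝ) < p := by exact_mod_cast hp.pos
      have h1 := planch l a b ha hb
      have h2 := planch l (a * p) b (Nat.mul_pos ha hp.pos) hb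
      have h3 := planch l a (b * p) ha (Nat.mul_pos hb hp.pos)
      have h4 := planch l (a * p) (b * p) (Nat.mul_pos ha hp.pos) (Nat.mul_pos hb hp.pos)
      have la : log ((a * p : ℕ) : ℝ) = log a + log p := by
        rw [Nat.cast_mul, log_mul (by positivity) hp'.ne']
      have lb : log ((b * p : ℕ) : ℝ) = log b + log p := by
        rw [Nat.cast_mul, log_mul (by positivity) hp'.ne']
      have s2 : exp (-log p / 2) * exp (-log p / 2) = r p := by
        rw [← exp_add, add_halves, exp_neg, exp_log hp', r_prime hp, one_div]
      have s1 : √(r p) = exp (-log p / 2) := by rw [← s2, sqrt_mul_self (exp_pos _).le]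
      have s3 : (1 + r p) * (be p / 2) = exp (-log p / 2) := by
        have := r_nonneg p
        rw [be, s1]; field_simp
      have g2 : sg c * sg c = 1 := by cases c <;> simp
      simp only [la, lb] at h2 h3 h4
      rw [show -(log a + log p + log b) / 2 = -(log a + log b) / 2 + -log p / 2 by ring,
        show log a + log p - log b = log a - log b + log p by ring, exp_add] at h2
      rw [show -(log a + (log b + log p)) / 2 = -(log a + log b) / 2 + -log p / 2 by ring,
        show log a - (log b + log p) = log a - log b - log p by ring, exp_add] at h3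
      rw [show -(log a + log p + (log b + log p)) / 2 =
          -(log a + log b) / 2 + -log p / 2 + -log p / 2 by ring,
        show log a + log p - (log b + log p) = log a - log b by ring, exp_add, exp_add] at h4
      convert ((h1.add (h2.mul_left (sg c))).add (h3.mul_left (sg c))).add h4 using 1
      · funext z
        simp only [Psi, ← hl, hd, Nat.div_div_eq_div_mul]
        linear_combination (w z * Psi l (z / (a * p)) * Psi l (z / (b * p))) * g2
      · rw [← hl]
        linear_combination (-Pr p * exp (-(log a + log b) / 2) * CC l (log a - log b)) * s2 +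
          (Pr p * exp (-(log a + log b) / 2) * sg c *
            (CC l (log a - log b + log p) + CC l (log a - log b - log p))) * s3
    · simpa [Psi, d, be, r_not hp, hp] using planch l a b ha hb

theorem nrm_le (Z : ℕ) (l : List Bool) : nrm Z (fun z => Psi l z ^ 2) ≤ Pr l.length * NN l := by
  have h := planch l 1 1 one_pos one_pos
  simp only [Nat.div_one, ← sq, CC, Nat.cast_one, log_one, sub_zero, zero_mul, cos_zero, mul_one,
    add_zero, neg_zero, zero_div, exp_zero] at h
  exact sum_le_hasSum _ (fun z _ => mul_nonneg (w_nonneg z) (sq_nonneg _)) h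

theorem Pr_le {a : ℕ} (ha : 2 ≤ a) : Pr (2 ^ a) ≤ exp 18 * a := by
  have h : ∀ n, Pr n ≤ exp (∑ m ∈ range n, r m) := fun n => by
    rw [exp_sum]
    exact prod_le_prod (fun m _ => by linarith [r_nonneg m]) fun m _ => by
      linarith [add_one_le_exp (r m)]
  refine (h _).trans ((exp_le_exp.2 (sr_le ha)).trans_eq ?_)
  rw [exp_add, exp_log (by positivity), mul_comm]

end

end Pool.Agent.Lib.RM67
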