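import Pool.Agent.Lib.RM67.Events

/-! Project rm67: the bound on the conditional variance. -/

namespace Pool.Agent.Lib.RM67

open Finset Real Filter

noncomputable section

theorem lg_real {n : ℕ} (hn : 1 ≤ n) : (Nat.log 2 n : ℝ) ≤ 2 * log n := by
  have h : log ((2 : ℝ) ^ Nat.log 2 n) ≤ log n :=
    log_le_log (by positivity) (by exact_mod_cast Nat.pow_log_le_self 2 (by omega))
  rw [log_pow] at h
  nlinarith [log_two_gt_d9, (Nat.cast_nonneg (Nat.log 2 n) : (0 : ℝ) ≤ _)]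

/-- The size of the variance. -/
def vv (ε : ℝ) (κ : ℕ) : ℝ := (600 + (2 / ε + 7) * (153600 * exp 26)) * 2 ^ κ *
  ((Nat.log 2 (Nat.log 2 κ) : ℝ) ^ (1 + ε)) ^ 2 / √(Nat.log 2 κ)

theorem var_bd {ε : ℝ} (hε : 0 < ε) (s : ℕ → Bool)
    (hM : ∀ᶠ l : ℕ in atTop, ∀ n : ℕ, 2 ^ 2 ^ 4 ^ l ≤ n → n ≤ 2 ^ 2 ^ 4 ^ (l + 2) →
      NN (L s n) ≤ (l : ℝ) ^ (1 + ε) / 2 ^ l)
    (hT : ∀ᶠ j : ℕ in atTop, ∀ k : ℕ, 1 ≤ k → k + Nat.log 2 (Nat.log 2 j) + 7 ≤ j →
      nrm (2 ^ 2 ^ (j + 1)) (fun z => if 2 ^ 2 ^ (j - 1) ≤ z then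
        Gm (2 ^ 2 ^ k) z (L s (2 ^ 2 ^ (k + 1))) else 0) ≤ 2 ^ k / (j : ℝ) ^ 2)
    (hP : ∀ᶠ k in atTop, ∀ i < 2 ^ (Nat.log 2 (Nat.log 2 k) + 1),
      nrm (2 ^ 2 ^ (2 * k + 1)) (fun z => Gm (2 ^ ex k i) z (L s (2 ^ ex k (i + 1)))) ≤
        32 * exp 26 * ex k i * NN (L s (2 ^ ex k i))) :
    ∀ᶠ κ in atTop, ∀ i ∈ Ico (2 ^ (600 * Nat.log 2 κ)) (2 ^ (600 * Nat.log 2 κ + 1)),
      ∑ m ∈ Ico (2 ^ 2 ^ ks (Nat.log 2 κ)) (2 ^ 2 ^ (Nat.log 2 κ + 1)),
        cc (i * HH κ) (HH κ) (L s m) ^ 2 ≤ (HH κ : ℝ) ^ 2 * vv ε κ := by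
  obtain ⟨K, hK⟩ := eventually_atTop.1 (hP.and ((ev_pow 9600).and (ev_log 2)))
  obtain ⟨K', hK'⟩ := eventually_atTop.1 hM
  filter_upwards [ev_log 600, tendsto_lg.eventually hT, tendsto_lg.eventually (ev_log 24),
    tendsto_lg.eventually (eventually_ge_atTop (2 * K + 2)),
    (tendsto_lg.comp tendsto_lg).eventually (eventually_ge_atTop (2 * K' + 4))]
    with κ hκ hT hj hK0 hK1 i hi
  unfold vv
  simp only [Function.comp_apply, mem_Ico] at hK1 hi
  have b0 : 2 ^ Nat.log 2 κ ≤ κ := Nat.pow_log_le_self 2 (by omega)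
  have b1 := Nat.lt_pow_succ_log_self one_lt_two κ
  set j := Nat.log 2 κ
  have b2 : 2 ^ Nat.log 2 j ≤ j := Nat.pow_log_le_self 2 (by omega)
  have b3 := Nat.lt_pow_succ_log_self one_lt_two j
  set h := Nat.log 2 j with hh
  have b4 : Nat.log 2 h ≤ h := Nat.log_le_self 2 h
  have e : 2 ^ (600 * j) * HH κ = 2 ^ κ := by rw [HH, ← pow_add]; congr 1; omega
  generalize HH κ = H at e ⊢
  have hc : i * H + H ≤ H * 2 ^ (600 * j + 1) := by
    rw [mul_comm H, ← Nat.succ_mul]; exact Nat.mul_le_mul_right _ hi.2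
  have hX : i * H + H ≤ 2 * 2 ^ κ := by rw [← e]; exact hc.trans_eq (by ring)
  have hX' : ((i * H : ℕ) : ℝ) + H ≤ 2 * 2 ^ κ := by exact_mod_cast hX
  have hA : 2 ^ κ ≤ i * H := e ▸ Nat.mul_le_mul_right _ hi.1
  have p2 : ∀ {a b : ℕ}, a ≤ b → 2 ^ a ≤ 2 ^ b := fun h => Nat.pow_le_pow_right two_pos h
  have hZ : i * H + H ≤ 2 ^ 2 ^ (j + 1) := hX.trans (by rw [← pow_succ']; exact p2 b1)
  have hk : ∀ k, ks j ≤ k → K ≤ k ∧ j ≤ 2 * k ∧ 8 * (600 * j + 1 + 4) ≤ 2 ^ k := fun k hk => by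
    unfold ks at hk
    have := (hK k (by omega)).2.1
    omega
  have hj0 : (1 : ℝ) ≤ j := by exact_mod_cast (by omega : 1 ≤ j)
  have hh0 : (1 : ℝ) ≤ h := by exact_mod_cast (by omega : 1 ≤ h)
  have mY : Monotone fun k : ℕ => 2 ^ 2 ^ k := fun _ _ h => p2 (p2 h)
  have t1 := sum_pieces (fun m => cc (i * H) H (L s m) ^ 2) mY (600 * H ^ 2 * 2 ^ κ / j ^ 2)
    (a := ks j) (b := j - (Nat.log 2 h + 6)) (by unfold ks; omega) fun k h1 h2 => by
      refine (var_le hc (hk k h1).2.2 hZ s _ (g := fun z => if 2 ^ 2 ^ (j - 1) ≤ z then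
        Gm (2 ^ 2 ^ k) z (L s (2 ^ 2 ^ (k + 1))) else 0) (fun z => ?_) (by simp)
        fun n hn x hx => ?_).trans ?_
      · split_ifs
        exacts [Gm_nonneg _ _ _, le_rfl]
      · simp only [mem_Ico] at hn hx
        by_cases hp : n.Prime
        · rw [if_pos]
          · exact Gm_L s _ hn.1 hn.2.le
          simp only [d, hp, if_true]
          rw [Nat.le_div_iff_mul_le hp.pos]
          calc _ ≤ 2 ^ 2 ^ (j - 1) * 2 ^ 2 ^ (j - 1) :=
                Nat.mul_le_mul_left _ (hn.2.le.trans (p2 (p2 (by omega))))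
            _ = 2 ^ 2 ^ j := by rw [← pow_add, ← Nat.two_pow_succ]; congr 2; omega
            _ ≤ x := (p2 b0).trans (hA.trans hx.1)
        · simp [d, hp]
      · refine (mul_le_mul_of_nonneg_left (hT k (by have := hk k h1; omega) (by omega))
          (by positivity)).trans ?_
        calc _ = 300 * H ^ 2 * (((i * H : ℕ) : ℝ) + H) / j ^ 2 := by
              rw [Nat.cast_pow, Nat.cast_ofNat]; field_simp
          _ ≤ 300 * H ^ 2 * (2 * 2 ^ κ) / j ^ 2 := by gcongr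
          _ = _ := by ring
  set l := h / 2 - 1
  have c1 : 4 ^ l * 4 ≤ j := by
    rw [← pow_succ, show 4 = 2 ^ 2 from rfl, ← pow_mul]; exact (p2 (by omega)).trans b2
  have c2 : j + 1 ≤ 4 ^ (l + 2) := by
    rw [show 4 = 2 ^ 2 from rfl, ← pow_mul]; exact le_trans b3 (p2 (by omega))
  have c3 : (l : ℝ) ^ (1 + ε) / 2 ^ l ≤ h ^ (1 + ε) * (4 / √j) := by
    have : √j ≤ 4 * 2 ^ l := by
      rw [sqrt_le_left (by positivity)]
      have : (j : ℝ) ≤ 4 ^ (l + 2) := by exact_mod_cast (by omega : j ≤ 4 ^ (l + 2))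
      refine this.trans_eq ?_
      rw [mul_pow, ← pow_mul, mul_comm l, pow_mul]; ring
    rw [div_eq_mul_one_div]
    refine mul_le_mul (rpow_le_rpow l.cast_nonneg (by exact_mod_cast (by omega : l ≤ h))
      (by linarith)) ?_ (by positivity) (by positivity)
    rw [div_le_div_iff₀ (by positivity) (by positivity), one_mul]
    exact this
  have t2 := sum_pieces (fun m => cc (i * H) H (L s m) ^ 2) mY
    (2 * h * (19200 * exp 26 * H ^ 2 * 2 ^ κ * (h ^ (1 + ε) * (4 / √j))))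
    (a := j - (Nat.log 2 h + 6)) (b := j + 1) (by omega) fun k h1 h2 => by
      obtain ⟨k1, k2, k3⟩ := hk k (by unfold ks; omega)
      obtain ⟨k4, -, k5⟩ := hK k k1
      have q0 : Nat.log 2 k ≤ h := Nat.log_mono_right (by omega)
      have q1 : 2 ^ Nat.log 2 (Nat.log 2 k) ≤ _ :=
        Nat.pow_log_le_self 2 (Nat.log_pos one_lt_two (by omega : 2 ≤ k)).ne'
      have q2 := Nat.log_le_self 2 (Nat.log 2 k)
      have me : Monotone (ex k) := fun a b h => by unfold ex; gcongr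
      have q3 : ex k (2 ^ (Nat.log 2 (Nat.log 2 k) + 1)) = 2 ^ (k + 1) := by
        rw [ex, ← pow_add, Nat.two_pow_succ k]; congr 2; omega
      have q4 : ex k 0 = 2 ^ k := by simp [ex]
      have := sum_pieces (fun m => cc (i * H) H (L s m) ^ 2) (P := fun a => 2 ^ ex k a)
        (fun _ _ h => p2 (me h)) (19200 * exp 26 * H ^ 2 * 2 ^ κ * (h ^ (1 + ε) * (4 / √j)))
        (Nat.zero_le (2 ^ (Nat.log 2 (Nat.log 2 k) + 1))) fun a _ ha => by
          have r1 : 2 ^ k ≤ ex k a := q4 ▸ me a.zero_le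
          have r2 : ex k a ≤ 2 ^ (k + 1) := q3 ▸ me ha.le
          have r3 : (0 : ℝ) < ex k a := by exact_mod_cast k.two_pow_pos.trans_le r1
          have r4 := (hK' l (by omega) (2 ^ ex k a) (p2 ((p2 (by omega)).trans r1))
            (p2 (r2.trans (p2 (by omega))))).trans c3
          refine (var_le hc (k3.trans r1) (hZ.trans (p2 (p2 (by omega : j + 1 ≤ 2 * k + 1)))) s _
            (g := fun z => Gm (2 ^ ex k a) z (L s (2 ^ ex k (a + 1))))
            (fun z => Gm_nonneg _ z _) (Gm_zero _ _) fun n hn x _ =>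
              Gm_L s _ (mem_Ico.1 hn).1 (mem_Ico.1 hn).2.le).trans ?_
          refine (mul_le_mul_of_nonneg_left ((k4 a ha).trans (mul_le_mul_of_nonneg_left r4
            (by positivity))) (by positivity)).trans ?_
          calc _ = 9600 * exp 26 * H ^ 2 * (((i * H : ℕ) : ℝ) + H) * (h ^ (1 + ε) * (4 / √j)) := by
                field_simp; ring
            _ ≤ 9600 * exp 26 * H ^ 2 * (2 * 2 ^ κ) * (h ^ (1 + ε) * (4 / √j)) := by gcongr
            _ = _ := by ring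
      simp only [q3, q4] at this
      refine this.trans (mul_le_mul_of_nonneg_right ?_ (by positivity))
      exact_mod_cast (by rw [pow_succ]; omega : 2 ^ (Nat.log 2 (Nat.log 2 k) + 1) - 0 ≤ 2 * h)
  rw [← sum_Ico_consecutive _ (mY (show ks j ≤ j - (Nat.log 2 h + 6) by unfold ks; omega))
    (mY (show j - (Nat.log 2 h + 6) ≤ j + 1 by omega))]
  have d0 : (1 : ℝ) ≤ h ^ ε := one_le_rpow hh0 hε.le
  have d1 : ((j + 1 - (j - (Nat.log 2 h + 6)) : ℕ) : ℝ) ≤ (2 / ε + 7) * h ^ ε := by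
    have a1 := lg_real (n := h) (by omega)
    have a2 := log_le_rpow_div h.cast_nonneg hε
    rw [show j + 1 - (j - (Nat.log 2 h + 6)) = Nat.log 2 h + 7 by omega, add_mul,
      div_mul_eq_mul_div, mul_div_assoc]
    push_cast
    linarith
  have d2 : (h : ℝ) ^ (1 + ε) = h * h ^ ε := by rw [rpow_add (by linarith), rpow_one]
  have d3 : ((j - (Nat.log 2 h + 6) - ks j : ℕ) : ℝ) ≤ j := by exact_mod_cast (by omega)
  have d4 : 1 / (j : ℝ) ≤ (h ^ (1 + ε)) ^ 2 / √j := by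
    refine div_le_div₀ (by positivity) (one_le_pow₀ (one_le_rpow hh0 (by linarith)))
      (by positivity) ?_
    rw [sqrt_le_left (by positivity)]
    nlinarith
  refine (add_le_add (t1.trans (mul_le_mul_of_nonneg_right d3 (by positivity)))
    (t2.trans (mul_le_mul_of_nonneg_right d1 (by positivity)))).trans ?_
  calc _ = 600 * H ^ 2 * 2 ^ κ * (1 / (j : ℝ)) + (2 / ε + 7) * (153600 * exp 26) * H ^ 2 * 2 ^ κ *
        ((h ^ (1 + ε)) ^ 2 / √j) := by
        rw [d2]; field_simp; ring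
    _ ≤ 600 * H ^ 2 * 2 ^ κ * ((h ^ (1 + ε)) ^ 2 / √j) + _ := by gcongr
    _ = _ := by ring

end

end Pool.Agent.Lib.RM67
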